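import Pool.Agent.Hhelper96.UB.Hsq
import Pool.Agent.Hhelper17.PE.Mat

/-!
# A trace inequality (module P2)

For a Hermitian matrix `E` and a matrix `Y` with `|Y x| ≤ c |x|`:
`hsq ((Y E) ^ (2 ^ j)) ≤ c ^ (2 * 2 ^ j) * tr (E ^ (2 * 2 ^ j))`.

Joint induction, with the Cauchy-Schwarz inequality only:
* `S j`: `hsq (X ^ (2 ^ j)) ≤ tr ((Xᴴ X) ^ (2 ^ j))`;
* `L j`: `tr ((P Q) ^ (2 ^ j)) ≤ tr (P ^ (2 ^ j) Q ^ (2 ^ j))` for Hermitian `P`, `Q`.
-/

set_option autoImplicit false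
set_option linter.unusedSectionVars false

open scoped BigOperators ComplexOrder
open Matrix

namespace Pool.Agent.Hhelper96.PEPS

namespace TrPow

variable {n : Type} [Fintype n] [DecidableEq n]

/-- the real part of the trace -/
noncomputable def tr (X : Matrix n n ℂ) : ℝ := (trace X).re

theorem tr_conj_mul (X : Matrix n n ℂ) : tr (Xᴴ * X) = hsq X := by
  unfold tr hsq
  rw [trace, Complex.re_sum, Finset.sum_comm]
  refine Finset.sum_congr rfl fun j _ => ?_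
  rw [diag_apply, mul_apply, Complex.re_sum]
  refine Finset.sum_congr rfl fun i _ => ?_
  rw [conjTranspose_apply, Complex.star_def, ← Complex.normSq_eq_conj_mul_self, Complex.ofReal_re,
    Complex.normSq_eq_norm_sq]

theorem hsq_conj (X : Matrix n n ℂ) : hsq Xᴴ = hsq X := by
  unfold hsq
  rw [Finset.sum_comm]
  refine Finset.sum_congr rfl fun i _ => Finset.sum_congr rfl fun j _ => ?_
  rw [conjTranspose_apply, norm_star]

theorem hsq_nonneg (X : Matrix n n ℂ) : 0 ≤ hsq X := by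
  unfold hsq
  positivity

/-- The Cauchy-Schwarz inequality. -/
theorem tr_mul_le (A B : Matrix n n ℂ) : tr (A * B) ≤ √(hsq A) * √(hsq B) := by
  have h1 : tr (A * B) ≤ ∑ p : n × n, ‖A p.1 p.2‖ * ‖B p.2 p.1‖ := by
    unfold tr
    rw [trace, Complex.re_sum, Fintype.sum_prod_type]
    refine Finset.sum_le_sum fun i _ => ?_
    rw [diag_apply, mul_apply, Complex.re_sum]
    refine Finset.sum_le_sum fun j _ => ?_
    rw [← norm_mul]
    exact Complex.re_le_norm _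
  refine h1.trans ((Real.sum_mul_le_sqrt_mul_sqrt _ _ _).trans ?_)
  apply le_of_eq
  congr 2
  · unfold hsq
    rw [Fintype.sum_prod_type]
  · unfold hsq
    rw [Fintype.sum_prod_type, Finset.sum_comm]

theorem tr_sq_le (X : Matrix n n ℂ) : tr (X * X) ≤ hsq X := by
  have h1 := tr_mul_le X X
  rwa [Real.mul_self_sqrt (hsq_nonneg X)] at h1

theorem tr_comm (A B : Matrix n n ℂ) : tr (A * B) = tr (B * A) := by
  unfold tr
  rw [trace_mul_comm]

theorem pow_cyc (A B : Matrix n n ℂ) (k : ℕ) : (A * B) ^ (k + 1) = A * (B * A) ^ k * B := by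
  induction k with
  | zero => rw [zero_add, pow_one, pow_zero, mul_one]
  | succ k ih =>
    rw [pow_succ, ih, pow_succ (B * A) k]
    simp only [mul_assoc]

theorem tr_cyc (A B : Matrix n n ℂ) {k : ℕ} (hk : k ≠ 0) : tr ((A * B) ^ k) = tr ((B * A) ^ k) := by
  obtain ⟨k, rfl⟩ := Nat.exists_eq_succ_of_ne_zero hk
  rw [Nat.succ_eq_add_one, pow_cyc, mul_assoc, tr_comm, mul_assoc, pow_succ]

theorem hsq_herm {P : Matrix n n ℂ} (hP : P.IsHermitian) (k : ℕ) : hsq (P ^ k) = tr (P ^ (2 * k)) := by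
  rw [← tr_conj_mul, (hP.pow k).eq, ← pow_add, two_mul]

theorem two_pow_ne (j : ℕ) : 2 ^ j ≠ 0 := by positivity

theorem S_L (j : ℕ) : (∀ X : Matrix n n ℂ, hsq (X ^ (2 ^ j)) ≤ tr ((Xᴴ * X) ^ (2 ^ j))) ∧
    (∀ P Q : Matrix n n ℂ, P.IsHermitian → Q.IsHermitian →
      tr ((P * Q) ^ (2 ^ j)) ≤ tr (P ^ (2 ^ j) * Q ^ (2 ^ j))) := by
  induction j with
  | zero =>
    refine ⟨fun X => ?_, fun P Q _ _ => ?_⟩
    · rw [pow_zero, pow_one, pow_one, tr_conj_mul]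
    · rw [pow_zero, pow_one, pow_one, pow_one]
  | succ j ih =>
    obtain ⟨ihS, ihL⟩ := ih
    have hL : ∀ P Q : Matrix n n ℂ, P.IsHermitian → Q.IsHermitian →
        tr ((P * Q) ^ (2 ^ (j + 1))) ≤ tr (P ^ (2 ^ (j + 1)) * Q ^ (2 ^ (j + 1))) := by
      intro P Q hP hQ
      have e1 : (P * Q) ^ (2 ^ (j + 1)) = (P * Q) ^ (2 ^ j) * (P * Q) ^ (2 ^ j) := by
        rw [← pow_add, pow_succ, mul_two]
      have e2 : (P * Q)ᴴ * (P * Q) = Q * (P * P * Q) := by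
        rw [conjTranspose_mul, hP.eq, hQ.eq]
        simp only [mul_assoc]
      have e3 : P * P * Q * Q = (P ^ 2) * (Q ^ 2) := by
        rw [sq, sq]
        simp only [mul_assoc]
      rw [e1]
      refine (tr_sq_le _).trans ((ihS _).trans ?_)
      rw [e2, tr_cyc _ _ (two_pow_ne j), e3]
      refine (ihL _ _ (hP.pow 2) (hQ.pow 2)).trans ?_
      rw [← pow_mul, ← pow_mul, ← pow_succ']
    refine ⟨fun X => ?_, hL⟩
    have e1 : X ^ (2 ^ (j + 1)) = (X * X) ^ (2 ^ j) := by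
      rw [← sq, ← pow_mul, ← pow_succ']
    have e2 : (X * X)ᴴ * (X * X) = Xᴴ * (Xᴴ * X * X) := by
      rw [conjTranspose_mul]
      simp only [mul_assoc]
    have e3 : Xᴴ * X * X * Xᴴ = (Xᴴ * X) * (X * Xᴴ) := by
      simp only [mul_assoc]
    rw [e1]
    refine (ihS _).trans ?_
    rw [e2, tr_cyc _ _ (two_pow_ne j), e3]
    have h1 : (Xᴴ * X).IsHermitian := isHermitian_conjTranspose_mul_self X
    have h2 : (X * Xᴴ).IsHermitian := isHermitian_mul_conjTranspose_self X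
    refine (ihL _ _ h1 h2).trans ((tr_mul_le _ _).trans ?_)
    rw [hsq_herm h1, hsq_herm h2, tr_cyc X Xᴴ (by positivity), Real.mul_self_sqrt, ← pow_succ']
    rw [← hsq_herm h1]
    exact hsq_nonneg _

theorem mulVec_pow_le {Z : Matrix n n ℂ} {b : ℝ} (hb : 0 ≤ b) (hZ : ∀ x, sqn (Z.mulVec x) ≤ b * sqn x) (N : ℕ)
    (x : n → ℂ) : sqn ((Z ^ N).mulVec x) ≤ b ^ N * sqn x := by
  induction N with
  | zero => rw [pow_zero, pow_zero, one_mulVec, one_mul]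
  | succ N ih =>
    rw [pow_succ', ← mulVec_mulVec, pow_succ', mul_assoc]
    exact (hZ _).trans (mul_le_mul_of_nonneg_left ih hb)

/-- The adjoint satisfies the same bound. -/
theorem conj_bound {Y : Matrix n n ℂ} {c : ℝ} (hc : 0 ≤ c) (hY : ∀ x, sqn (Y.mulVec x) ≤ c ^ 2 * sqn x)
    (x : n → ℂ) : sqn (Yᴴ.mulVec x) ≤ c ^ 2 * sqn x := by
  have h1 : ‖star (Yᴴ.mulVec x) ⬝ᵥ (Yᴴ.mulVec x)‖ = sqn (Yᴴ.mulVec x) := by
    rw [star_dot_self, Complex.norm_real, Real.norm_of_nonneg (sqn_nonneg _)]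
  have h2 : star (Yᴴ.mulVec x) ⬝ᵥ (Yᴴ.mulVec x) = star x ⬝ᵥ Y.mulVec (Yᴴ.mulVec x) := by
    rw [star_mulVec, conjTranspose_conjTranspose, ← dotProduct_mulVec]
  have h3 := cauchy x (Y.mulVec (Yᴴ.mulVec x))
  rw [← h2, h1] at h3
  have h4 : √(sqn (Y.mulVec (Yᴴ.mulVec x))) ≤ c * √(sqn (Yᴴ.mulVec x)) := by
    rw [← Real.sqrt_sq hc, ← Real.sqrt_mul (sq_nonneg c)]
    exact Real.sqrt_le_sqrt (hY _)
  set a := √(sqn (Yᴴ.mulVec x)) with ha
  have ha2 : a ^ 2 = sqn (Yᴴ.mulVec x) := Real.sq_sqrt (sqn_nonneg _)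
  have hb2 : √(sqn x) ^ 2 = sqn x := Real.sq_sqrt (sqn_nonneg _)
  have ha0 : 0 ≤ a := Real.sqrt_nonneg _
  have hb0 : 0 ≤ √(sqn x) := Real.sqrt_nonneg _
  have h5 : a ^ 2 ≤ c * √(sqn x) * a := by
    rw [ha2]
    refine h3.trans ?_
    calc √(sqn x) * √(sqn (Y.mulVec (Yᴴ.mulVec x))) ≤ √(sqn x) * (c * a) :=
          mul_le_mul_of_nonneg_left h4 hb0
      _ = c * √(sqn x) * a := by ring
  have h6 : a ≤ c * √(sqn x) := by
    rcases ha0.eq_or_lt with h0 | h0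
    · rw [← h0]; positivity
    · rw [sq] at h5
      exact le_of_mul_le_mul_right h5 h0
  rw [← ha2, ← hb2, ← mul_pow]
  exact pow_le_pow_left₀ ha0 h6 2

theorem herm_mulVec_dot {F : Matrix n n ℂ} (hF : F.IsHermitian) (A : Matrix n n ℂ) :
    tr (F * A * F) = ∑ i, ex A (F.mulVec (Pi.single i 1)) := by
  unfold tr ex
  rw [trace, Complex.re_sum]
  refine Finset.sum_congr rfl fun i _ => ?_
  rw [diag_apply]
  congr 1
  rw [star_mulVec, hF.eq, ← dotProduct_mulVec, mulVec_mulVec, mulVec_mulVec]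
  simp [Pi.star_single, mul_assoc]

theorem hsq_eq_sum (F : Matrix n n ℂ) : hsq F = ∑ i, sqn (F.mulVec (Pi.single i 1)) := by
  unfold hsq sqn
  rw [Finset.sum_comm]
  refine Finset.sum_congr rfl fun i _ => Finset.sum_congr rfl fun j _ => ?_
  simp

/-- `tr (F A F) ≤ b hsq F` for Hermitian `F` and `|A x| ≤ b |x|`. -/
theorem tr_sandwich {F A : Matrix n n ℂ} (hF : F.IsHermitian) {b : ℝ} (hb : 0 ≤ b)
    (hA : ∀ x, sqn (A.mulVec x) ≤ b ^ 2 * sqn x) : tr (F * A * F) ≤ b * hsq F := by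
  rw [herm_mulVec_dot hF, hsq_eq_sum, Finset.mul_sum]
  refine Finset.sum_le_sum fun i _ => ?_
  set φ := F.mulVec (Pi.single i 1)
  have h1 : ex A φ ≤ √(sqn φ) * √(sqn (A.mulVec φ)) := by
    unfold ex
    exact (Complex.re_le_norm _).trans (cauchy _ _)
  have h2 : √(sqn (A.mulVec φ)) ≤ b * √(sqn φ) := by
    rw [← Real.sqrt_sq hb, ← Real.sqrt_mul (sq_nonneg b)]
    exact Real.sqrt_le_sqrt (hA _)
  refine h1.trans ((mul_le_mul_of_nonneg_left h2 (Real.sqrt_nonneg _)).trans (le_of_eq ?_))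
  rw [mul_left_comm, Real.mul_self_sqrt (sqn_nonneg _)]

/-- **The trace inequality.** -/
theorem hsq_pow_le {E Y : Matrix n n ℂ} (hE : E.IsHermitian) {c : ℝ} (hc : 0 ≤ c)
    (hY : ∀ x, sqn (Y.mulVec x) ≤ c ^ 2 * sqn x) (j : ℕ) :
    hsq ((Y * E) ^ (2 ^ j)) ≤ c ^ (2 * 2 ^ j) * tr (E ^ (2 * 2 ^ j)) := by
  set N := 2 ^ j with hN
  have hZ : (Yᴴ * Y).IsHermitian := isHermitian_conjTranspose_mul_self Y
  have e1 : (Y * E)ᴴ * (Y * E) = E * (Yᴴ * Y * E) := by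
    rw [conjTranspose_mul, hE.eq]
    simp only [mul_assoc]
  have e2 : Yᴴ * Y * E * E = (Yᴴ * Y) * (E ^ 2) := by
    rw [sq]
    simp only [mul_assoc]
  have h1 : hsq ((Y * E) ^ N) ≤ tr ((Yᴴ * Y) ^ N * (E ^ 2) ^ N) := by
    refine ((S_L j).1 _).trans ?_
    rw [e1, tr_cyc _ _ (two_pow_ne j), e2]
    exact (S_L j).2 _ _ hZ (hE.pow 2)
  have e3 : tr ((Yᴴ * Y) ^ N * (E ^ 2) ^ N) = tr (E ^ N * (Yᴴ * Y) ^ N * E ^ N) := by
    rw [← pow_mul, two_mul, pow_add, ← mul_assoc, tr_comm, mul_assoc]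
  have hZb : ∀ x, sqn ((Yᴴ * Y).mulVec x) ≤ (c ^ 2) ^ 2 * sqn x := by
    intro x
    rw [← mulVec_mulVec]
    refine (conj_bound hc hY _).trans ?_
    rw [sq (c ^ 2), mul_assoc]
    exact mul_le_mul_of_nonneg_left (hY x) (by positivity)
  have h2 := tr_sandwich (F := E ^ N) (A := (Yᴴ * Y) ^ N) (hE.pow N) (b := (c ^ 2) ^ N) (by positivity) (by
    intro x
    have h3 := mulVec_pow_le (by positivity) hZb N x
    rwa [← pow_mul (c ^ 2) N 2, mul_comm N 2, pow_mul (c ^ 2) 2 N])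
  rw [e3] at h1
  refine h1.trans (h2.trans (le_of_eq ?_))
  rw [hsq_herm hE, ← pow_mul]

end TrPow

end Pool.Agent.Hhelper96.PEPS

namespace Pool.Agent.Hhelper17.AM

open Pool.Agent.Hhelper96.PEPS
open scoped Matrix.Norms.L2Operator

/-- **The trace inequality (package P2).** -/
theorem hs_pow_le {n : Type} [Fintype n] [DecidableEq n] (Y E : Matrix n n ℂ) (c : ℝ) (hc : 0 ≤ c)
    (hE : E.IsHermitian) (hY : ∀ x, sqn (Y.mulVec x) ≤ c ^ 2 * sqn x) (k : ℕ) :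
    hsq ((Y * E) ^ (2 ^ k)) ≤ c ^ (2 * 2 ^ k) * hsq (E ^ (2 ^ k)) := by
  rw [TrPow.hsq_herm hE]
  exact TrPow.hsq_pow_le hE hc hY k

/-- The same with the operator norm. -/
theorem hs_pow_le_norm {n : Type} [Fintype n] [DecidableEq n] (Y E : Matrix n n ℂ) (c : ℝ) (hc : 0 ≤ c)
    (hE : E.IsHermitian) (hY : ‖Y‖ ≤ c) (k : ℕ) :
    hsq ((Y * E) ^ (2 ^ k)) ≤ c ^ (2 * 2 ^ k) * hsq (E ^ (2 ^ k)) := by
  refine hs_pow_le Y E c hc hE (fun x => ?_) k
  have h1 := Hhelper17.PE.sqrt_sqn_mulVec_le Y x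
  have h2 : √(sqn (Y.mulVec x)) ≤ c * √(sqn x) :=
    h1.trans (mul_le_mul_of_nonneg_right hY (Real.sqrt_nonneg _))
  have h3 := pow_le_pow_left₀ (Real.sqrt_nonneg _) h2 2
  rwa [mul_pow, Real.sq_sqrt (sqn_nonneg _), Real.sq_sqrt (sqn_nonneg _)] at h3

end Pool.Agent.Hhelper17.AM
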