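import Pool.Agent.Hhelper17.AM.Cut
import Pool.Agent.Hhelper17.AM.P2
import Pool.Agent.Hhelper68.CS.MatS

/-!
The sum over the allowed configurations is close to the power of the cluster sum, in the
Hilbert-Schmidt norm.
-/

set_option autoImplicit false
set_option linter.unusedSectionVars false

open scoped BigOperators Matrix.Norms.L2Operator
open Matrix

namespace Pool.Agent.Hhelper17.AM

open Pool.Agent.Hhelper68.CS Pool.Agent.Hhelper96.PEPS Pool.Agent.Hhelper17.PE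

/-- The truncated cluster sum is close to the exponential, with small cluster bounds. -/
theorem clS_close' (s : ℕ) (δ₀ : ℝ) (hδ₀ : 0 < δ₀) : ∃ t₀ : ℝ, 0 < t₀ ∧
    ∀ (𝔸 : Type) [NormedRing 𝔸] [NormedAlgebra ℂ 𝔸] [CompleteSpace 𝔸] [NormOneClass 𝔸]
      (I : Type) [Fintype I] [DecidableEq I] (nb : I → Finset I) (h : I → 𝔸) (m : ℕ),
      (∀ i, (nb i).card ≤ s) → (∀ i, ‖h i‖ ≤ 1) →
      (∀ i j, j ∉ nb i → Commute (h i) (h j)) → (∀ i, i ∈ nb i) →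
      (∀ i j, j ∈ nb i → i ∈ nb j) → 3 ≤ m → Fintype.card I ≤ 2 ^ m →
      ∀ t : ℝ, 0 ≤ t → t ≤ t₀ →
        (∀ A B : Finset I, ‖clF h t B * FE h t (awy nb A B) * EE h t A‖ ≤ δ₀ ^ B.card) ∧
        ∃ η : ℝ, 0 ≤ η ∧ η ≤ 1 / 2 ∧ η ≤ Fintype.card I / 2 ^ m ∧
        ∀ A : Finset I, ‖clS nb h t m A * EE h t A - 1‖ ≤ η := by
  classical
  obtain ⟨δ, hδ⟩ : ∃ δ : ℝ, δ = min δ₀ (1 / 2 ^ (s + 2)) := ⟨_, rfl⟩
  have hδpos : 0 < δ := by rw [hδ]; exact lt_min hδ₀ (by positivity)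
  have hδle : δ ≤ δ₀ := by rw [hδ]; exact min_le_left _ _
  have hδle2 : δ ≤ 1 / 2 ^ (s + 2) := by rw [hδ]; exact min_le_right _ _
  obtain ⟨ρ, hρd⟩ : ∃ ρ : ℝ, ρ = 4 / δ := ⟨_, rfl⟩
  have hδ4 : δ ≤ 4 := by
    refine hδle2.trans ?_
    rw [div_le_iff₀ (by positivity)]
    have : (1 : ℝ) ≤ 2 ^ (s + 2) := one_le_pow₀ (by norm_num)
    linarith
  have hρ : 1 ≤ ρ := by
    rw [hρd, le_div_iff₀ hδpos]; linarith
  refine ⟨1 / (4 * (1 + ρ) * (s + 1)), by positivity, ?_⟩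
  intro 𝔸 _ _ _ _ I _ _ nb h m hs hn hnb hself hsymm hm hcard t ht htt
  have hs0 : (0 : ℝ) ≤ s := by positivity
  have htt' : t * (4 * (1 + ρ) * (s + 1)) ≤ 1 := by
    rwa [le_div_iff₀ (by positivity)] at htt
  have htr : t * ρ * (2 * s) ≤ 1 / 2 := by
    have h1 : t * ρ * (2 * s) * 2 ≤ t * (4 * (1 + ρ) * (s + 1)) := by
      have : t * (4 * (1 + ρ) * (s + 1)) - t * ρ * (2 * s) * 2 = t * (4 * s + 4 + 4 * ρ) := by ring
      have h2 : 0 ≤ t * (4 * s + 4 + 4 * ρ) := by positivity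
      linarith
    linarith
  have hδ1 : Real.exp (2 * (1 + ρ) * s * t) * (2 / ρ) ≤ δ := by
    have h1 : 2 * (1 + ρ) * s * t ≤ 1 / 2 := by
      have h2 : 2 * (1 + ρ) * s * t * 2 ≤ t * (4 * (1 + ρ) * (s + 1)) := by
        have : t * (4 * (1 + ρ) * (s + 1)) - 2 * (1 + ρ) * s * t * 2 = t * (4 * (1 + ρ)) := by ring
        have h3 : 0 ≤ t * (4 * (1 + ρ)) := by positivity
        linarith
      linarith
    have h2 : Real.exp (2 * (1 + ρ) * s * t) ≤ 2 := by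
      refine (Real.exp_le_exp.2 h1).trans ?_
      have h3 := Real.exp_bound_div_one_sub_of_interval (x := 1 / 2) (by norm_num) (by norm_num)
      norm_num at h3
      norm_num
      exact h3
    calc Real.exp (2 * (1 + ρ) * s * t) * (2 / ρ) ≤ 2 * (2 / ρ) :=
          mul_le_mul_of_nonneg_right h2 (by positivity)
      _ = δ := by
        rw [hρd]
        field_simp
        norm_num
  obtain ⟨x, hx⟩ : ∃ x : ℝ, x = ∑ C ∈ (Finset.univ : Finset (Finset I)).filter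
      (fun C => ConnF nb C ∧ m < C.card), δ ^ C.card := ⟨_, rfl⟩
  have hx0 : 0 ≤ x := by rw [hx]; positivity
  have hx1 : x ≤ (Fintype.card I : ℝ) / 4 ^ m := by
    rw [hx]
    apply count_sum hs hδpos.le
    calc (2 : ℝ) ^ s * δ ≤ 2 ^ s * (1 / 2 ^ (s + 2)) :=
          mul_le_mul_of_nonneg_left hδle2 (by positivity)
      _ = 1 / 4 := by
        rw [pow_add]
        field_simp
        norm_num
  obtain ⟨c, hc⟩ : ∃ c : ℝ, c = (Fintype.card I : ℝ) / 2 ^ m := ⟨_, rfl⟩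
  have h2m : (8 : ℝ) ≤ 2 ^ m := by
    calc (8 : ℝ) = 2 ^ 3 := by norm_num
      _ ≤ 2 ^ m := pow_le_pow_right₀ (by norm_num) hm
  have hc0 : 0 ≤ c := by rw [hc]; positivity
  have hc1 : c ≤ 1 := by
    rw [hc, div_le_one (by positivity)]
    exact_mod_cast hcard
  have hx2 : x * 8 ≤ c := by
    have h1 : (Fintype.card I : ℝ) / 4 ^ m * 2 ^ m = c := by
      rw [hc]
      have h4 : (4 : ℝ) ^ m = 2 ^ m * 2 ^ m := by
        rw [← mul_pow]; norm_num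
      rw [h4]
      field_simp
    calc x * 8 ≤ (Fintype.card I : ℝ) / 4 ^ m * 2 ^ m :=
          mul_le_mul hx1 h2m (by norm_num) (by positivity)
      _ = c := h1
  have hσ : ∀ A, ∑ D ∈ (bigF nb m A).erase ∅, δ ^ (D.biUnion id).card ≤ 2 * x := by
    intro A
    refine (big_sum hself m hδpos.le A).trans ?_
    rw [← hx]
    have h1 := Real.abs_exp_sub_one_sub_id_le (x := x) (by rw [abs_of_nonneg hx0]; linarith)
    have h2 := (abs_le.1 h1).2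
    nlinarith
  have hbd : ∀ A B : Finset I, ‖clF h t B * FE h t (awy nb A B) * EE h t A‖ ≤ δ ^ B.card := by
    intro A B
    refine (clF_bound h hs hn hnb hself hρ A B ht htr).trans ?_
    exact pow_le_pow_left₀ (by positivity) hδ1 _
  have hmain := clS_norm h hself hsymm hnb t m hδpos.le hbd hσ (by linarith)
  refine ⟨fun A B => (hbd A B).trans (pow_le_pow_left₀ hδpos.le hδle _),
    2 * (2 * x), by positivity, by linarith, by rw [← hc]; linarith, hmain⟩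

section frob

variable {n : Type} [Fintype n] [DecidableEq n]

theorem sqrt_hsq_eq (X : Matrix n n ℂ) :
    √(hsq X) = ‖(WithLp.toLp 2 (fun p : n × n => X p.1 p.2) : EuclideanSpace ℂ (n × n))‖ := by
  rw [EuclideanSpace.norm_eq]
  congr 1
  unfold hsq
  rw [Fintype.sum_prod_type]

theorem sqrt_hsq_add_le (X Y : Matrix n n ℂ) : √(hsq (X + Y)) ≤ √(hsq X) + √(hsq Y) := by
  rw [sqrt_hsq_eq, sqrt_hsq_eq, sqrt_hsq_eq]
  exact norm_add_le (WithLp.toLp 2 (fun p : n × n => X p.1 p.2) : EuclideanSpace ℂ (n × n))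
    (WithLp.toLp 2 (fun p : n × n => Y p.1 p.2))

theorem sqrt_hsq_smul (c : ℂ) (X : Matrix n n ℂ) : √(hsq (c • X)) = ‖c‖ * √(hsq X) := by
  rw [sqrt_hsq_eq, sqrt_hsq_eq, ← norm_smul]
  rfl

theorem sqrt_hsq_zero : √(hsq (0 : Matrix n n ℂ)) = 0 := by
  have : hsq (0 : Matrix n n ℂ) = 0 := by
    unfold hsq
    simp
  rw [this, Real.sqrt_zero]

theorem sqrt_hsq_sum_le {ι : Type*} (s : Finset ι) (f : ι → Matrix n n ℂ) :
    √(hsq (∑ i ∈ s, f i)) ≤ ∑ i ∈ s, √(hsq (f i)) := by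
  classical
  induction s using Finset.induction_on with
  | empty =>
    rw [Finset.sum_empty, Finset.sum_empty, sqrt_hsq_zero]
  | insert a s ha ih =>
    rw [Finset.sum_insert ha, Finset.sum_insert ha]
    exact (sqrt_hsq_add_le _ _).trans (by linarith)

/-- the square root of `hs_pow_le_norm` -/
theorem sqrt_hsq_pow (Y E : Matrix n n ℂ) (c : ℝ) (hc : 0 ≤ c) (hE : E.IsHermitian)
    (hY : ‖Y‖ ≤ c) (k : ℕ) :
    √(hsq ((Y * E) ^ (2 ^ k))) ≤ c ^ (2 ^ k) * √(hsq (E ^ (2 ^ k))) := by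
  have h1 := hs_pow_le_norm Y E c hc hE hY k
  have h2 : c ^ (2 * 2 ^ k) * hsq (E ^ (2 ^ k)) =
      (c ^ (2 ^ k) * √(hsq (E ^ (2 ^ k)))) ^ 2 := by
    rw [mul_pow, Real.sq_sqrt (TrPow.hsq_nonneg _), ← pow_mul, mul_comm (2 ^ k) 2]
  rw [h2] at h1
  calc √(hsq ((Y * E) ^ (2 ^ k))) ≤ √((c ^ (2 ^ k) * √(hsq (E ^ (2 ^ k)))) ^ 2) :=
        Real.sqrt_le_sqrt h1
    _ = _ := Real.sqrt_sq (by positivity)

/-- the inverse of a matrix close to one -/
theorem inv_bound [Nonempty n] (Δ : Matrix n n ℂ) (hΔ : ‖Δ‖ ≤ 1 / 2) :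
    ∃ Z : Matrix n n ℂ, Z * (1 + Δ) = 1 ∧ ‖Z‖ ≤ 2 := by
  have h1 : ‖-Δ‖ < 1 := by rw [norm_neg]; linarith
  obtain ⟨u, hu⟩ : IsUnit (1 - -Δ) := isUnit_one_sub_of_norm_lt_one h1
  rw [sub_neg_eq_add] at hu
  refine ⟨((u⁻¹ : (Matrix n n ℂ)ˣ) : Matrix n n ℂ), by rw [← hu]; exact u.inv_mul, ?_⟩
  obtain ⟨Z, hZ⟩ : ∃ Z : Matrix n n ℂ, Z = ((u⁻¹ : (Matrix n n ℂ)ˣ) : Matrix n n ℂ) := ⟨_, rfl⟩
  rw [← hZ]
  have h2 : Z * (1 + Δ) = 1 := by rw [hZ, ← hu]; exact u.inv_mul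
  have h3 : Z = 1 - Z * Δ := by
    rw [← h2, mul_add, mul_one]
    abel
  have h4 : ‖Z‖ ≤ 1 + ‖Z‖ * (1 / 2) := by
    calc ‖Z‖ = ‖1 - Z * Δ‖ := by rw [← h3]
      _ ≤ ‖(1 : Matrix n n ℂ)‖ + ‖Z * Δ‖ := norm_sub_le _ _
      _ ≤ 1 + ‖Z‖ * (1 / 2) := by
        rw [norm_one]
        have h5 := norm_mul_le Z Δ
        have h6 := mul_le_mul_of_nonneg_left hΔ (norm_nonneg Z)
        linarith
  linarith

end frob

section main

variable {n : Type} [Fintype n] [DecidableEq n] [Nonempty n]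
variable {I : Type} [Fintype I] [DecidableEq I] {nb : I → Finset I}
variable (h : I → Matrix n n ℂ)
variable {V : Type} [Fintype V] [DecidableEq V] {Cl : Type} [DecidableEq Cl]

theorem FE_herm (hh : ∀ i, (h i).IsHermitian) (t : ℝ) (Y : Finset I) :
    (FE h t Y).IsHermitian := by
  have h1 : (∑ i ∈ Y, h i).IsHermitian := herm_sum fun i _ => hh i
  have h2 := exp_herm h1 (-t)
  have e : ((-t : ℝ) : ℂ) = -(t : ℂ) := by push_cast; rfl
  rw [e] at h2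
  exact h2

open Classical in
/-- the powers of the weighted cluster sums -/
theorem pow_bound (hh : ∀ i, (h i).IsHermitian) (hself : ∀ i, i ∈ nb i)
    (hsymm : ∀ i j, j ∈ nb i → i ∈ nb j)
    (hnb : ∀ i j, j ∉ nb i → Commute (h i) (h j)) (t : ℝ) (m k : ℕ) {δ : ℝ} (hδ0 : 0 ≤ δ)
    (hδ : ∀ A B : Finset I, ‖clF h t B * FE h t (awy nb A B) * EE h t A‖ ≤ δ ^ B.card)
    (hcl : ∀ A : Finset I, ‖clS nb h t m A * EE h t A - 1‖ ≤ 1 / 2) (ζ : Finset I → ℂ) :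
    √(hsq ((clW nb h t m ζ Finset.univ) ^ (2 ^ k))) ≤
      4 ^ (2 ^ k) * Real.exp (2 ^ k * ∑ C ∈ (Finset.univ : Finset (Finset I)).filter
        (fun C => ConnF nb C ∧ C.card ≤ m), ‖ζ C - 1‖ * δ ^ C.card) *
      √(hsq ((clS nb h t m Finset.univ) ^ (2 ^ k))) := by
  have hcl2 : ∀ A : Finset I, ‖clS nb h t m A * EE h t A‖ ≤ 2 := by
    intro A
    have h6 := norm_add_le (clS nb h t m A * EE h t A - 1) 1
    rw [sub_add_cancel, norm_one] at h6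
    have := hcl A
    linarith
  have hW := clW_norm h hself hsymm hnb t m hδ0 hδ hcl2 ζ Finset.univ
  obtain ⟨e, he⟩ : ∃ e : ℝ, e = ∑ C ∈ (Finset.univ : Finset (Finset I)).filter
        (fun C => ConnF nb C ∧ C.card ≤ m), ‖ζ C - 1‖ * δ ^ C.card := ⟨_, rfl⟩
  have hW' : ‖clW nb h t m ζ Finset.univ * EE h t Finset.univ‖ ≤ 2 * Real.exp e := by
    rw [he]
    refine hW.trans (le_of_eq ?_)
    congr
  rw [← he]
  -- the exponential against the cluster sum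
  obtain ⟨T, hT⟩ : ∃ T, T = clS nb h t m Finset.univ := ⟨_, rfl⟩
  obtain ⟨F, hF⟩ : ∃ F, F = FE h t Finset.univ := ⟨_, rfl⟩
  obtain ⟨G, hG⟩ : ∃ G, G = EE h t Finset.univ := ⟨_, rfl⟩
  have hGF : G * F = 1 := by rw [hG, hF]; exact EE_mul_FE h t _
  obtain ⟨Z, hZ1, hZ2⟩ := inv_bound (T * G - 1) (by rw [hT, hG]; exact hcl _)
  have hFT : F = Z * T := by
    have h1 : (1 + (T * G - 1)) * F = T := by
      rw [add_sub_cancel, mul_assoc, hGF, mul_one]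
    calc F = (Z * (1 + (T * G - 1))) * F := by rw [hZ1, one_mul]
      _ = Z * T := by rw [mul_assoc, h1]
  have hTh : T.IsHermitian := by rw [hT]; exact clS_herm hh nb t m _
  have hFh : F.IsHermitian := by rw [hF]; exact FE_herm h hh t _
  have h3 : √(hsq (F ^ (2 ^ k))) ≤ 2 ^ (2 ^ k) * √(hsq (T ^ (2 ^ k))) := by
    rw [hFT]
    exact sqrt_hsq_pow Z T 2 (by norm_num) hTh hZ2 k
  have h4 : clW nb h t m ζ Finset.univ = (clW nb h t m ζ Finset.univ * G) * F := by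
    rw [mul_assoc, hGF, mul_one]
  have h5 : √(hsq ((clW nb h t m ζ Finset.univ) ^ (2 ^ k))) ≤
      (2 * Real.exp e) ^ (2 ^ k) * √(hsq (F ^ (2 ^ k))) := by
    rw [h4]
    exact sqrt_hsq_pow _ F (2 * Real.exp e) (by positivity) hFh (by rw [hG]; exact hW') k
  rw [← hT]
  calc √(hsq ((clW nb h t m ζ Finset.univ) ^ (2 ^ k)))
      ≤ (2 * Real.exp e) ^ (2 ^ k) * √(hsq (F ^ (2 ^ k))) := h5
    _ ≤ (2 * Real.exp e) ^ (2 ^ k) * (2 ^ (2 ^ k) * √(hsq (T ^ (2 ^ k)))) :=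
        mul_le_mul_of_nonneg_left h3 (by positivity)
    _ = 4 ^ (2 ^ k) * Real.exp (2 ^ k * e) * √(hsq (T ^ (2 ^ k))) := by
        have e1 : Real.exp (2 ^ k * e) = Real.exp e ^ (2 ^ k) := by
          rw [← Real.exp_nat_mul]
          push_cast
          rfl
        rw [e1, mul_pow]
        have e2 : (4 : ℝ) ^ (2 ^ k) = 2 ^ (2 ^ k) * 2 ^ (2 ^ k) := by
          rw [← mul_pow]; norm_num
        rw [e2]
        ring

open Classical in
/-- **The allowed configurations are close to all configurations.** -/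
theorem cut_close (hh : ∀ i, (h i).IsHermitian) (hself : ∀ i, i ∈ nb i)
    (hsymm : ∀ i j, j ∈ nb i → i ∈ nb j)
    (hnb : ∀ i j, j ∉ nb i → Commute (h i) (h j)) (t : ℝ) (m k : ℕ) {δ : ℝ} (hδ0 : 0 ≤ δ)
    (hδ : ∀ A B : Finset I, ‖clF h t B * FE h t (awy nb A B) * EE h t A‖ ≤ δ ^ B.card)
    (hcl : ∀ A : Finset I, ‖clS nb h t m A * EE h t A - 1‖ ≤ 1 / 2)
    (sp : I → Finset V) (cl : ℕ → V → Cl) (K : ℕ) (th : ℕ → ℕ) (Nn : ℕ)
    (S : Finset Cl) (hS : ∀ C : Finset I, C.card ≤ m → NC sp cl C ⊆ S)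
    (hb : ∀ D ∈ Fintype.piFinset (fun _ : Fin (2 ^ k) => smallF nb m (Finset.univ : Finset I)),
      ∀ c ∈ S, cont sp cl D c ≤ Nn)
    {ι : Type} [Fintype ι] (co : ι → ℂ) (z : ι → Cl → ℂ)
    (hrep : ∀ b : Cl → ℕ, (∀ c ∈ S, b c ≤ Nn) →
      (if Allow K cl th b then (1 : ℂ) else 0) = 1 + ∑ i, co i * ∏ c ∈ S, z i c ^ b c)
    (w : Cl → ℝ)
    (hη : ∀ i, ∑ C ∈ (Finset.univ : Finset (Finset I)).filter
        (fun C => ConnF nb C ∧ C.card ≤ m), ‖zet sp cl (z i) C - 1‖ * δ ^ C.card ≤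
        ∑ c ∈ S.filter (fun c => z i c ≠ 1), w c)
    (W : ℝ) (hW : ∑ i, ‖co i‖ * Real.exp (2 ^ k * ∑ c ∈ S.filter (fun c => z i c ≠ 1), w c) ≤ W) :
    √(hsq (cutG nb sp cl K th h t m (2 ^ k) - (clS nb h t m Finset.univ) ^ (2 ^ k))) ≤
      4 ^ (2 ^ k) * W * √(hsq ((clS nb h t m Finset.univ) ^ (2 ^ k))) := by
  rw [cut_eq h sp cl K th t m (2 ^ k) Nn S hS hb co z hrep, add_sub_cancel_left]
  obtain ⟨x, hx⟩ : ∃ x : ℝ, x = √(hsq ((clS nb h t m Finset.univ) ^ (2 ^ k))) := ⟨_, rfl⟩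
  have hx0 : 0 ≤ x := by rw [hx]; exact Real.sqrt_nonneg _
  rw [← hx]
  refine (sqrt_hsq_sum_le _ _).trans ?_
  have h1 : ∀ i ∈ (Finset.univ : Finset ι), √(hsq (co i •
      (clW nb h t m (zet sp cl (z i)) Finset.univ) ^ (2 ^ k))) ≤
      4 ^ (2 ^ k) * x * (‖co i‖ *
        Real.exp (2 ^ k * ∑ c ∈ S.filter (fun c => z i c ≠ 1), w c)) := by
    intro i _
    rw [sqrt_hsq_smul]
    have h2 := pow_bound h hh hself hsymm hnb t m k hδ0 hδ hcl (zet sp cl (z i))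
    rw [← hx] at h2
    have h3 : Real.exp (2 ^ k * ∑ C ∈ (Finset.univ : Finset (Finset I)).filter
        (fun C => ConnF nb C ∧ C.card ≤ m), ‖zet sp cl (z i) C - 1‖ * δ ^ C.card) ≤
        Real.exp (2 ^ k * ∑ c ∈ S.filter (fun c => z i c ≠ 1), w c) :=
      Real.exp_le_exp.2 (mul_le_mul_of_nonneg_left (hη i) (by positivity))
    calc ‖co i‖ * √(hsq ((clW nb h t m (zet sp cl (z i)) Finset.univ) ^ (2 ^ k)))
        ≤ ‖co i‖ * (4 ^ (2 ^ k) * Real.exp (2 ^ k * ∑ C ∈ (Finset.univ :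
            Finset (Finset I)).filter (fun C => ConnF nb C ∧ C.card ≤ m),
            ‖zet sp cl (z i) C - 1‖ * δ ^ C.card) * x) :=
          mul_le_mul_of_nonneg_left h2 (norm_nonneg _)
      _ ≤ ‖co i‖ * (4 ^ (2 ^ k) * Real.exp (2 ^ k *
            ∑ c ∈ S.filter (fun c => z i c ≠ 1), w c) * x) := by
          apply mul_le_mul_of_nonneg_left _ (norm_nonneg _)
          apply mul_le_mul_of_nonneg_right _ hx0
          exact mul_le_mul_of_nonneg_left h3 (by positivity)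
      _ = _ := by ring
  refine (Finset.sum_le_sum h1).trans ?_
  rw [← Finset.mul_sum]
  calc 4 ^ (2 ^ k) * x * ∑ i, ‖co i‖ *
        Real.exp (2 ^ k * ∑ c ∈ S.filter (fun c => z i c ≠ 1), w c)
      ≤ 4 ^ (2 ^ k) * x * W := mul_le_mul_of_nonneg_left hW (by positivity)
    _ = _ := by ring

end main

end Pool.Agent.Hhelper17.AM
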