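import Pool.Agent.Hhelper68.CS.Close
import Pool.Agent.Hhelper68.CS.Glue
import Pool.Agent.Hhelper68.CS.Iface

/-!
Amortized cluster sums: definitions and the interface.
-/

set_option autoImplicit false
set_option linter.unusedSectionVars false

open scoped BigOperators
open Matrix

namespace Pool.Agent.Hhelper17.AM

open Pool.Agent.Hhelper68.CS Pool.Agent.Hhelper96.PEPS

section defs

variable {I : Type} [Fintype I] [DecidableEq I] (nb : I → Finset I)
variable {𝔸 : Type} [NormedRing 𝔸] [NormedAlgebra ℂ 𝔸]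

/-- the weighted truncated cluster sum -/
noncomputable def clW (h : I → 𝔸) (t : ℝ) (m : ℕ) (ζ : Finset I → ℂ) (A : Finset I) : 𝔸 :=
  ∑ D ∈ smallF nb m A, (∏ C ∈ D, ζ C) • clF h t (D.biUnion id)

variable {V : Type} [Fintype V] [DecidableEq V] {Cl : Type} [DecidableEq Cl]

/-- the cells met by a cluster, in the level of the cluster -/
def NC (sp : I → Finset V) (cl : ℕ → V → Cl) (C : Finset I) : Finset Cl :=
  (suppC sp C).image (cl (Nat.log 2 C.card))

/-- the content of a cell in a configuration -/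
def cont (sp : I → Finset V) (cl : ℕ → V → Cl) {p : ℕ} (D : Fin p → Finset (Finset I))
    (c : Cl) : ℕ :=
  ∑ j, ∑ C ∈ D j, if c ∈ NC sp cl C then C.card else 0

/-- the allowed contents -/
def Allow (K : ℕ) (cl : ℕ → V → Cl) (th : ℕ → ℕ) (b : Cl → ℕ) : Prop :=
  ∀ u : V, ∀ k ≤ K, ∑ j ∈ Finset.Icc k K, b (cl j u) ≤ th k

/-- the operator of a configuration -/
noncomputable def opW (h : I → 𝔸) (t : ℝ) {p : ℕ} (D : Fin p → Finset (Finset I)) : 𝔸 :=
  (List.ofFn (fun j => clF h t ((D j).biUnion id))).prod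

open Classical in
/-- the sum over the allowed configurations -/
noncomputable def cutG (sp : I → Finset V) (cl : ℕ → V → Cl) (K : ℕ) (th : ℕ → ℕ)
    (h : I → 𝔸) (t : ℝ) (m p : ℕ) : 𝔸 :=
  ∑ D ∈ Fintype.piFinset (fun _ : Fin p => smallF nb m (Finset.univ : Finset I)),
    if Allow K cl th (cont sp cl D) then opW h t D else 0

end defs

section torus

/-- the cell of level `k` of a site of the torus, with side `4 * r * 2 ^ k` -/
def cellT (N r : ℕ) (k : ℕ) (u : Site N) : ℕ × ℕ × ℕ :=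
  (k, u.1.val / (4 * r * 2 ^ k), u.2.val / (4 * r * 2 ^ k))

end torus

/-- The amortized interface: powers of `T Tᴴ`, where `T` is as in `LabNet`, are approximated in the
Hilbert-Schmidt norm by operator networks with `κ ^ (m + q)` labels. -/
def PowNet (d r κ : ℕ) : Prop :=
  ∃ (τ C : ℝ), 0 < τ ∧ 0 ≤ C ∧
    ∀ (N m q : ℕ) [NeZero N], r ≤ N → 3 ≤ m → N * N ≤ 2 ^ m → 1 ≤ q →
    ∀ (R : Finset (ℤ × ℤ)) (a b : ℤ),
    (∀ p ∈ R, a ≤ p.1 ∧ p.1 < a + r ∧ b ≤ p.2 ∧ p.2 < b + r) →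
    ∀ (K : Matrix (R → Fin d) (R → Fin d) ℂ), K.IsHermitian → hsq K ≤ 1 →
    ∃ (q' : ℕ) (T G : Matrix (Site N → Fin d) (Site N → Fin d) ℂ), q ≤ q' ∧ q' < 2 * q ∧
      (∀ φ : (Site N → Fin d) → ℂ,
        Real.exp (-(C * (N : ℝ) ^ 2 / 2 ^ m)) *
            ex (NormedSpace.exp ((-τ) • hamiltonian N R K)) φ ≤ ex (T * Tᴴ) φ ∧
        ex (T * Tᴴ) φ ≤ Real.exp (C * (N : ℝ) ^ 2 / 2 ^ m) *
            ex (NormedSpace.exp ((-τ) • hamiltonian N R K)) φ) ∧
      OpNet (κ ^ (m + q)) G ∧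
      hsq (G - (T * Tᴴ) ^ q') ≤ (1 / 8) ^ m * hsq ((T * Tᴴ) ^ q')

end Pool.Agent.Hhelper17.AM
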