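import Pool.Agent.Hhelper17.AM.Sand5
import Pool.Agent.Hhelper17.AM.Defs
import Pool.Agent.Hhelper96.PEPS.Energy
import Pool.Agent.Hhelper96.UB.Content
import Pool.Agent.Hhelper96.UB.E2M

/-!
Low energy label networks from the amortized interface `PowNet`: for a trial state and from the
partition function.
-/

set_option autoImplicit false
set_option linter.unusedSectionVars false

open scoped BigOperators Topology ComplexOrder
open Matrix

namespace Pool.Agent.Hhelper17.AM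

open Pool.Agent.Hhelper68.CS Pool.Agent.Hhelper96.PEPS

section lattice

variable {d : ℕ}

/-- the size of the Hamiltonian -/
theorem abs_ex_hamiltonian_le {r N : ℕ} [NeZero N] (hrN : r ≤ N) (R : Finset (ℤ × ℤ)) (a b : ℤ)
    (hR : ∀ p ∈ R, a ≤ p.1 ∧ p.1 < a + r ∧ b ≤ p.2 ∧ p.2 < b + r)
    (K : Matrix (R → Fin d) (R → Fin d) ℂ) (hK : hsq K ≤ 1) (φ : (Site N → Fin d) → ℂ) :
    |ex (hamiltonian N R K) φ| ≤ (N : ℝ) ^ 2 * sqn φ := by
  by_cases hφ : φ = 0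
  · have h0 : ex (hamiltonian N R K) (0 : (Site N → Fin d) → ℂ) = 0 := by
      unfold ex
      rw [Matrix.mulVec_zero, dotProduct_zero, Complex.zero_re]
    rw [hφ, h0, abs_zero]
    exact mul_nonneg (by positivity) (sqn_nonneg _)
  · rw [ex_hamiltonian K hφ, abs_mul, abs_of_nonneg (sqn_nonneg φ), mul_comm]
    refine mul_le_mul_of_nonneg_right ?_ (sqn_nonneg φ)
    refine (Finset.abs_sum_le_sum_abs _ _).trans ?_
    have h1 : ∀ v ∈ (Finset.univ : Finset (Site N)), |enf K (reduced N R v φ)| ≤ 1 := by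
      intro v _
      have h2 := posSemidef_reduced hrN R a b hR v hφ
      exact abs_enf_le K _ hK h2.1 h2.2
    refine (Finset.sum_le_sum h1).trans (le_of_eq ?_)
    have h4 : (Fintype.card (Site N) : ℝ) = (N : ℝ) ^ 2 := by
      rw [Fintype.card_prod, ZMod.card]
      push_cast
      ring
    simp only [Finset.sum_const, Finset.card_univ, nsmul_eq_mul, mul_one]
    exact h4

/-- the bound of the free energy is decreasing in the inverse temperature -/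
theorem free_mono {ι : Type} [Fintype ι] (Δ : ι → ℝ) (h0 : ∀ j, 0 ≤ Δ j) (h1 : ∃ j, Δ j = 0)
    {x y : ℝ} (hx : 0 < x) (hxy : x ≤ y) :
    Real.log (∑ j, Real.exp (-y * Δ j)) / y ≤ Real.log (∑ j, Real.exp (-x * Δ j)) / x := by
  obtain ⟨j0, hj0⟩ := h1
  have hy : 0 < y := lt_of_lt_of_le hx hxy
  have hone : ∀ z : ℝ, 1 ≤ ∑ j, Real.exp (-z * Δ j) := by
    intro z
    have h2 : Real.exp (-z * Δ j0) ≤ ∑ j, Real.exp (-z * Δ j) :=
      Finset.single_le_sum (f := fun j => Real.exp (-z * Δ j)) (fun j _ => (Real.exp_pos _).le)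
        (Finset.mem_univ j0)
    rw [hj0, mul_zero, Real.exp_zero] at h2
    exact h2
  have hle : ∑ j, Real.exp (-y * Δ j) ≤ ∑ j, Real.exp (-x * Δ j) := by
    refine Finset.sum_le_sum (fun j _ => Real.exp_le_exp.2 ?_)
    have := mul_le_mul_of_nonneg_right hxy (h0 j)
    linarith
  have hlog : Real.log (∑ j, Real.exp (-y * Δ j)) ≤ Real.log (∑ j, Real.exp (-x * Δ j)) :=
    Real.log_le_log (lt_of_lt_of_le one_pos (hone y)) hle
  have hlog0 : 0 ≤ Real.log (∑ j, Real.exp (-x * Δ j)) := Real.log_nonneg (hone x)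
  calc Real.log (∑ j, Real.exp (-y * Δ j)) / y ≤ Real.log (∑ j, Real.exp (-x * Δ j)) / y :=
        div_le_div_of_nonneg_right hlog hy.le
    _ ≤ _ := div_le_div_of_nonneg_left hlog0 hx hxy

open Classical in
/-- Low energy label networks from the partition function, amortized. -/
theorem thermal_content5 (r κ : ℕ) (hr : 1 ≤ r) (hd : 1 ≤ d) (hE : PowNet d r κ) :
    ∃ (τ C : ℝ), 0 < τ ∧ 0 ≤ C ∧
      ∀ (N m : ℕ) [NeZero N], r ≤ N → 3 ≤ m → N * N ≤ 2 ^ m →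
      ∀ (W : Finset (ℤ × ℤ)) (a b : ℤ),
      (∀ p ∈ W, a ≤ p.1 ∧ p.1 < a + r ∧ b ≤ p.2 ∧ p.2 < b + r) →
      ∀ (g : Matrix (W → Fin d) (W → Fin d) ℂ) (hg : g.IsHermitian) (c : ℝ), 1 ≤ c →
      hsq (((c⁻¹ : ℝ) : ℂ) • g) ≤ 1 → ∀ (q : ℕ), 1 ≤ q → ∀ E₀ : ℝ,
      (∃ j, (hamiltonian_isHermitian (L := N) hg).eigenvalues j = E₀) →
      (∀ j, E₀ ≤ (hamiltonian_isHermitian (L := N) hg).eigenvalues j) →
      ∃ Wt : Site N → Fin d → Fin (κ ^ (m + q)) → Fin (κ ^ (m + q)) → Fin (κ ^ (m + q)) → ℂ,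
        netT Wt ≠ 0 ∧
        ex (hamiltonian N W g) (netT Wt) / sqn (netT Wt) ≤ E₀ + C * c * (N : ℝ) ^ 2 / 2 ^ m +
          Real.log (∑ j, Real.exp (-(q * τ / c) *
            ((hamiltonian_isHermitian (L := N) hg).eigenvalues j - E₀))) / (q * τ / c) := by
  have _ := hr
  obtain ⟨τ, C, hτ, hC, hE⟩ := hE
  refine ⟨τ, 4 * C / τ + 8, hτ, by positivity, ?_⟩
  intro N m _ hrN hm hNm W a b hW g hg c hc hK1 q hq E₀ hE₀ hmin
  have hc0 : 0 < c := by linarith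
  have hK : (((c⁻¹ : ℝ) : ℂ) • g).IsHermitian := by
    unfold Matrix.IsHermitian
    rw [Matrix.conjTranspose_smul, hg.eq, Complex.star_def, Complex.conj_ofReal]
  have hsum : hamiltonian N W (((c⁻¹ : ℝ) : ℂ) • g) = ((c⁻¹ : ℝ) : ℂ) • hamiltonian N W g := by
    unfold hamiltonian
    rw [Finset.smul_sum]
    refine Finset.sum_congr rfl (fun v _ => ?_)
    rw [localTerm_eq_opAt, localTerm_eq_opAt, opAt_smul]
  have hreal : ∀ (x : ℝ) (A : Matrix (Site N → Fin d) (Site N → Fin d) ℂ),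
      x • A = ((x : ℝ) : ℂ) • A := by
    intro x A
    ext i j
    simp [Matrix.smul_apply]
  have hexp : (-τ) • hamiltonian N W (((c⁻¹ : ℝ) : ℂ) • g) =
      (-(τ / c)) • hamiltonian N W g := by
    rw [hsum, hreal, hreal, smul_smul]
    congr 1
    push_cast
    field_simp
  have hne : Nonempty (Site N → Fin d) := ⟨fun _ => ⟨0, hd⟩⟩
  have hB : ∀ φ : (Site N → Fin d) → ℂ, |ex (hamiltonian N W g) φ| ≤ (c * (N : ℝ) ^ 2) * sqn φ := by
    intro φ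
    have h1 := abs_ex_hamiltonian_le hrN W a b hW (((c⁻¹ : ℝ) : ℂ) • g) hK1 φ
    rw [hsum, ex_smul, abs_mul, abs_of_pos (inv_pos.2 hc0), inv_mul_le_iff₀ hc0] at h1
    linarith
  obtain ⟨q', T, G, hqq', -, hsand, hnet, hG⟩ := hE N m q hrN hm hNm hq W a b hW
    (((c⁻¹ : ℝ) : ℂ) • g) hK hK1
  rw [hexp] at hsand
  obtain ⟨x, hx0, hx⟩ := thermal_of_sandwich5 (hamiltonian_isHermitian (L := N) hg)
    (s := τ / c) (by positivity) hsand hB (by positivity) q' (hq.trans hqq') m hm hG E₀ hE₀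
  obtain ⟨Wt, hWt⟩ := hnet.netT x
  refine ⟨Wt, by rw [hWt]; exact hx0, ?_⟩
  rw [hWt]
  have hq0 : (0 : ℝ) < q := by exact_mod_cast hq
  have hqq : (q : ℝ) ≤ q' := by exact_mod_cast hqq'
  have hmono := free_mono
    (fun j => (hamiltonian_isHermitian (L := N) hg).eigenvalues j - E₀)
    (fun j => sub_nonneg.2 (hmin j)) (by
      obtain ⟨j, hj⟩ := hE₀
      exact ⟨j, sub_eq_zero.2 hj⟩)
    (x := q * τ / c) (y := q' * τ / c) (by positivity)
    (div_le_div_of_nonneg_right (mul_le_mul_of_nonneg_right hqq hτ.le) hc0.le)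
  have e1 : (q' : ℝ) * (τ / c) = q' * τ / c := by ring
  have e2 : 4 * (C * (N : ℝ) ^ 2 / 2 ^ m) / (τ / c) + 8 * (c * (N : ℝ) ^ 2) / 2 ^ m =
      (4 * C / τ + 8) * c * (N : ℝ) ^ 2 / 2 ^ m := by
    field_simp
  rw [e1] at hx
  rw [← e2]
  linarith

open Classical in
/-- Low energy label networks from a trial state, amortized. -/
theorem low_content5 (r κ : ℕ) (hr : 1 ≤ r) (hd : 1 ≤ d) (hE : PowNet d r κ) :
    ∃ (τ C : ℝ), 0 < τ ∧ 0 ≤ C ∧
      ∀ (N m : ℕ) [NeZero N], r ≤ N → 3 ≤ m → N * N ≤ 2 ^ m →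
      ∀ (R : Finset (ℤ × ℤ)) (a b : ℤ),
      (∀ p ∈ R, a ≤ p.1 ∧ p.1 < a + r ∧ b ≤ p.2 ∧ p.2 < b + r) →
      ∀ (K : Matrix (R → Fin d) (R → Fin d) ℂ), K.IsHermitian → hsq K ≤ 1 →
      ∀ (q : ℕ), 1 ≤ q →
      ∀ (L : ℕ) [NeZero L], N ≤ L → ∀ (ψ : (Site L → Fin d) → ℂ), ψ ≠ 0 →
      ∀ (ρ : Matrix (R → Fin d) (R → Fin d) ℂ), (∀ v, reduced L R v ψ = ρ) →
      ∃ W : Site N → Fin d → Fin (κ ^ (m + q)) → Fin (κ ^ (m + q)) → Fin (κ ^ (m + q)) → ℂ,
        netT W ≠ 0 ∧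
        ∑ v, enf K (reduced N R v (netT W)) ≤ (N : ℝ) ^ 2 * enf K ρ + 4 * r * N +
          C * (N : ℝ) ^ 2 / 2 ^ m + (N : ℝ) ^ 2 * Real.log d / (2 * q * τ) := by
  obtain ⟨τ, C, hτ, hC, hE⟩ := hE
  refine ⟨τ, 2 * C / τ + 8, hτ, by positivity, ?_⟩
  intro N m _ hrN' hm3 hNm R a b hR K hK hK1 q hq L _ hNL ψ hψ ρ hρ
  -- trial vector
  obtain ⟨ψ', hψ', htrial⟩ := exists_trial hr hrN' hNL R a b hR K
    (fun X hX hX1 => abs_enf_le K X hK1 hX hX1) ψ hψ ρ hρ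
  have hne : Nonempty (Site N → Fin d) := ⟨fun _ => ⟨0, hd⟩⟩
  obtain ⟨q', T, G, hqq', -, hsand, hnet, hG⟩ := hE N m q hrN' hm3 hNm hq R a b hR K hK hK1
  have hH : (hamiltonian N R K).IsHermitian := hamiltonian_isHermitian hK
  have hB : ∀ φ : (Site N → Fin d) → ℂ, |ex (hamiltonian N R K) φ| ≤ ((N : ℝ) ^ 2) * sqn φ :=
    fun φ => abs_ex_hamiltonian_le hrN' R a b hR K hK1 φ
  obtain ⟨x, hx0, hx⟩ := energy_of_sandwich5 hH hτ hsand hB (by positivity) q' (hq.trans hqq') m hm3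
    hG ψ' hψ'
  obtain ⟨W, hW⟩ := hnet.netT x
  obtain ⟨φ, hφ⟩ : ∃ φ, φ = G.mulVec (Pi.single x 1) := ⟨_, rfl⟩
  rw [← hφ] at hx0 hx hW
  refine ⟨W, by rw [hW]; exact hx0, ?_⟩
  rw [hW]
  have hpos : 0 < sqn φ := sqn_pos hx0
  have hpos' : 0 < sqn ψ' := sqn_pos hψ'
  have h1 : ex (hamiltonian N R K) φ = sqn φ * ∑ v, enf K (reduced N R v φ) := by
    unfold hamiltonian
    rw [ex_sum, Finset.mul_sum]
    exact Finset.sum_congr rfl (fun v _ => ex_localTerm R K v hx0)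
  have h2 : ex (hamiltonian N R K) φ / sqn φ = ∑ v, enf K (reduced N R v φ) := by
    rw [h1]; field_simp
  have h3 : ex (hamiltonian N R K) ψ' / sqn ψ' ≤ (N : ℝ) ^ 2 * enf K ρ + 4 * r * N := by
    rw [div_le_iff₀ hpos']
    exact htrial
  have h4 : (Fintype.card (Site N) : ℝ) = (N : ℝ) ^ 2 := by
    rw [Fintype.card_prod, ZMod.card]
    push_cast
    ring
  have h5 : Real.log (Fintype.card (Site N → Fin d)) = (N : ℝ) ^ 2 * Real.log d := by
    rw [Fintype.card_fun, Fintype.card_fin]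
    push_cast
    rw [Real.log_pow, h4]
  rw [h2, h5] at hx
  have hq0 : (0 : ℝ) < q := by exact_mod_cast hq
  have hqq : (q : ℝ) ≤ q' := by exact_mod_cast hqq'
  have hlogd : 0 ≤ Real.log d := Real.log_nonneg (by exact_mod_cast hd)
  have h7 : (N : ℝ) ^ 2 * Real.log d / (2 * q' * τ) ≤ (N : ℝ) ^ 2 * Real.log d / (2 * q * τ) := by
    refine div_le_div_of_nonneg_left (by positivity) (by positivity) ?_
    exact mul_le_mul_of_nonneg_right (by linarith) hτ.le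
  have h6 : 2 * (C * (N : ℝ) ^ 2 / 2 ^ m) / τ + 8 * (N : ℝ) ^ 2 / 2 ^ m =
      (2 * C / τ + 8) * (N : ℝ) ^ 2 / 2 ^ m := by
    field_simp
  rw [← h6]
  linarith

end lattice

end Pool.Agent.Hhelper17.AM
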