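import Pool.Agent.Hhelper17.AM.Weight

/-!
The sum over the allowed configurations, as a combination of powers of weighted cluster sums.
-/

set_option autoImplicit false
set_option linter.unusedSectionVars false

open scoped BigOperators

namespace Pool.Agent.Hhelper17.AM

open Pool.Agent.Hhelper68.CS

section powsum

variable {α : Type} {𝔸 : Type} [Ring 𝔸] [Algebra ℂ 𝔸]

/-- the power of a sum -/
theorem pow_sum [DecidableEq α] (F : Finset α) (f : α → 𝔸) : ∀ p : ℕ,
    (∑ D ∈ F, f D) ^ p = ∑ D ∈ Fintype.piFinset (fun _ : Fin p => F),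
      (List.ofFn (fun j => f (D j))).prod := by
  intro p
  induction p with
  | zero =>
    rw [pow_zero, Fintype.piFinset_of_isEmpty]
    simp
  | succ p ih =>
    rw [pow_succ', ih, Finset.sum_mul_sum, ← Finset.sum_product']
    refine Finset.sum_bij' (fun x _ => Fin.cons x.1 x.2) (fun D _ => (D 0, Fin.tail D))
      ?_ ?_ ?_ ?_ ?_
    · intro x hx
      rw [Finset.mem_product, Fintype.mem_piFinset] at hx
      rw [Fintype.mem_piFinset]
      intro j
      refine Fin.cases ?_ ?_ j
      · simpa using hx.1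
      · intro i
        simpa using hx.2 i
    · intro D hD
      rw [Fintype.mem_piFinset] at hD
      rw [Finset.mem_product, Fintype.mem_piFinset]
      exact ⟨hD 0, fun j => hD j.succ⟩
    · intro x _
      refine Prod.ext ?_ ?_
      · simp
      · simp
    · intro D _
      exact Fin.cons_self_tail D
    · intro x _
      rw [List.ofFn_succ, List.prod_cons]
      simp

/-- scalars in a product -/
theorem prod_smul (w : α → ℂ) (g : α → 𝔸) : ∀ (p : ℕ) (D : Fin p → α),
    (List.ofFn (fun j => w (D j) • g (D j))).prod =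
      (∏ j, w (D j)) • (List.ofFn (fun j => g (D j))).prod := by
  intro p
  induction p with
  | zero =>
    intro D
    simp
  | succ p ih =>
    intro D
    rw [List.ofFn_succ, List.prod_cons, ih (fun j => D j.succ), List.ofFn_succ, List.prod_cons,
      Fin.prod_univ_succ, smul_mul_smul_comm]

end powsum

section cut

variable {I : Type} [Fintype I] [DecidableEq I] {nb : I → Finset I}
variable {𝔸 : Type} [NormedRing 𝔸] [NormedAlgebra ℂ 𝔸] [CompleteSpace 𝔸] (h : I → 𝔸)
variable {V : Type} [Fintype V] [DecidableEq V] {Cl : Type} [DecidableEq Cl]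

theorem clW_pow (t : ℝ) (m p : ℕ) (ζ : Finset I → ℂ) :
    (clW nb h t m ζ Finset.univ) ^ p =
      ∑ D ∈ Fintype.piFinset (fun _ : Fin p => smallF nb m (Finset.univ : Finset I)),
        (∏ j, ∏ C ∈ D j, ζ C) • opW h t D := by
  unfold clW
  rw [pow_sum]
  refine Finset.sum_congr rfl (fun D _ => ?_)
  exact prod_smul (fun D => ∏ C ∈ D, ζ C) (fun D => clF h t (D.biUnion id)) p D

theorem clS_pow (t : ℝ) (m p : ℕ) :
    (clS nb h t m Finset.univ) ^ p =
      ∑ D ∈ Fintype.piFinset (fun _ : Fin p => smallF nb m (Finset.univ : Finset I)),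
        opW h t D := by
  rw [clS_def, pow_sum]
  rfl

/-- the weights of the clusters from the weights of the cells -/
noncomputable def zet (sp : I → Finset V) (cl : ℕ → V → Cl) (z : Cl → ℂ) (C : Finset I) : ℂ :=
  ∏ c ∈ NC sp cl C, z c ^ C.card

theorem zet_prod (sp : I → Finset V) (cl : ℕ → V → Cl) (z : Cl → ℂ) (S : Finset Cl)
    {p : ℕ} (D : Fin p → Finset (Finset I)) (hS : ∀ j, ∀ C ∈ D j, NC sp cl C ⊆ S) :
    ∏ j, ∏ C ∈ D j, zet sp cl z C = ∏ c ∈ S, z c ^ cont sp cl D c := by
  have h1 : ∀ j, ∀ C ∈ D j, zet sp cl z C =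
      ∏ c ∈ S, z c ^ (if c ∈ NC sp cl C then C.card else 0) := by
    intro j C hC
    unfold zet
    rw [← Finset.prod_subset (hS j C hC) (fun c _ hc => by rw [if_neg hc, pow_zero])]
    exact Finset.prod_congr rfl (fun c hc => by rw [if_pos hc])
  calc ∏ j, ∏ C ∈ D j, zet sp cl z C
      = ∏ j, ∏ C ∈ D j, ∏ c ∈ S, z c ^ (if c ∈ NC sp cl C then C.card else 0) :=
        Finset.prod_congr rfl (fun j _ => Finset.prod_congr rfl (fun C hC => h1 j C hC))
    _ = ∏ j, ∏ c ∈ S, ∏ C ∈ D j, z c ^ (if c ∈ NC sp cl C then C.card else 0) :=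
        Finset.prod_congr rfl (fun j _ => Finset.prod_comm)
    _ = ∏ c ∈ S, ∏ j, ∏ C ∈ D j, z c ^ (if c ∈ NC sp cl C then C.card else 0) :=
        Finset.prod_comm
    _ = ∏ c ∈ S, z c ^ cont sp cl D c := by
        refine Finset.prod_congr rfl (fun c _ => ?_)
        unfold cont
        rw [← Finset.prod_pow_eq_pow_sum]
        refine Finset.prod_congr rfl (fun j _ => ?_)
        rw [← Finset.prod_pow_eq_pow_sum]

open Classical in
/-- **the allowed configurations** -/
theorem cut_eq (sp : I → Finset V) (cl : ℕ → V → Cl) (K : ℕ) (th : ℕ → ℕ) (t : ℝ) (m p Nn : ℕ)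
    (S : Finset Cl) (hS : ∀ C : Finset I, C.card ≤ m → NC sp cl C ⊆ S)
    (hb : ∀ D ∈ Fintype.piFinset (fun _ : Fin p => smallF nb m (Finset.univ : Finset I)),
      ∀ c ∈ S, cont sp cl D c ≤ Nn)
    {ι : Type} [Fintype ι] (co : ι → ℂ) (z : ι → Cl → ℂ)
    (hrep : ∀ b : Cl → ℕ, (∀ c ∈ S, b c ≤ Nn) →
      (if Allow K cl th b then (1 : ℂ) else 0) = 1 + ∑ i, co i * ∏ c ∈ S, z i c ^ b c) :
    cutG nb sp cl K th h t m p = (clS nb h t m Finset.univ) ^ p +
      ∑ i, co i • (clW nb h t m (zet sp cl (z i)) Finset.univ) ^ p := by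
  have h1 : ∀ D ∈ Fintype.piFinset (fun _ : Fin p => smallF nb m (Finset.univ : Finset I)),
      (if Allow K cl th (cont sp cl D) then opW h t D else 0) =
        opW h t D + ∑ i, co i • ((∏ j, ∏ C ∈ D j, zet sp cl (z i) C) • opW h t D) := by
    intro D hD
    have h2 := hrep (cont sp cl D) (hb D hD)
    have h3 : (if Allow K cl th (cont sp cl D) then opW h t D else 0) =
        (if Allow K cl th (cont sp cl D) then (1 : ℂ) else 0) • opW h t D := by
      split_ifs <;> simp
    rw [h3, h2, add_smul, one_smul, Finset.sum_smul]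
    congr 1
    refine Finset.sum_congr rfl (fun i _ => ?_)
    rw [zet_prod sp cl (z i) S D, mul_smul]
    intro j C hC
    rw [Fintype.mem_piFinset] at hD
    have h4 := hD j
    rw [mem_smallF] at h4
    exact hS C (h4.2.2 C hC)
  have h5 : cutG nb sp cl K th h t m p =
      ∑ D ∈ Fintype.piFinset (fun _ : Fin p => smallF nb m (Finset.univ : Finset I)),
        (if Allow K cl th (cont sp cl D) then opW h t D else 0) := by
    unfold cutG
    refine Finset.sum_congr rfl (fun D _ => ?_)
    congr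
  rw [h5, Finset.sum_congr rfl h1, Finset.sum_add_distrib, clS_pow, Finset.sum_comm]
  congr 1
  refine Finset.sum_congr rfl (fun i _ => ?_)
  rw [clW_pow, Finset.smul_sum]

end cut

end Pool.Agent.Hhelper17.AM
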