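import Mathlib

/-!
# The thresholds (package N)

`K = log2 m`, `th k = 3 m + 4 p + 2 + ∑ j ∈ [k, K), (L + 2 p / 2 ^ j + 1)`, `L = log2 (m + p) + 11`; `th 0 ≤ 23 (m + p)`.
-/

set_option autoImplicit false

open scoped BigOperators

namespace Pool.Agent.Hhelper17.AM

theorem sq_le_two_pow (K : ℕ) : K ^ 2 ≤ 2 * 2 ^ K := by
  induction K with
  | zero => norm_num
  | succ K ih =>
    rcases Nat.lt_or_ge K 3 with h | h
    · interval_cases K <;> norm_num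
    · have h1 : (K + 1) ^ 2 ≤ 2 * K ^ 2 := by nlinarith
      calc (K + 1) ^ 2 ≤ 2 * K ^ 2 := h1
        _ ≤ 2 * (2 * 2 ^ K) := Nat.mul_le_mul_left 2 ih
        _ = 2 * 2 ^ (K + 1) := by rw [pow_succ]; ring

/-- The thresholds. -/
def thr (m p L k : ℕ) : ℕ :=
  3 * m + 4 * p + 2 + ∑ j ∈ Finset.Ico k (Nat.log 2 m), (L + (2 * p) / 2 ^ j + 1)

theorem thr_anti (m p L : ℕ) : Antitone (thr m p L) := by
  intro k l hkl
  unfold thr
  refine Nat.add_le_add_left (Finset.sum_le_sum_of_subset ?_) _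
  exact Finset.Ico_subset_Ico_left hkl

theorem thr_step (m p L : ℕ) {k : ℕ} (hk : k < Nat.log 2 m) :
    thr m p L k - thr m p L (k + 1) = L + (2 * p) / 2 ^ k + 1 := by
  unfold thr
  rw [Finset.sum_eq_sum_Ico_succ_bot hk]
  generalize (2 * p) / 2 ^ k = a
  omega

theorem thr_last (m p L : ℕ) : thr m p L (Nat.log 2 m) = 3 * m + 4 * p + 2 := by
  unfold thr
  rw [Finset.Ico_self, Finset.sum_empty, add_zero]

theorem sum_div_le (a K : ℕ) : ∑ j ∈ Finset.range K, a / 2 ^ j ≤ 2 * a := by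
  have h1 : ∀ K : ℕ, ∑ j ∈ Finset.range K, a / 2 ^ j + 2 * (a / 2 ^ K) ≤ 2 * a := by
    intro K
    induction K with
    | zero => simp
    | succ K ih =>
      rw [Finset.sum_range_succ, pow_succ, ← Nat.div_div_eq_div_mul]
      generalize a / 2 ^ K = b at ih ⊢
      omega
  exact (Nat.le_add_right _ _).trans (h1 K)

theorem thr_zero_le {m p : ℕ} (hm : 3 ≤ m) (hp : 1 ≤ p) :
    thr m p (Nat.log 2 (m + p) + 11) 0 ≤ 23 * (m + p) := by
  unfold thr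
  set K := Nat.log 2 m with hK
  set K' := Nat.log 2 (m + p) with hK'
  have h1 : K ≤ K' := Nat.log_mono_right (Nat.le_add_right m p)
  have h2 : 2 ^ K' ≤ m + p := Nat.pow_log_le_self 2 (by omega)
  have h3 : K' ≤ m + p := (Nat.lt_two_pow_self).le.trans h2
  have h4 : K' ^ 2 ≤ 2 * (m + p) := (sq_le_two_pow K').trans (Nat.mul_le_mul_left 2 h2)
  rw [← Finset.range_eq_Ico, Finset.sum_add_distrib, Finset.sum_add_distrib, Finset.sum_const, Finset.sum_const,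
    Finset.card_range, smul_eq_mul, smul_eq_mul, mul_one]
  have h5 := sum_div_le (2 * p) K
  have h6 : K * (K' + 11) ≤ K' ^ 2 + 11 * K' := by nlinarith
  have h7 : K + 11 * K' ≤ 12 * K' := by omega
  nlinarith

theorem exp_half_le : Real.exp (1 / 2) ≤ 2 := by
  have h1 : Real.exp (1 / 2) * Real.exp (1 / 2) ≤ 2 * 2 := by
    rw [← Real.exp_add]
    have := Real.exp_one_lt_d9
    norm_num
    linarith
  nlinarith [Real.exp_pos (1 / 2 : ℝ)]

/-- `exp (p / 2 ^ k) ≤ 2 ^ (2 p / 2 ^ k + 1)`. -/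
theorem exp_div_le (p k : ℕ) : Real.exp ((p : ℝ) * (1 / 2) ^ k) ≤ 2 ^ ((2 * p) / 2 ^ k + 1) := by
  set a := (2 * p) / 2 ^ k with ha
  have h1 : 2 * p < 2 ^ k * (a + 1) := Nat.lt_mul_div_succ (2 * p) (by positivity)
  have h2 : (p : ℝ) * (1 / 2) ^ k ≤ ((a + 1 : ℕ) : ℝ) * (1 / 2) := by
    have h3 : (2 * (p : ℝ)) ≤ 2 ^ k * ((a + 1 : ℕ) : ℝ) := by exact_mod_cast h1.le
    rw [one_div, inv_pow, ← div_eq_mul_inv, div_le_iff₀ (by positivity)]
    linarith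
  calc Real.exp ((p : ℝ) * (1 / 2) ^ k) ≤ Real.exp (((a + 1 : ℕ) : ℝ) * (1 / 2)) := Real.exp_le_exp.mpr h2
    _ = Real.exp (1 / 2) ^ (a + 1) := by rw [← Real.exp_nat_mul]
    _ ≤ 2 ^ (a + 1) := pow_le_pow_left₀ (Real.exp_pos _).le exp_half_le _

theorem exp_le_four_pow (p : ℕ) (K : ℕ) : Real.exp ((p : ℝ) * (1 / 2) ^ K) ≤ 4 ^ p := by
  have h1 : (p : ℝ) * (1 / 2) ^ K ≤ p * 1 := by
    apply mul_le_mul_of_nonneg_left _ (Nat.cast_nonneg p)
    exact pow_le_one₀ (by norm_num) (by norm_num)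
  calc Real.exp ((p : ℝ) * (1 / 2) ^ K) ≤ Real.exp (p * 1) := Real.exp_le_exp.mpr h1
    _ = Real.exp 1 ^ p := by rw [← Real.exp_nat_mul]
    _ ≤ 4 ^ p := by
      apply pow_le_pow_left₀ (Real.exp_pos _).le
      have := Real.exp_one_lt_d9
      linarith

theorem one_add_pow_le {x : ℝ} (hx : 0 ≤ x) (M : ℕ) (hM : M * x ≤ 1) : (1 + x) ^ M - 1 ≤ 2 * (M * x) := by
  have h0 : 0 ≤ M * x := by positivity
  have h1 : (1 + x) ^ M ≤ Real.exp (M * x) := by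
    rw [Real.exp_nat_mul]
    apply pow_le_pow_left₀ (by linarith)
    have := Real.add_one_le_exp x
    linarith
  have h2 := Real.abs_exp_sub_one_le (x := M * x) (by rw [abs_of_nonneg h0]; exact hM)
  rw [abs_of_nonneg h0] at h2
  have h3 := le_abs_self (Real.exp (M * x) - 1)
  linarith

theorem thresholds : ∃ c₁ : ℕ, ∀ m p : ℕ, 3 ≤ m → 1 ≤ p → ∃ th : ℕ → ℕ, Antitone th ∧ th 0 ≤ c₁ * (m + p) ∧
    (∀ k < Nat.log 2 m, 30 * ((th 0 : ℝ) + 1) * Real.exp ((p : ℝ) * (1 / 2) ^ k) ≤ 2 ^ (th k - th (k + 1))) ∧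
    (∀ M : ℕ, M ≤ 2 ^ m → 4 ^ p * ((1 + 2 * Real.exp ((p : ℝ) * (1 / 2) ^ (Nat.log 2 m)) *
      (1 / 2) ^ (th (Nat.log 2 m))) ^ M - 1) ≤ ((1 / 4) ^ m : ℝ)) := by
  refine ⟨23, fun m p hm hp => ⟨thr m p (Nat.log 2 (m + p) + 11), thr_anti _ _ _, thr_zero_le hm hp, ?_, ?_⟩⟩
  · intro k hk
    rw [thr_step _ _ _ hk]
    have h1 := thr_zero_le hm hp
    set T := thr m p (Nat.log 2 (m + p) + 11) 0
    have h2 : m + p < 2 ^ (Nat.log 2 (m + p) + 1) := Nat.lt_pow_succ_log_self (by norm_num) _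
    have h3 : 30 * (T + 1) ≤ 2 ^ (Nat.log 2 (m + p) + 11) := by
      have h4 : 2 ^ (Nat.log 2 (m + p) + 11) = 1024 * 2 ^ (Nat.log 2 (m + p) + 1) := by
        rw [show Nat.log 2 (m + p) + 11 = 10 + (Nat.log 2 (m + p) + 1) by ring, pow_add]
        norm_num
      rw [h4]
      omega
    have h5 : (30 * ((T : ℝ) + 1)) ≤ 2 ^ (Nat.log 2 (m + p) + 11) := by exact_mod_cast h3
    have h6 := exp_div_le p k
    rw [add_assoc, pow_add]
    exact mul_le_mul h5 h6 (Real.exp_pos _).le (by positivity)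
  · intro M hM
    rw [thr_last]
    set y := Real.exp ((p : ℝ) * (1 / 2) ^ (Nat.log 2 m)) with hy
    have hy0 : 0 < y := Real.exp_pos _
    have hy1 : y ≤ 4 ^ p := exp_le_four_pow p _
    have hM' : (M : ℝ) ≤ 2 ^ m := by exact_mod_cast hM
    have h2 : (1 / 2 : ℝ) ^ (3 * m + 4 * p + 2) = (1 / 2) ^ m * (1 / 4) ^ m * ((1 / 4) ^ p * (1 / 4) ^ p) * (1 / 4) := by
      rw [show 3 * m + 4 * p + 2 = m + 2 * m + (2 * p + 2 * p) + 2 by ring, pow_add, pow_add, pow_add, pow_add,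
        pow_mul, pow_mul]
      norm_num
    have e1 : (2 : ℝ) ^ m * (1 / 2) ^ m = 1 := by rw [← mul_pow]; norm_num
    have e2 : (4 : ℝ) ^ p * (1 / 4) ^ p = 1 := by rw [← mul_pow]; norm_num
    have h3 : (M : ℝ) * (2 * y * (1 / 2) ^ (3 * m + 4 * p + 2)) ≤ (1 / 4) ^ m * (1 / 4) ^ p * (1 / 2) := by
      calc (M : ℝ) * (2 * y * (1 / 2) ^ (3 * m + 4 * p + 2))
          ≤ 2 ^ m * (2 * 4 ^ p * (1 / 2) ^ (3 * m + 4 * p + 2)) := by gcongr
        _ = (2 ^ m * (1 / 2) ^ m) * (4 ^ p * (1 / 4) ^ p) * ((1 / 4) ^ m * (1 / 4) ^ p * (1 / 2)) := by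
            rw [h2]; ring
        _ = _ := by rw [e1, e2, one_mul, one_mul]
    have h4 : (1 / 4 : ℝ) ^ m ≤ 1 := pow_le_one₀ (by norm_num) (by norm_num)
    have h5 : (1 / 4 : ℝ) ^ p ≤ 1 := pow_le_one₀ (by norm_num) (by norm_num)
    have h6 : (M : ℝ) * (2 * y * (1 / 2) ^ (3 * m + 4 * p + 2)) ≤ 1 := by
      refine h3.trans ?_
      have h7 : (1 / 4 : ℝ) ^ m * (1 / 4) ^ p ≤ 1 := mul_le_one₀ h4 (by positivity) h5
      linarith
    have h8 := one_add_pow_le (x := 2 * y * (1 / 2) ^ (3 * m + 4 * p + 2)) (by positivity) M h6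
    calc 4 ^ p * ((1 + 2 * y * (1 / 2) ^ (3 * m + 4 * p + 2)) ^ M - 1)
        ≤ 4 ^ p * (2 * ((1 / 4) ^ m * (1 / 4) ^ p * (1 / 2))) := by
          apply mul_le_mul_of_nonneg_left _ (by positivity)
          linarith
      _ = (4 ^ p * (1 / 4) ^ p) * (1 / 4) ^ m := by ring
      _ = (1 / 4) ^ m := by rw [e2, one_mul]

end Pool.Agent.Hhelper17.AM
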