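import Pool.Agent.Hhelper17.AM.Defs

/-!
# A tree of thresholds as one plus a small combination of products of powers
-/

open Finset

namespace Pool.Agent.Hhelper17.AM

section Rep

variable {N : Type} [DecidableEq N]

/-- `f` is, for `b <= B` on `S`, a finite combination of products of powers `z c ^ b c`
with `z c = 1` or `|z c| = 2`, of total cost at most `t`. -/
def Rep (w : N → ℝ) (B : ℕ) (S : Finset N) (f : (N → ℕ) → ℂ) (t : ℝ) : Prop :=
  ∃ (ι : Type) (_ : Fintype ι) (coef : ι → ℂ) (z : ι → N → ℂ),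
    (∀ i c, z i c = 1 ∨ ‖z i c‖ = 2) ∧ (∀ i c, c ∉ S → z i c = 1) ∧
    (∀ b : N → ℕ, (∀ c ∈ S, b c ≤ B) → f b = ∑ i, coef i * ∏ c ∈ S, z i c ^ b c) ∧
    ∑ i, ‖coef i‖ * ∏ c ∈ S, (if z i c = 1 then 1 else Real.exp (w c)) ≤ t

variable {w : N → ℝ} {B : ℕ} {S T : Finset N} {f g : (N → ℕ) → ℂ} {s t : ℝ}

lemma Rep.mono (h : Rep w B S f s) (hst : s ≤ t) : Rep w B S f t := by
  obtain ⟨ι, hι, coef, z, h1, h2, h3, h4⟩ := h
  exact ⟨ι, hι, coef, z, h1, h2, h3, h4.trans hst⟩

lemma Rep.congr (h : Rep w B S f t) (hfg : ∀ b : N → ℕ, (∀ c ∈ S, b c ≤ B) → g b = f b) :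
    Rep w B S g t := by
  obtain ⟨ι, hι, coef, z, h1, h2, h3, h4⟩ := h
  exact ⟨ι, hι, coef, z, h1, h2, fun b hb => (hfg b hb).trans (h3 b hb), h4⟩

lemma Rep.nonneg (h : Rep w B S f t) : 0 ≤ t := by
  obtain ⟨ι, hι, coef, z, h1, h2, h3, h4⟩ := h
  refine le_trans (Finset.sum_nonneg fun i _ => mul_nonneg (norm_nonneg _) ?_) h4
  refine Finset.prod_nonneg fun c _ => ?_
  split_ifs <;> positivity

lemma Rep.subset (h : Rep w B S f t) (hST : S ⊆ T) : Rep w B T f t := by
  obtain ⟨ι, hι, coef, z, h1, h2, h3, h4⟩ := h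
  refine ⟨ι, hι, coef, z, h1, fun i c hc => h2 i c fun h => hc (hST h), fun b hb => ?_, ?_⟩
  · rw [h3 b fun c hc => hb c (hST hc)]
    refine Finset.sum_congr rfl fun i _ => ?_
    rw [Finset.prod_subset hST fun c _ hc => by rw [h2 i c hc, one_pow]]
  · refine le_trans (le_of_eq ?_) h4
    refine Finset.sum_congr rfl fun i _ => ?_
    rw [Finset.prod_subset hST fun c _ hc => by rw [if_pos (h2 i c hc)]]

lemma Rep.zero (w : N → ℝ) (B : ℕ) (S : Finset N) : Rep w B S (fun _ => 0) 0 :=
  ⟨Empty, inferInstance, fun _ => 0, fun _ _ => 1, fun _ _ => Or.inl rfl, fun _ _ _ => rfl,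
    fun b _ => by simp, by simp⟩

lemma Rep.one (w : N → ℝ) (B : ℕ) (S : Finset N) : Rep w B S (fun _ => 1) 1 :=
  ⟨Unit, inferInstance, fun _ => 1, fun _ _ => 1, fun _ _ => Or.inl rfl, fun _ _ _ => rfl,
    fun b _ => by simp, by simp⟩

lemma Rep.add (hf : Rep w B S f s) (hg : Rep w B S g t) :
    Rep w B S (fun b => f b + g b) (s + t) := by
  obtain ⟨ι, hι, coef, z, h1, h2, h3, h4⟩ := hf
  obtain ⟨κ, hκ, coef', z', h1', h2', h3', h4'⟩ := hg
  refine ⟨ι ⊕ κ, inferInstance, Sum.elim coef coef', Sum.elim z z', ?_, ?_, ?_, ?_⟩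
  · rintro (i | i) c
    · exact h1 i c
    · exact h1' i c
  · rintro (i | i) c hc
    · exact h2 i c hc
    · exact h2' i c hc
  · intro b hb
    beta_reduce
    rw [Fintype.sum_sum_type]
    simp only [Sum.elim_inl, Sum.elim_inr]
    rw [h3 b hb, h3' b hb]
  · rw [Fintype.sum_sum_type]
    simp only [Sum.elim_inl, Sum.elim_inr]
    exact add_le_add h4 h4'

lemma Rep.smul (hf : Rep w B S f t) (a : ℂ) : Rep w B S (fun b => a * f b) (‖a‖ * t) := by
  obtain ⟨ι, hι, coef, z, h1, h2, h3, h4⟩ := hf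
  refine ⟨ι, hι, fun i => a * coef i, z, h1, h2, fun b hb => ?_, ?_⟩
  · beta_reduce
    rw [h3 b hb, Finset.mul_sum]
    exact Finset.sum_congr rfl fun i _ => (mul_assoc _ _ _).symm
  · refine le_trans (le_of_eq ?_) (mul_le_mul_of_nonneg_left h4 (norm_nonneg a))
    rw [Finset.mul_sum]
    refine Finset.sum_congr rfl fun i _ => ?_
    rw [norm_mul, mul_assoc]

lemma Rep.neg (hf : Rep w B S f t) : Rep w B S (fun b => - f b) t := by
  have h := hf.smul (-1)
  rw [norm_neg, norm_one, one_mul] at h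
  exact h.congr fun b _ => by ring

lemma Rep.sum {κ : Type*} (A : Finset κ) (f : κ → (N → ℕ) → ℂ) (t : κ → ℝ)
    (h : ∀ a ∈ A, Rep w B S (f a) (t a)) :
    Rep w B S (fun b => ∑ a ∈ A, f a b) (∑ a ∈ A, t a) := by
  classical
  induction A using Finset.induction_on with
  | empty => simpa using Rep.zero w B S
  | insert a A ha ih =>
    have h1 := (h a (Finset.mem_insert_self a A)).add
      (ih fun c hc => h c (Finset.mem_insert_of_mem hc))
    rw [Finset.sum_insert ha]
    exact h1.congr fun b _ => by rw [Finset.sum_insert ha]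

lemma Rep.mul (hf : Rep w B S f s) (hg : Rep w B T g t) (hd : Disjoint S T) :
    Rep w B (S ∪ T) (fun b => f b * g b) (s * t) := by
  have hs := hf.nonneg
  obtain ⟨ι, hι, coef, z, h1, h2, h3, h4⟩ := hf
  obtain ⟨κ, hκ, coef', z', h1', h2', h3', h4'⟩ := hg
  have hS : ∀ (i : ι) (j : κ) c, c ∈ S → z i c * z' j c = z i c := fun i j c hc => by
    rw [h2' j c (Finset.disjoint_left.1 hd hc), mul_one]
  have hT : ∀ (i : ι) (j : κ) c, c ∈ T → z i c * z' j c = z' j c := fun i j c hc => by
    rw [h2 i c (Finset.disjoint_right.1 hd hc), one_mul]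
  refine ⟨ι × κ, inferInstance, fun p => coef p.1 * coef' p.2, fun p c => z p.1 c * z' p.2 c,
    ?_, ?_, ?_, ?_⟩
  · rintro ⟨i, j⟩ c
    by_cases hc : c ∈ S
    · simp only [hS i j c hc]; exact h1 i c
    · simp only [h2 i c hc, one_mul]; exact h1' j c
  · rintro ⟨i, j⟩ c hc
    rw [Finset.mem_union, not_or] at hc
    simp only [h2 i c hc.1, h2' j c hc.2, one_mul]
  · intro b hb
    beta_reduce
    rw [h3 b fun c hc => hb c (Finset.mem_union_left _ hc),
      h3' b fun c hc => hb c (Finset.mem_union_right _ hc), Finset.sum_mul_sum,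
      ← Finset.univ_product_univ, Finset.sum_product]
    refine Finset.sum_congr rfl fun i _ => Finset.sum_congr rfl fun j _ => ?_
    have e1 : ∏ c ∈ S, (z i c * z' j c) ^ b c = ∏ c ∈ S, z i c ^ b c :=
      Finset.prod_congr rfl fun c hc => by rw [hS i j c hc]
    have e2 : ∏ c ∈ T, (z i c * z' j c) ^ b c = ∏ c ∈ T, z' j c ^ b c :=
      Finset.prod_congr rfl fun c hc => by rw [hT i j c hc]
    rw [Finset.prod_union hd, e1, e2]
    ring
  · have key : ∑ p : ι × κ, ‖coef p.1 * coef' p.2‖ *
        ∏ c ∈ S ∪ T, (if z p.1 c * z' p.2 c = 1 then 1 else Real.exp (w c)) =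
        (∑ i, ‖coef i‖ * ∏ c ∈ S, (if z i c = 1 then 1 else Real.exp (w c))) *
        (∑ j, ‖coef' j‖ * ∏ c ∈ T, (if z' j c = 1 then 1 else Real.exp (w c))) := by
      rw [Finset.sum_mul_sum, ← Finset.univ_product_univ, Finset.sum_product]
      refine Finset.sum_congr rfl fun i _ => Finset.sum_congr rfl fun j _ => ?_
      have e1 : ∏ c ∈ S, (if z i c * z' j c = 1 then 1 else Real.exp (w c)) =
          ∏ c ∈ S, (if z i c = 1 then 1 else Real.exp (w c)) :=
        Finset.prod_congr rfl fun c hc => by rw [hS i j c hc]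
      have e2 : ∏ c ∈ T, (if z i c * z' j c = 1 then 1 else Real.exp (w c)) =
          ∏ c ∈ T, (if z' j c = 1 then 1 else Real.exp (w c)) :=
        Finset.prod_congr rfl fun c hc => by rw [hT i j c hc]
      rw [Finset.prod_union hd, e1, e2, norm_mul]
      ring
    rw [key]
    refine mul_le_mul h4 h4' ?_ hs
    refine Finset.sum_nonneg fun i _ => mul_nonneg (norm_nonneg _) ?_
    refine Finset.prod_nonneg fun c _ => ?_
    split_ifs <;> positivity

/-- A function of one variable. -/
lemma Rep.single (w : N → ℝ) (B : ℕ) (c : N) (φ : ℕ → ℂ) :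
    Rep w B {c} (fun b => φ (b c))
      (Real.exp (w c) * ∑ β ∈ range (B + 1), ‖φ β‖ * (1 / 2) ^ β) := by
  classical
  set n : ℕ := B + 1 with hn
  have hn0 : n ≠ 0 := by omega
  have hnC : (n : ℂ) ≠ 0 := by exact_mod_cast hn0
  set ζ : ℂ := Complex.exp (2 * Real.pi * Complex.I / n) with hζdef
  have hζ : IsPrimitiveRoot ζ n := Complex.isPrimitiveRoot_exp n hn0
  have hζn : ‖ζ‖ = 1 := hζ.norm'_eq_one hn0
  have hζ0 : ζ ≠ 0 := by
    intro h; rw [h, norm_zero] at hζn; exact zero_ne_one hζn
  refine ⟨Fin n × Fin n, inferInstance,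
    fun p => φ p.1 * (1 / 2) ^ (p.1 : ℕ) * (ζ⁻¹ ^ (p.1 : ℕ)) ^ (p.2 : ℕ) / n,
    fun p d => if d = c then 2 * ζ ^ (p.2 : ℕ) else 1, ?_, ?_, ?_, ?_⟩
  · intro p d
    beta_reduce
    by_cases hd : d = c
    · right
      rw [if_pos hd, norm_mul, norm_pow, hζn, one_pow]
      simp
    · left; rw [if_neg hd]
  · intro p d hd
    rw [Finset.mem_singleton] at hd
    beta_reduce
    rw [if_neg hd]
  · intro b hb
    have hbc : b c < n := by
      have := hb c (Finset.mem_singleton_self c)
      omega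
    simp only [Finset.prod_singleton, if_true]
    rw [← Finset.univ_product_univ, Finset.sum_product]
    have hin : ∀ β : Fin n, ∑ r : Fin n, φ β * (1 / 2) ^ (β : ℕ) * (ζ⁻¹ ^ (β : ℕ)) ^ (r : ℕ) / n *
        (2 * ζ ^ (r : ℕ)) ^ b c = if (β : ℕ) = b c then φ (b c) else 0 := by
      intro β
      have e1 : ∀ r : Fin n, φ β * (1 / 2) ^ (β : ℕ) * (ζ⁻¹ ^ (β : ℕ)) ^ (r : ℕ) / n *
          (2 * ζ ^ (r : ℕ)) ^ b c =
          (φ β * (1 / 2) ^ (β : ℕ) * 2 ^ b c / n) * ((ζ⁻¹ ^ (β : ℕ) * ζ ^ b c) ^ (r : ℕ)) := by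
        intro r
        rw [mul_pow, mul_pow (ζ⁻¹ ^ (β : ℕ)), ← pow_mul ζ, mul_comm (r : ℕ) (b c), pow_mul ζ]
        ring
      rw [Finset.sum_congr rfl fun r _ => e1 r, ← Finset.mul_sum,
        Fin.sum_univ_eq_sum_range (fun r => (ζ⁻¹ ^ (β : ℕ) * ζ ^ b c) ^ r) n]
      by_cases hβ : (β : ℕ) = b c
      · rw [if_pos hβ, hβ, ← mul_pow, inv_mul_cancel₀ hζ0, one_pow]
        simp only [one_pow, Finset.sum_const, Finset.card_range, nsmul_eq_mul, mul_one]
        rw [mul_assoc (φ (b c)), ← mul_pow]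
        norm_num
        try field_simp
      · rw [if_neg hβ]
        have hx : (ζ⁻¹ ^ (β : ℕ) * ζ ^ b c) ≠ 1 := by
          intro h
          apply hβ
          have h2 : ζ ^ b c = ζ ^ (β : ℕ) := by
            rw [inv_pow] at h
            have := mul_eq_one_iff_eq_inv₀ (pow_ne_zero (b c) hζ0) |>.1 h
            rw [inv_inj] at this
            exact this.symm
          exact (hζ.pow_inj hbc β.2 h2).symm
        have hxn : (ζ⁻¹ ^ (β : ℕ) * ζ ^ b c) ^ n = 1 := by
          rw [mul_pow, ← pow_mul, ← pow_mul, mul_comm (β : ℕ), mul_comm (b c), pow_mul, pow_mul,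
            inv_pow, hζ.pow_eq_one]
          simp
        rw [geom_sum_eq hx, hxn]
        simp
    rw [Finset.sum_congr rfl fun β _ => hin β,
      Fin.sum_univ_eq_sum_range (fun β => if β = b c then φ (b c) else 0) n,
      Finset.sum_ite_eq' , if_pos (Finset.mem_range.2 hbc)]
  · simp only [Finset.prod_singleton, if_true]
    rw [← Finset.univ_product_univ, Finset.sum_product, Finset.mul_sum,
      ← Fin.sum_univ_eq_sum_range (fun β => Real.exp (w c) * (‖φ β‖ * (1 / 2) ^ β)) n]
    refine Finset.sum_le_sum fun β _ => ?_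
    have hc : ∀ r : Fin n, ‖φ β * (1 / 2) ^ (β : ℕ) * (ζ⁻¹ ^ (β : ℕ)) ^ (r : ℕ) / n‖ *
        (if 2 * ζ ^ (r : ℕ) = 1 then 1 else Real.exp (w c)) =
        ‖φ β‖ * (1 / 2) ^ (β : ℕ) / n * Real.exp (w c) := by
      intro r
      have hne : ¬ (2 * ζ ^ (r : ℕ) = 1) := by
        intro h
        have := congrArg norm h
        rw [norm_mul, norm_pow, hζn, one_pow] at this
        simp at this
      rw [if_neg hne, norm_div, norm_mul, norm_mul, norm_pow, norm_pow, norm_pow, norm_inv, hζn]
      simp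
    rw [Finset.sum_congr rfl fun r _ => hc r]
    simp only [Finset.sum_const, Finset.card_univ, Fintype.card_fin, nsmul_eq_mul]
    have hnR : (n : ℝ) ≠ 0 := by exact_mod_cast hn0
    apply le_of_eq
    field_simp

/-- Products of `1 + small` over disjoint supports. -/
lemma Rep.prod_one_add {κ : Type*} [DecidableEq κ] (w : N → ℝ) (B : ℕ) (A : Finset κ)
    (U : κ → Finset N) (G : κ → (N → ℕ) → ℂ) (t : κ → ℝ)
    (hU : ∀ a ∈ A, ∀ a' ∈ A, a ≠ a' → Disjoint (U a) (U a'))
    (h : ∀ a ∈ A, Rep w B (U a) (G a) (t a)) :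
    Rep w B (A.biUnion U) (fun b => ∏ a ∈ A, (1 + G a b) - 1) (∏ a ∈ A, (1 + t a) - 1) := by
  induction A using Finset.induction_on with
  | empty =>
    have h0 := Rep.zero w B ((∅ : Finset κ).biUnion U)
    refine Rep.mono (h0.congr fun b _ => by simp) (by simp)
  | insert a A ha ih =>
    have hG := h a (Finset.mem_insert_self a A)
    have hP := ih (fun c hc d hd => hU c (Finset.mem_insert_of_mem hc) d
      (Finset.mem_insert_of_mem hd)) fun c hc => h c (Finset.mem_insert_of_mem hc)
    have hd : Disjoint (U a) (A.biUnion U) := by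
      rw [Finset.disjoint_biUnion_right]
      intro c hc
      exact hU a (Finset.mem_insert_self a A) c (Finset.mem_insert_of_mem hc)
        fun e => ha (e ▸ hc)
    have h1 := hG.mul hP hd
    have h2 := (hG.subset (Finset.subset_union_left (s₁ := U a) (s₂ := A.biUnion U))).add h1
    have h3 := h2.add (hP.subset (Finset.subset_union_right (s₁ := U a) (s₂ := A.biUnion U)))
    rw [Finset.biUnion_insert]
    refine Rep.mono (h3.congr fun b _ => ?_) (le_of_eq ?_)
    · rw [Finset.prod_insert ha]; ring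
    · rw [Finset.prod_insert ha]; ring

end Rep

section Tree

lemma tail_sum (m M : ℕ) :
    ∑ β ∈ range (M + 1), (if m < β then (1 : ℝ) else 0) * (1 / 2) ^ β ≤ (1 / 2) ^ m := by
  have key : ∑ β ∈ range (M + 1), (if m < β then (1 : ℝ) else 0) * (1 / 2) ^ β =
      if m ≤ M then (1 / 2) ^ m - (1 / 2) ^ M else 0 := by
    induction M with
    | zero =>
      rw [Finset.sum_range_one]
      by_cases h : m ≤ 0
      · have : m = 0 := by omega
        subst this; simp
      · rw [if_neg (by omega), if_neg h, zero_mul]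
    | succ M ih =>
      rw [Finset.sum_range_succ, ih]
      by_cases h : m ≤ M
      · rw [if_pos h, if_pos (by omega), if_pos (by omega), pow_succ]; ring
      · rw [if_neg h]
        by_cases h' : m = M + 1
        · subst h'; simp
        · rw [if_neg (by omega), if_neg (by omega)]; ring
  rw [key]
  split_ifs
  · have : (0 : ℝ) ≤ (1 / 2) ^ M := by positivity
    linarith
  · positivity

variable {α : Type} [DecidableEq α] (par : α → α) (S0 : Finset α)

/-- the cells of level `k` -/
def lev (k : ℕ) : Finset α := S0.image (par^[k])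

/-- the children, of level `k`, of a cell of level `k + 1` -/
def chd (k : ℕ) (c : α) : Finset α := (lev par S0 k).filter (fun d => par d = c)

/-- the cells below a cell -/
def sub : ℕ → α → Finset (ℕ × α)
  | 0, c => {(0, c)}
  | k + 1, c => insert (k + 1, c) ((chd par S0 k c).biUnion (sub k))

lemma mem_sub {k : ℕ} {c : α} {p : ℕ × α} (h : p ∈ sub par S0 k c) :
    p.1 ≤ k ∧ par^[k - p.1] p.2 = c := by
  induction k generalizing c with
  | zero =>
    rw [sub, Finset.mem_singleton] at h
    subst h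
    simp
  | succ k ih =>
    rw [sub, Finset.mem_insert, Finset.mem_biUnion] at h
    rcases h with h | ⟨d, hd, h⟩
    · subst h; simp
    · obtain ⟨h1, h2⟩ := ih h
      rw [chd, Finset.mem_filter] at hd
      refine ⟨by omega, ?_⟩
      rw [show k + 1 - p.1 = (k - p.1) + 1 by omega, Function.iterate_succ_apply', h2]
      exact hd.2

lemma mem_sub_lev {k : ℕ} {c : α} {p : ℕ × α} (hc : c ∈ lev par S0 k)
    (h : p ∈ sub par S0 k c) : p.2 ∈ lev par S0 p.1 := by
  induction k generalizing c with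
  | zero =>
    rw [sub, Finset.mem_singleton] at h
    subst h
    exact hc
  | succ k ih =>
    rw [sub, Finset.mem_insert, Finset.mem_biUnion] at h
    rcases h with h | ⟨d, hd, h⟩
    · subst h; exact hc
    · rw [chd, Finset.mem_filter] at hd
      exact ih hd.1 h

/-- the thresholds below a cell, with `s` used above -/
def Below (n : ℕ → ℕ) : ℕ → α → ℕ → (ℕ × α → ℕ) → Prop
  | 0, c, s, b => s + b (0, c) ≤ n 0
  | k + 1, c, s, b => s + b (k + 1, c) ≤ n (k + 1) ∧
      ∀ c' ∈ chd par S0 k c, Below n k c' (s + b (k + 1, c)) b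

lemma below_iff (n : ℕ → ℕ) (k : ℕ) (c : α) (s : ℕ) (b : ℕ × α → ℕ) (hc : c ∈ lev par S0 k) :
    Below par S0 n k c s b ↔
      ∀ u ∈ S0, par^[k] u = c → ∀ i ≤ k, s + ∑ j ∈ Icc i k, b (j, par^[j] u) ≤ n i := by
  induction k generalizing c s with
  | zero =>
    rw [Below]
    constructor
    · intro h u _ hu i hi
      have : i = 0 := by omega
      subst this
      simp only [Function.iterate_zero, id] at hu
      subst hu
      simpa using h
    · intro h
      rw [lev, Finset.mem_image] at hc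
      obtain ⟨u, hu, huc⟩ := hc
      have := h u hu huc 0 le_rfl
      simp only [Function.iterate_zero, id] at huc
      subst huc
      simpa using this
  | succ k ih =>
    rw [Below]
    constructor
    · rintro ⟨h1, h2⟩ u hu huc i hi
      have hc' : par^[k] u ∈ chd par S0 k c := by
        rw [chd, Finset.mem_filter]
        refine ⟨Finset.mem_image_of_mem _ hu, ?_⟩
        rw [← Function.iterate_succ_apply' par k u]; exact huc
      rcases Nat.lt_or_ge i (k + 1) with hik | hik
      · have h3 := (ih (par^[k] u) (s + b (k + 1, c)) (Finset.mem_image_of_mem _ hu)).1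
          (h2 _ hc') u hu rfl i (by omega)
        rw [Finset.sum_Icc_succ_top (by omega), huc]
        omega
      · have : i = k + 1 := by omega
        subst this
        rw [Finset.Icc_self, Finset.sum_singleton, huc]
        exact h1
    · intro h
      constructor
      · rw [lev, Finset.mem_image] at hc
        obtain ⟨u, hu, huc⟩ := hc
        have := h u hu huc (k + 1) le_rfl
        rw [Finset.Icc_self, Finset.sum_singleton, huc] at this
        exact this
      · intro c' hc'
        rw [chd, Finset.mem_filter] at hc'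
        rw [ih c' _ hc'.1]
        intro u hu huc i hi
        have huc' : par^[k + 1] u = c := by
          rw [Function.iterate_succ_apply', huc]; exact hc'.2
        have := h u hu huc' i (by omega)
        rw [Finset.sum_Icc_succ_top (by omega), huc'] at this
        omega

lemma four_bound {x : ℝ} (hx : 0 ≤ x) (hx1 : x ≤ 1) (j : ℕ) (hj : j ≤ 4) :
    (1 + x) ^ j - 1 ≤ 15 * x := by
  have h1 : (1 + x) ^ j ≤ (1 + x) ^ 4 := pow_le_pow_right₀ (by linarith) hj
  have h2 : x ^ 2 ≤ x := by nlinarith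
  have h3 : x ^ 3 ≤ x := by nlinarith
  have h4 : x ^ 4 ≤ x := by nlinarith
  nlinarith [h1, h2, h3, h4]

open Classical in
/-- The main recursion. -/
lemma rep_below (w : ℕ → ℝ) (n : ℕ → ℕ) (B K : ℕ) (hw : ∀ k, 0 ≤ w k)
    (hch : ∀ k c, (chd par S0 k c).card ≤ 4) (hn : ∀ k < K, n (k + 1) ≤ n k)
    (hn' : ∀ k < K, 30 * ((n 0 : ℝ) + 1) * Real.exp (w k) ≤ 2 ^ (n k - n (k + 1)))
    (k : ℕ) (hk : k ≤ K) (c : α) (s : ℕ) (hs : s ≤ n k) :
    Rep (fun p : ℕ × α => w p.1) B (sub par S0 k c)
      (fun b => (if Below par S0 n k c s b then 1 else 0) - 1)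
      (2 * Real.exp (w k) * (1 / 2) ^ (n k - s)) := by
  have hn0 : ∀ k ≤ K, n k ≤ n 0 := by
    intro k
    induction k with
    | zero => intro _; exact le_rfl
    | succ k ih => intro hk; exact (hn k (by omega)).trans (ih (by omega))
  induction k generalizing c s with
  | zero =>
    have h := Rep.single (fun p : ℕ × α => w p.1) B (0, c)
      (fun x => - (if n 0 - s < x then (1 : ℂ) else 0))
    refine Rep.mono (h.congr fun b _ => ?_) ?_
    · rw [Below]
      by_cases hx : s + b (0, c) ≤ n 0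
      · rw [if_pos hx, if_neg (by omega)]; simp
      · rw [if_neg hx, if_pos (by omega)]; simp
    · have h1 := tail_sum (n 0 - s) B
      have h2 : ∑ β ∈ range (B + 1), ‖-(if n 0 - s < β then (1 : ℂ) else 0)‖ * (1 / 2) ^ β =
          ∑ β ∈ range (B + 1), (if n 0 - s < β then (1 : ℝ) else 0) * (1 / 2) ^ β := by
        refine Finset.sum_congr rfl fun β _ => ?_
        split_ifs <;> simp
      rw [h2]
      have h3 : (0 : ℝ) < Real.exp (w 0) := Real.exp_pos _
      have h4 : (0 : ℝ) ≤ (1 / 2) ^ (n 0 - s) := by positivity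
      calc Real.exp (w 0) * ∑ β ∈ range (B + 1), (if n 0 - s < β then (1 : ℝ) else 0) *
            (1 / 2) ^ β ≤ Real.exp (w 0) * (1 / 2) ^ (n 0 - s) :=
          mul_le_mul_of_nonneg_left h1 h3.le
        _ ≤ 2 * Real.exp (w 0) * (1 / 2) ^ (n 0 - s) := by nlinarith [mul_nonneg h3.le h4]
  | succ k ih =>
    have hkK : k < K := by omega
    set m := n (k + 1) - s with hm
    set ε : ℕ → ℝ := fun β => 2 * Real.exp (w k) * (1 / 2) ^ (n k - (s + β)) with hε
    -- the children
    have hP : ∀ β ∈ range (m + 1), Rep (fun p : ℕ × α => w p.1) B (sub par S0 (k + 1) c)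
        (fun b => (if b (k + 1, c) = β then (1 : ℂ) else 0) *
          (∏ c' ∈ chd par S0 k c,
            (1 + ((if Below par S0 n k c' (s + β) b then (1 : ℂ) else 0) - 1)) - 1))
        (Real.exp (w (k + 1)) * (1 / 2) ^ β * (15 * ε β)) := by
      intro β hβ
      rw [Finset.mem_range] at hβ
      have hsβ : s + β ≤ n (k + 1) := by omega
      have h1 := Rep.prod_one_add (fun p : ℕ × α => w p.1) B (chd par S0 k c)
        (sub par S0 k) (fun c' b => (if Below par S0 n k c' (s + β) b then (1 : ℂ) else 0) - 1)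
        (fun _ => ε β) (fun a ha a' ha' hne => by
          rw [Finset.disjoint_left]
          intro p hp hp'
          exact hne ((mem_sub par S0 hp).2.symm.trans (mem_sub par S0 hp').2))
        (fun c' hc' => ih (by omega) c' (s + β) (hsβ.trans (hn k hkK)))
      have h2 := Rep.single (fun p : ℕ × α => w p.1) B (k + 1, c)
        (fun x => if x = β then (1 : ℂ) else 0)
      have hd : Disjoint ({(k + 1, c)} : Finset (ℕ × α))
          ((chd par S0 k c).biUnion (sub par S0 k)) := by
        rw [Finset.disjoint_singleton_left, Finset.mem_biUnion]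
        rintro ⟨d, _, hd⟩
        have := (mem_sub par S0 hd).1
        simp at this
      have h3 := h2.mul h1 hd
      have hS : ({(k + 1, c)} : Finset (ℕ × α)) ∪ ((chd par S0 k c).biUnion (sub par S0 k)) =
          sub par S0 (k + 1) c := by
        rw [sub]; rfl
      rw [hS] at h3
      refine Rep.mono h3 ?_
      have hE : (0 : ℝ) < Real.exp (w k) := Real.exp_pos _
      have hε0 : 0 ≤ ε β := by simp only [hε]; positivity
      have hε1 : ε β ≤ 1 := by
        have h5 : (1 / 2 : ℝ) ^ (n k - (s + β)) ≤ (1 / 2) ^ (n k - n (k + 1)) :=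
          pow_le_pow_of_le_one (by norm_num) (by norm_num) (by omega)
        have h6 := hn' k hkK
        have h7 : (1 / 2 : ℝ) ^ (n k - n (k + 1)) * 2 ^ (n k - n (k + 1)) = 1 := by
          rw [← mul_pow]; norm_num
        have h8 : (0 : ℝ) < (1 / 2) ^ (n k - n (k + 1)) := by positivity
        have h9 : (0 : ℝ) ≤ (n 0 : ℝ) := by positivity
        have h10 : (30 * ((n 0 : ℝ) + 1) * Real.exp (w k)) * (1 / 2) ^ (n k - n (k + 1)) ≤ 1 := by
          calc _ ≤ 2 ^ (n k - n (k + 1)) * (1 / 2 : ℝ) ^ (n k - n (k + 1)) :=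
              mul_le_mul_of_nonneg_right h6 h8.le
            _ = 1 := by rw [mul_comm]; exact h7
        simp only [hε]
        have h11 : 2 * Real.exp (w k) * (1 / 2 : ℝ) ^ (n k - (s + β)) ≤
            2 * Real.exp (w k) * (1 / 2) ^ (n k - n (k + 1)) :=
          mul_le_mul_of_nonneg_left h5 (by positivity)
        have h12 : 0 ≤ (n 0 : ℝ) * Real.exp (w k) * (1 / 2) ^ (n k - n (k + 1)) := by positivity
        have h13 : 0 ≤ Real.exp (w k) * (1 / 2 : ℝ) ^ (n k - n (k + 1)) := by positivity
        nlinarith [h10, h11, h12, h13]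
      have hs1 : ∑ β' ∈ range (B + 1), ‖(if β' = β then (1 : ℂ) else 0)‖ * (1 / 2 : ℝ) ^ β' ≤
          (1 / 2) ^ β := by
        have : ∀ β' ∈ range (B + 1), ‖(if β' = β then (1 : ℂ) else 0)‖ * (1 / 2 : ℝ) ^ β' =
            if β' = β then (1 / 2) ^ β else 0 := by
          intro β' _
          split_ifs with h
          · rw [h]; simp
          · simp
        rw [Finset.sum_congr rfl this, Finset.sum_ite_eq']
        split_ifs
        · exact le_rfl
        · positivity
      have hp1 : ∏ _a ∈ chd par S0 k c, (1 + ε β) - 1 ≤ 15 * ε β := by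
        rw [Finset.prod_const]
        exact four_bound hε0 hε1 _ (hch k c)
      have hp0 : 0 ≤ ∏ _a ∈ chd par S0 k c, (1 + ε β) - 1 := by
        rw [Finset.prod_const]
        have : (1 : ℝ) ≤ (1 + ε β) ^ (chd par S0 k c).card := one_le_pow₀ (by linarith)
        linarith
      refine mul_le_mul (mul_le_mul_of_nonneg_left hs1 (Real.exp_pos _).le) hp1 hp0 ?_
      positivity
    have hφ := Rep.single (fun p : ℕ × α => w p.1) B (k + 1, c)
      (fun x => - (if m < x then (1 : ℂ) else 0))
    have hsub : ({(k + 1, c)} : Finset (ℕ × α)) ⊆ sub par S0 (k + 1) c := by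
      rw [sub, Finset.singleton_subset_iff]; exact Finset.mem_insert_self _ _
    have hall := (hφ.subset hsub).add (Rep.sum (range (m + 1)) _ _ hP)
    refine Rep.mono (hall.congr fun b _ => ?_) ?_
    · rw [Below]
      by_cases hx : s + b (k + 1, c) ≤ n (k + 1)
      · rw [if_neg (show ¬ m < b (k + 1, c) by omega)]
        rw [Finset.sum_eq_single (b (k + 1, c)) (fun β _ hne => by
          rw [if_neg (Ne.symm hne), zero_mul]) (fun h => by
          exact absurd (Finset.mem_range.2 (by omega)) h)]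
        rw [if_pos rfl, one_mul]
        have hprod : ∏ c' ∈ chd par S0 k c,
            (1 + ((if Below par S0 n k c' (s + b (k + 1, c)) b then (1 : ℂ) else 0) - 1)) =
            if ∀ c' ∈ chd par S0 k c, Below par S0 n k c' (s + b (k + 1, c)) b
              then 1 else 0 := by
          have : ∀ c' ∈ chd par S0 k c,
              (1 + ((if Below par S0 n k c' (s + b (k + 1, c)) b then (1 : ℂ) else 0) - 1)) =
              if Below par S0 n k c' (s + b (k + 1, c)) b then (1 : ℂ) else 0 := by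
            intro c' _; ring
          rw [Finset.prod_congr rfl this, Finset.prod_ite_zero]
          simp
        rw [hprod]
        by_cases hall' : ∀ c' ∈ chd par S0 k c, Below par S0 n k c' (s + b (k + 1, c)) b
        · rw [if_pos ⟨hx, hall'⟩, if_pos hall']; ring
        · rw [if_neg fun h => hall' h.2, if_neg hall']; ring
      · rw [if_neg fun h => hx h.1, if_pos (show m < b (k + 1, c) by omega)]
        rw [Finset.sum_eq_zero fun β hβ => by
          rw [Finset.mem_range] at hβ
          rw [if_neg (by omega), zero_mul]]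
        ring
    · have h1 := tail_sum m B
      have h2 : ∑ β ∈ range (B + 1), ‖-(if m < β then (1 : ℂ) else 0)‖ * (1 / 2) ^ β =
          ∑ β ∈ range (B + 1), (if m < β then (1 : ℝ) else 0) * (1 / 2) ^ β := by
        refine Finset.sum_congr rfl fun β _ => ?_
        split_ifs <;> simp
      rw [h2]
      have hE1 : (0 : ℝ) < Real.exp (w (k + 1)) := Real.exp_pos _
      have h3 : Real.exp (w (k + 1)) * ∑ β ∈ range (B + 1), (if m < β then (1 : ℝ) else 0) *
            (1 / 2) ^ β ≤ Real.exp (w (k + 1)) * (1 / 2) ^ m :=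
        mul_le_mul_of_nonneg_left h1 hE1.le
      have h4 : ∑ β ∈ range (m + 1), Real.exp (w (k + 1)) * (1 / 2) ^ β * (15 * ε β) ≤
          Real.exp (w (k + 1)) * (1 / 2) ^ m := by
        have h5 : ∀ β ∈ range (m + 1), Real.exp (w (k + 1)) * (1 / 2) ^ β * (15 * ε β) =
            30 * Real.exp (w k) * Real.exp (w (k + 1)) * (1 / 2) ^ (n k - s) := by
          intro β hβ
          rw [Finset.mem_range] at hβ
          have h6 : n k - s = β + (n k - (s + β)) := by
            have := hn k hkK
            omega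
          simp only [hε]
          rw [h6, pow_add]
          ring
        rw [Finset.sum_congr rfl h5, Finset.sum_const, Finset.card_range, nsmul_eq_mul]
        have h7 : n k - s = (n k - n (k + 1)) + m := by
          have := hn k hkK
          omega
        have h8 := hn' k hkK
        have h9 : (1 / 2 : ℝ) ^ (n k - n (k + 1)) * 2 ^ (n k - n (k + 1)) = 1 := by
          rw [← mul_pow]; norm_num
        have h10 : (0 : ℝ) < (1 / 2) ^ (n k - n (k + 1)) := by positivity
        have h11 : (30 * ((n 0 : ℝ) + 1) * Real.exp (w k)) * (1 / 2) ^ (n k - n (k + 1)) ≤ 1 := by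
          calc _ ≤ 2 ^ (n k - n (k + 1)) * (1 / 2 : ℝ) ^ (n k - n (k + 1)) :=
              mul_le_mul_of_nonneg_right h8 h10.le
            _ = 1 := by rw [mul_comm]; exact h9
        have h12 : ((m + 1 : ℕ) : ℝ) ≤ (n 0 : ℝ) + 1 := by
          have : m + 1 ≤ n 0 + 1 := by
            have := hn0 (k + 1) hk
            omega
          exact_mod_cast this
        rw [h7, pow_add]
        have h13 : 0 ≤ Real.exp (w (k + 1)) * (1 / 2 : ℝ) ^ m := by positivity
        have h14 : ((m + 1 : ℕ) : ℝ) * (30 * Real.exp (w k) * (1 / 2) ^ (n k - n (k + 1))) ≤ 1 := by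
          have h15 : 0 ≤ 30 * Real.exp (w k) * (1 / 2 : ℝ) ^ (n k - n (k + 1)) := by positivity
          calc _ ≤ ((n 0 : ℝ) + 1) * (30 * Real.exp (w k) * (1 / 2) ^ (n k - n (k + 1))) :=
              mul_le_mul_of_nonneg_right h12 h15
            _ = (30 * ((n 0 : ℝ) + 1) * Real.exp (w k)) * (1 / 2) ^ (n k - n (k + 1)) := by ring
            _ ≤ 1 := h11
        calc ((m + 1 : ℕ) : ℝ) * (30 * Real.exp (w k) * Real.exp (w (k + 1)) *
              ((1 / 2) ^ (n k - n (k + 1)) * (1 / 2) ^ m))
            = ((m + 1 : ℕ) : ℝ) * (30 * Real.exp (w k) * (1 / 2) ^ (n k - n (k + 1))) *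
              (Real.exp (w (k + 1)) * (1 / 2) ^ m) := by ring
          _ ≤ 1 * (Real.exp (w (k + 1)) * (1 / 2) ^ m) :=
              mul_le_mul_of_nonneg_right h14 h13
          _ = Real.exp (w (k + 1)) * (1 / 2) ^ m := one_mul _
      calc _ ≤ Real.exp (w (k + 1)) * (1 / 2) ^ m + Real.exp (w (k + 1)) * (1 / 2) ^ m :=
          add_le_add h3 h4
        _ = 2 * Real.exp (w (k + 1)) * (1 / 2) ^ m := by ring

open Classical in
/-- The indicator of a tree of thresholds. -/
theorem rep_tree (w : ℕ → ℝ) (n : ℕ → ℕ) (B K : ℕ) (hw : ∀ k, 0 ≤ w k)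
    (hch : ∀ k c, (chd par S0 k c).card ≤ 4) (hn : ∀ k < K, n (k + 1) ≤ n k)
    (hn' : ∀ k < K, 30 * ((n 0 : ℝ) + 1) * Real.exp (w k) ≤ 2 ^ (n k - n (k + 1))) :
    Rep (fun p : ℕ × α => w p.1) B ((lev par S0 K).biUnion (sub par S0 K))
      (fun b => (if ∀ u ∈ S0, ∀ i ≤ K, ∑ j ∈ Icc i K, b (j, par^[j] u) ≤ n i
        then 1 else 0) - 1)
      ((1 + 2 * Real.exp (w K) * (1 / 2) ^ n K) ^ (lev par S0 K).card - 1) := by
  have h1 := Rep.prod_one_add (fun p : ℕ × α => w p.1) B (lev par S0 K)
    (sub par S0 K) (fun c b => (if Below par S0 n K c 0 b then (1 : ℂ) else 0) - 1)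
    (fun _ => 2 * Real.exp (w K) * (1 / 2) ^ n K) (fun a ha a' ha' hne => by
      rw [Finset.disjoint_left]
      intro p hp hp'
      exact hne ((mem_sub par S0 hp).2.symm.trans (mem_sub par S0 hp').2))
    (fun c' hc' => by
      have := rep_below par S0 w n B K hw hch hn hn' K le_rfl c' 0 (Nat.zero_le _)
      simpa using this)
  refine Rep.mono (h1.congr fun b _ => ?_) (by rw [Finset.prod_const])
  have hprod : ∏ c ∈ lev par S0 K,
      (1 + ((if Below par S0 n K c 0 b then (1 : ℂ) else 0) - 1)) =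
      if ∀ c ∈ lev par S0 K, Below par S0 n K c 0 b then 1 else 0 := by
    have : ∀ c ∈ lev par S0 K,
        (1 + ((if Below par S0 n K c 0 b then (1 : ℂ) else 0) - 1)) =
        if Below par S0 n K c 0 b then (1 : ℂ) else 0 := by
      intro c' _; ring
    rw [Finset.prod_congr rfl this, Finset.prod_ite_zero]
    simp
  rw [hprod]
  have hiff : (∀ u ∈ S0, ∀ i ≤ K, ∑ j ∈ Icc i K, b (j, par^[j] u) ≤ n i) ↔
      ∀ c ∈ lev par S0 K, Below par S0 n K c 0 b := by
    constructor
    · intro h c hc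
      rw [below_iff par S0 n K c 0 b hc]
      intro u hu _ i hi
      rw [zero_add]
      exact h u hu i hi
    · intro h u hu i hi
      have hc : par^[K] u ∈ lev par S0 K := Finset.mem_image_of_mem _ hu
      have := (below_iff par S0 n K _ 0 b hc).1 (h _ hc) u hu rfl i hi
      rwa [zero_add] at this
  by_cases hA : ∀ c ∈ lev par S0 K, Below par S0 n K c 0 b
  · rw [if_pos hA, if_pos (hiff.2 hA)]
  · rw [if_neg hA, if_neg fun h => hA (hiff.1 h)]

end Tree

section Torus

/-- halving of both coordinates -/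
def half (p : ℕ × ℕ) : ℕ × ℕ := (p.1 / 2, p.2 / 2)

lemma half_iter (k : ℕ) (p : ℕ × ℕ) : half^[k] p = (p.1 / 2 ^ k, p.2 / 2 ^ k) := by
  induction k with
  | zero => simp
  | succ k ih =>
    rw [Function.iterate_succ_apply', ih, half, Nat.div_div_eq_div_mul, Nat.div_div_eq_div_mul,
      pow_succ]

lemma chd_half (S0 : Finset (ℕ × ℕ)) (k : ℕ) (c : ℕ × ℕ) : (chd half S0 k c).card ≤ 4 := by
  have hsub : chd half S0 k c ⊆ ({2 * c.1, 2 * c.1 + 1} : Finset ℕ) ×ˢ
      ({2 * c.2, 2 * c.2 + 1} : Finset ℕ) := by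
    intro d hd
    rw [chd, Finset.mem_filter] at hd
    have h1 : d.1 / 2 = c.1 := by rw [← hd.2]; rfl
    have h2 : d.2 / 2 = c.2 := by rw [← hd.2]; rfl
    rw [Finset.mem_product]
    simp only [Finset.mem_insert, Finset.mem_singleton]
    omega
  refine (Finset.card_le_card hsub).trans ?_
  rw [Finset.card_product]
  have a1 : ({2 * c.1, 2 * c.1 + 1} : Finset ℕ).card ≤ 2 := Finset.card_le_two
  have a2 : ({2 * c.2, 2 * c.2 + 1} : Finset ℕ).card ≤ 2 := Finset.card_le_two
  calc _ ≤ 2 * 2 := Nat.mul_le_mul a1 a2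
    _ = 4 := rfl

open Pool.Agent.Hhelper68.CS Pool.Agent.Hhelper96.PEPS

/-- all cells of level at most `K` -/
def cellsT (N r K : ℕ) [NeZero N] : Finset (ℕ × ℕ × ℕ) :=
  (range (K + 1) ×ˢ (Finset.univ : Finset (Site N))).image (fun p => cellT N r p.1 p.2)

lemma cellT_eq (N r k : ℕ) (u : Site N) :
    cellT N r k u = (k, half^[k] (u.1.val / (4 * r), u.2.val / (4 * r))) := by
  rw [cellT, half_iter]
  simp only [Nat.div_div_eq_div_mul]

open Classical in
/-- The indicator of the allowed contents is one plus a small combination of products of powers. -/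
theorem allow_rep (N r B K : ℕ) [NeZero N] (w : ℕ → ℝ) (th : ℕ → ℕ) (hw : ∀ k, 0 ≤ w k)
    (hn : ∀ k < K, th (k + 1) ≤ th k)
    (hn' : ∀ k < K, 30 * ((th 0 : ℝ) + 1) * Real.exp (w k) ≤ 2 ^ (th k - th (k + 1))) :
    Rep (fun c : ℕ × ℕ × ℕ => w c.1) B (cellsT N r K)
      (fun b => (if Allow K (cellT N r) th b then 1 else 0) - 1)
      ((1 + 2 * Real.exp (w K) * (1 / 2) ^ th K) ^ (N * N) - 1) := by
  set S0 : Finset (ℕ × ℕ) := (Finset.univ : Finset (Site N)).image
    (fun u => (u.1.val / (4 * r), u.2.val / (4 * r))) with hS0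
  have h := rep_tree half S0 w th B K hw (chd_half S0) hn hn'
  have hsub : (lev half S0 K).biUnion (sub half S0 K) ⊆ cellsT N r K := by
    intro p hp
    rw [Finset.mem_biUnion] at hp
    obtain ⟨c, hc, hp⟩ := hp
    have h1 := (mem_sub half S0 hp).1
    have h2 := mem_sub_lev half S0 hc hp
    rw [lev, Finset.mem_image] at h2
    obtain ⟨d, hd, hd2⟩ := h2
    rw [hS0, Finset.mem_image] at hd
    obtain ⟨u, _, hu⟩ := hd
    rw [cellsT, Finset.mem_image]
    refine ⟨(p.1, u), ?_, ?_⟩
    · rw [Finset.mem_product, Finset.mem_range]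
      exact ⟨by simpa using Nat.lt_succ_of_le h1, Finset.mem_univ _⟩
    · rw [cellT_eq, hu, hd2]
  have h' := h.subset hsub
  refine Rep.mono (h'.congr fun b _ => ?_) ?_
  · have hiff : Allow K (cellT N r) th b ↔
        ∀ u ∈ S0, ∀ i ≤ K, ∑ j ∈ Icc i K, b (j, half^[j] u) ≤ th i := by
      constructor
      · intro hA u hu i hi
        rw [hS0, Finset.mem_image] at hu
        obtain ⟨v, _, hv⟩ := hu
        have := hA v i hi
        rw [← hv]
        refine le_trans (le_of_eq (Finset.sum_congr rfl fun j _ => ?_)) this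
        rw [cellT_eq]
      · intro hA v i hi
        have := hA (v.1.val / (4 * r), v.2.val / (4 * r))
          (Finset.mem_image_of_mem _ (Finset.mem_univ v)) i hi
        refine le_trans (le_of_eq (Finset.sum_congr rfl fun j _ => ?_)) this
        rw [cellT_eq]
    by_cases hA : Allow K (cellT N r) th b
    · rw [if_pos hA, if_pos (hiff.1 hA)]
    · rw [if_neg hA, if_neg fun h => hA (hiff.2 h)]
  · have hcard : (lev half S0 K).card ≤ N * N := by
      refine Finset.card_image_le.trans (Finset.card_image_le.trans ?_)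
      rw [Finset.card_univ]
      simp [Site, Fintype.card_prod, ZMod.card]
    have h1 : (1 : ℝ) ≤ 1 + 2 * Real.exp (w K) * (1 / 2) ^ th K := by
      have : (0 : ℝ) ≤ 2 * Real.exp (w K) * (1 / 2) ^ th K := by positivity
      linarith
    exact sub_le_sub_right (pow_le_pow_right₀ h1 hcard) 1

end Torus

end Pool.Agent.Hhelper17.AM
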