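import Pool.Agent.Hhelper17.AM.Close
import Pool.Agent.Hhelper17.AM.Tree
import Pool.Agent.Hhelper17.AM.Thr
import Pool.Agent.Hhelper68.CS.LabFinal

/-!
The amortized interface from its pieces.
-/

set_option autoImplicit false
set_option linter.unusedSectionVars false

open scoped BigOperators Matrix.Norms.L2Operator
open Matrix

namespace Pool.Agent.Hhelper17.AM

open Pool.Agent.Hhelper68.CS Pool.Agent.Hhelper96.PEPS Pool.Agent.Hhelper17.PE

/-- a power of two -/
theorem two_pow_between (q : ℕ) (hq : 1 ≤ q) : ∃ j : ℕ, q ≤ 2 ^ j ∧ 2 ^ j < 2 * q := by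
  rcases Nat.lt_or_ge 1 q with h | h
  · refine ⟨Nat.clog 2 q, Nat.le_pow_clog (by norm_num) q, ?_⟩
    have h1 := Nat.pow_pred_clog_lt_self (b := 2) (by norm_num) h
    have h2 : 0 < Nat.clog 2 q := Nat.clog_pos (by norm_num) h
    obtain ⟨k, hk⟩ : ∃ k, Nat.clog 2 q = k + 1 := ⟨Nat.clog 2 q - 1, by omega⟩
    rw [hk] at h1 ⊢
    rw [Nat.pred_succ] at h1
    rw [pow_succ]
    omega
  · have : q = 1 := by omega
    subst this
    exact ⟨0, by norm_num, by norm_num⟩

/-- the content of a cell in an admissible configuration -/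
theorem cont_le {N : ℕ} [NeZero N] {nb : Site N → Finset (Site N)} (hself : ∀ i, i ∈ nb i)
    (sp : Site N → Finset (Site N)) (cl : ℕ → Site N → ℕ × ℕ × ℕ) (m p : ℕ)
    (D : Fin p → Finset (Finset (Site N)))
    (hD : D ∈ Fintype.piFinset (fun _ : Fin p => smallF nb m (Finset.univ : Finset (Site N))))
    (c : ℕ × ℕ × ℕ) : cont sp cl D c ≤ p * (N * N) := by
  classical
  unfold cont
  have h1 : ∀ j, ∑ C ∈ D j, (if c ∈ NC sp cl C then C.card else 0) ≤ N * N := by
    intro j
    rw [Fintype.mem_piFinset] at hD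
    have h2 := hD j
    rw [mem_smallF] at h2
    obtain ⟨hs, -, -⟩ := h2
    calc ∑ C ∈ D j, (if c ∈ NC sp cl C then C.card else 0)
        ≤ ∑ C ∈ D j, C.card := Finset.sum_le_sum (fun C _ => by split_ifs <;> omega)
      _ = ((D j).biUnion id).card := by
          rw [Finset.card_biUnion]
          · rfl
          · intro C hC C' hC' hne
            change Disjoint C C'
            rw [Finset.disjoint_left]
            intro i hi hi'
            exact hs.2 C hC C' hC' hne i hi i hi' (hself i)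
      _ ≤ Fintype.card (Site N) := Finset.card_le_univ _
      _ = N * N := by rw [Fintype.card_prod, ZMod.card]
  calc ∑ j, ∑ C ∈ D j, (if c ∈ NC sp cl C then C.card else 0)
      ≤ ∑ _j : Fin p, N * N := Finset.sum_le_sum (fun j _ => h1 j)
    _ = p * (N * N) := by simp

/-- the cells of small clusters -/
theorem NC_sub {N r m : ℕ} [NeZero N] (sp : Site N → Finset (Site N)) (C : Finset (Site N))
    (hC : C.card ≤ m) : NC sp (cellT N r) C ⊆ cellsT N r (Nat.log 2 m) := by
  intro c hc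
  unfold NC at hc
  rw [Finset.mem_image] at hc
  obtain ⟨u, _, rfl⟩ := hc
  unfold cellsT
  rw [Finset.mem_image]
  refine ⟨(Nat.log 2 C.card, u), ?_, rfl⟩
  rw [Finset.mem_product, Finset.mem_range]
  have h1 : Nat.log 2 C.card ≤ Nat.log 2 m := Nat.log_mono_right hC
  exact ⟨Nat.lt_succ_of_le h1, Finset.mem_univ _⟩

open Classical in
/-- the cost statement, package (E) -/
def EtaLe (r : ℕ) : Prop := ∃ δ : ℝ, 0 < δ ∧ ∀ (N m : ℕ) [NeZero N] (a b : ℤ),
    ∀ z : ℕ × ℕ × ℕ → ℂ, (∀ c, z c = 1 ∨ ‖z c‖ = 2) →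
    ∑ C ∈ (Finset.univ : Finset (Finset (Site N))).filter
      (fun C => ConnF (nb N (box a b r) (box a b r)) C ∧ C.card ≤ m),
      ‖zet (spW N (box a b r)) (cellT N r) z C - 1‖ * δ ^ C.card ≤
      ∑ c ∈ (cellsT N r (Nat.log 2 m)).filter (fun c => z c ≠ 1), (1 / 2) ^ c.1

/-- the network statement, package (P5), with the label numerics -/
def CutNet (d r : ℕ) : Prop := ∀ c₁ : ℕ, ∃ κ : ℕ, ∀ (N m j q : ℕ) [NeZero N], 3 ≤ m →
    2 ^ j < 2 * q → 1 ≤ q → ∀ (th : ℕ → ℕ), Antitone th →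
    th 0 ≤ c₁ * (m + 2 ^ (j + 1)) →
    ∀ (R : Finset (ℤ × ℤ)) (a b : ℤ),
    (∀ p ∈ R, a ≤ p.1 ∧ p.1 < a + r ∧ b ≤ p.2 ∧ p.2 < b + r) →
    ∀ (K : Matrix (R → Fin d) (R → Fin d) ℂ) (t : ℝ),
    OpNet (κ ^ (m + q)) (cutG (nb N (box a b r) (box a b r)) (spW N (box a b r)) (cellT N r)
      (Nat.log 2 m) th (fun v => localTerm N R K v) t m (2 ^ (j + 1)))

theorem powNet_of (d r : ℕ) (hd : 1 ≤ d) (hr : 1 ≤ r) (hEta : EtaLe r) (hCut : CutNet d r) :
    ∃ κ, PowNet d r κ := by
  classical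
  obtain ⟨δ, hδ, hEta⟩ := hEta
  obtain ⟨t₀, ht₀, hclose⟩ := clS_close' (r ^ 4) δ hδ
  obtain ⟨c₁, hthr⟩ := thresholds
  obtain ⟨κ, hCut⟩ := hCut c₁
  refine ⟨κ, 2 * t₀, 4, by positivity, by norm_num, ?_⟩
  intro N m q _ hrN hm3 hNm hq R a b hR K hK hK1
  obtain ⟨j, hj1, hj2⟩ := two_pow_between q hq
  have hRB : R ⊆ box a b r := by
    intro p hp
    have := hR p hp
    exact mem_box.2 ⟨⟨this.1, this.2.1⟩, this.2.2.1, this.2.2.2⟩
  have hB : (box a b r).Nonempty := by
    rw [← Finset.card_pos, card_box]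
    positivity
  have hinj : ∀ v : Site N, Function.Injective (fun p : R => place N v p) :=
    fun v => place_injective hrN R a b hR v
  obtain ⟨h, hh⟩ : ∃ h : Site N → Matrix (Site N → Fin d) (Site N → Fin d) ℂ,
      h = fun v => localTerm N R K v := ⟨_, rfl⟩
  have hherm : ∀ v, (h v).IsHermitian := fun v => by
    rw [hh]
    exact localTerm_isHermitian hK v
  have hne : Nonempty (Site N → Fin d) := ⟨fun _ => ⟨0, hd⟩⟩
  have hs : ∀ v : Site N, (nb N (box a b r) (box a b r) v).card ≤ r ^ 4 := fun v => by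
    refine (card_nb_le _ _ v).trans (le_of_eq ?_)
    rw [card_box, ← pow_add]
  have hn : ∀ v, ‖h v‖ ≤ 1 := fun v => norm_le_one (fun φ => by
    rw [hh]
    exact sqn_localTerm_le R K hK1 v (hinj v) φ)
  have hself : ∀ v : Site N, v ∈ nb N (box a b r) (box a b r) v := fun v => nb_self hB v
  have hsymm : ∀ v w : Site N, w ∈ nb N (box a b r) (box a b r) v →
      v ∈ nb N (box a b r) (box a b r) w := by
    intro v w hw
    by_contra hcon
    rw [nb_iff] at hcon
    exact ((nb_iff _ _ _).2 hcon.symm) hw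
  have hnb : ∀ v w : Site N, w ∉ nb N (box a b r) (box a b r) v → Commute (h v) (h w) := by
    intro v w hw
    rw [nb_iff, Finset.disjoint_left] at hw
    rw [hh]
    change localTerm N R K v * localTerm N R K w = localTerm N R K w * localTerm N R K v
    rw [localTerm_eq_opAt, localTerm_eq_opAt]
    apply opAt_comm_of_disjoint (hinj v) (hinj w)
    intro f f' heq
    apply hw (a := place N v f)
    · exact Finset.mem_image_of_mem _ (hRB f.2)
    · rw [heq]
      exact Finset.mem_image_of_mem _ (hRB f'.2)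
  have hcardI : Fintype.card (Site N) = N * N := by
    rw [Fintype.card_prod, ZMod.card]
  obtain ⟨hδB, η, hη0, hη1, hη2, hη3⟩ := hclose (Matrix (Site N → Fin d) (Site N → Fin d) ℂ)
    (Site N) (nb N (box a b r) (box a b r)) h m hs hn hnb hself hsymm hm3
    (by rw [hcardI]; exact hNm) t₀ ht₀.le le_rfl
  obtain ⟨th, hth1, hth2, hth3, hth4⟩ := hthr m (2 ^ (j + 1)) hm3 Nat.one_le_two_pow
  obtain ⟨T, hT⟩ : ∃ T, T = clS (nb N (box a b r) (box a b r)) h t₀ m Finset.univ := ⟨_, rfl⟩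
  have hTh : T.IsHermitian := by rw [hT]; exact clS_herm hherm _ t₀ m _
  have hpow : (T * Tᴴ) ^ (2 ^ j) = T ^ (2 ^ (j + 1)) := by
    rw [hTh.eq, ← pow_two, ← pow_mul, pow_succ, mul_comm 2]
  refine ⟨2 ^ j, T, cutG (nb N (box a b r) (box a b r)) (spW N (box a b r)) (cellT N r)
      (Nat.log 2 m) th h t₀ m (2 ^ (j + 1)), hj1, hj2, ?_, ?_, ?_⟩
  · intro φ
    have hH : (hamiltonian N R K).IsHermitian := hamiltonian_isHermitian hK
    have e1 : (((2 * t₀) / 2 : ℝ) : ℂ) = (t₀ : ℂ) := by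
      congr 1
      ring
    have e2 : hamiltonian N R K = ∑ i, h i := by
      rw [hh]
      rfl
    have h1 := sandwich_of_close hH hTh (t := 2 * t₀) hη0 hη1
      (by rw [e1, e2, hT]; exact hη3 Finset.univ) φ
    have h2 : 4 * η ≤ 4 * (N : ℝ) ^ 2 / 2 ^ m := by
      rw [hcardI] at hη2
      push_cast at hη2
      have e3 : 4 * (N : ℝ) ^ 2 / 2 ^ m = 4 * ((N : ℝ) * N / 2 ^ m) := by ring
      rw [e3]
      linarith
    have h3 : 0 ≤ ex (NormedSpace.exp ((-(2 * t₀)) • hamiltonian N R K)) φ := by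
      have h4 := h1.2
      have h5 : 0 ≤ ex (T * Tᴴ) φ := by
        rw [ex_mul_conj]
        exact sqn_nonneg _
      exact nonneg_of_mul_nonneg_right (h5.trans h4) (Real.exp_pos _)
    constructor
    · refine le_trans ?_ h1.1
      apply mul_le_mul_of_nonneg_right _ h3
      apply Real.exp_le_exp.2
      linarith
    · refine h1.2.trans ?_
      apply mul_le_mul_of_nonneg_right _ h3
      apply Real.exp_le_exp.2
      linarith
  · have h1 := hCut N m j q hm3 hj2 hq th hth1 hth2 R a b hR K t₀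
    rw [hh]
    exact h1
  · -- closeness
    obtain ⟨p, hp⟩ : ∃ p : ℕ, p = 2 ^ (j + 1) := ⟨_, rfl⟩
    obtain ⟨ι, _, co, z, hz1, hz2, hrep, hcost⟩ := allow_rep N r (p * (N * N)) (Nat.log 2 m)
      (fun k => (p : ℝ) * (1 / 2) ^ k) th (fun k => by positivity)
      (fun k _ => hth1 (Nat.le_succ k)) (by rw [hp]; exact hth3)
    obtain ⟨W, hW⟩ : ∃ W : ℝ, W = (1 + 2 * Real.exp ((p : ℝ) * (1 / 2) ^ (Nat.log 2 m)) *
      (1 / 2) ^ (th (Nat.log 2 m))) ^ (N * N) - 1 := ⟨_, rfl⟩
    have hW4 : 4 ^ p * W ≤ (1 / 4) ^ m := by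
      rw [hW, hp]
      exact hth4 (N * N) hNm
    have hclose2 := cut_close (nb := nb N (box a b r) (box a b r)) h hherm hself hsymm hnb t₀ m
      (j + 1) hδ.le hδB (fun A => (hη3 A).trans hη1) (spW N (box a b r)) (cellT N r)
      (Nat.log 2 m) th (p * (N * N)) (cellsT N r (Nat.log 2 m))
      (fun C hC => NC_sub _ C hC)
      (fun D hD c _ => by
        rw [hp]
        exact cont_le hself _ _ m _ D hD c)
      co z
      (fun b hb => by
        have h1 := hrep b hb
        beta_reduce at h1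
        rw [← h1]
        ring)
      (fun c => (1 / 2) ^ c.1)
      (fun i => by
        have h1 := hEta N m a b (z i) (hz1 i)
        convert h1 using 2)
      W
      (by
        rw [hW]
        refine le_trans (le_of_eq ?_) hcost
        refine Finset.sum_congr rfl (fun i _ => ?_)
        congr 1
        rw [Finset.mul_sum, Real.exp_sum, Finset.prod_filter]
        refine Finset.prod_congr rfl (fun c _ => ?_)
        by_cases hc : z i c = 1
        · rw [if_pos hc, if_neg (by simp [hc])]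
        · rw [if_neg hc, if_pos hc, hp]
          push_cast
          rfl)
    rw [← hT, ← hp] at hclose2
    rw [hpow, ← hp]
    obtain ⟨x, hx⟩ : ∃ x : ℝ, x = √(hsq (T ^ p)) := ⟨_, rfl⟩
    have hx0 : 0 ≤ x := by rw [hx]; exact Real.sqrt_nonneg _
    have hx2 : x ^ 2 = hsq (T ^ p) := by rw [hx]; exact Real.sq_sqrt (TrPow.hsq_nonneg _)
    rw [← hx] at hclose2
    have h6 : √(hsq (cutG (nb N (box a b r) (box a b r)) (spW N (box a b r)) (cellT N r)
        (Nat.log 2 m) th h t₀ m p - T ^ p)) ≤ (1 / 4) ^ m * x := by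
      refine hclose2.trans ?_
      exact mul_le_mul_of_nonneg_right hW4 hx0
    have h7 : hsq (cutG (nb N (box a b r) (box a b r)) (spW N (box a b r)) (cellT N r)
        (Nat.log 2 m) th h t₀ m p - T ^ p) ≤ ((1 / 4) ^ m * x) ^ 2 := by
      rw [← Real.sq_sqrt (TrPow.hsq_nonneg (cutG (nb N (box a b r) (box a b r))
        (spW N (box a b r)) (cellT N r) (Nat.log 2 m) th h t₀ m p - T ^ p))]
      exact pow_le_pow_left₀ (Real.sqrt_nonneg _) h6 2
    refine h7.trans ?_
    rw [mul_pow, hx2]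
    apply mul_le_mul_of_nonneg_right _ (TrPow.hsq_nonneg _)
    rw [← pow_mul, mul_comm m 2, pow_mul]
    exact pow_le_pow_left₀ (by norm_num) (by norm_num) m

end Pool.Agent.Hhelper17.AM
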