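import Pool.Agent.Hhelper96.UB.Sandwich
import Pool.Agent.Hhelper96.PEPS.SitePeps
import Pool.Agent.Hhelper96.PEPS.Generic

/-!
Steps for the global theorem: vectors of low energy are close to the ground state; the partition
function of a gapped Hamiltonian; label networks as PEPS with site-dependent tensors.
-/

set_option autoImplicit false
set_option linter.unusedSectionVars false

open scoped BigOperators ComplexOrder
open Matrix

namespace Pool.Agent.Hhelper17.AM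

open Pool.Agent.Hhelper96.PEPS

section matrices

variable {n : Type} [Fintype n] [DecidableEq n]

/-- the decomposition of a vector along a gapped ground state -/
theorem gs_split {H : Matrix n n ℂ} (hH : H.IsHermitian) {Δ E : ℝ} {ψ : n → ℂ} (h : GS H Δ E ψ)
    (φ : n → ℂ) : ∃ (t : ℂ) (χ : n → ℂ), φ = t • ψ + χ ∧ sqn φ = ‖t‖ ^ 2 + sqn χ ∧
      E * sqn φ + Δ * sqn χ ≤ ex H φ := by
  obtain ⟨h1, h2, h3⟩ := h
  obtain ⟨t, ht⟩ : ∃ t, t = star ψ ⬝ᵥ φ := ⟨_, rfl⟩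
  obtain ⟨χ, hχ⟩ : ∃ χ, χ = φ - t • ψ := ⟨_, rfl⟩
  have hφ : φ = t • ψ + χ := by rw [hχ]; abel
  have horth : star ψ ⬝ᵥ χ = 0 := by
    rw [hχ, dotProduct_sub, dotProduct_smul, star_dot_self, h1, ← ht]
    simp
  have hs : sqn φ = ‖t‖ ^ 2 + sqn χ := by
    have := sqn_add_vec t horth
    rw [← hφ, h1, mul_one] at this
    exact this
  refine ⟨t, χ, hφ, hs, ?_⟩
  have h4 := ex_add_vec hH t ψ χ
  have h5 : star ψ ⬝ᵥ H.mulVec χ = 0 := by
    rw [herm_form hH, h2, dotProduct_smul]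
    have : star χ ⬝ᵥ ψ = 0 := by rw [← star_dot_star, horth, star_zero]
    rw [this, smul_zero, star_zero]
  have h6 : ex H ψ = E := by
    unfold ex
    rw [h2, dotProduct_smul, star_dot_self, h1]
    simp
  rw [← hφ, h5, h6] at h4
  have h7 := h3 χ horth
  rw [h4, hs]
  simp only [mul_zero, Complex.zero_re, add_zero]
  linarith

/-- a vector of low energy is close to a multiple of the ground state -/
theorem close_of_energy {H : Matrix n n ℂ} (hH : H.IsHermitian) {Δ : ℝ} (hΔ : 0 < Δ) {ψ : n → ℂ}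
    (hg : IsGappedGround H Δ ψ) {E : ℝ} (hE : H.mulVec ψ = (E : ℂ) • ψ) {φ : n → ℂ} (hφ : φ ≠ 0)
    {η : ℝ} (hη0 : 0 ≤ η) (hη1 : η ≤ 1)
    (hen : ex H φ / sqn φ ≤ E + Δ * (η ^ 2 / 4)) :
    ∃ μ : ℂ, √(∑ s, ‖(μ • φ) s - ψ s‖ ^ 2) ≤ η * √(∑ s, ‖ψ s‖ ^ 2) := by
  have hne := hg.1
  obtain ⟨E', c, hc, hGS⟩ := gs_of_gapped hH hΔ hg
  have hEE : E' = E := by
    have h1 := hGS.2.1
    rw [Matrix.mulVec_smul, hE, smul_comm] at h1
    obtain ⟨i, hi⟩ := Function.ne_iff.1 hne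
    have h2 := congrFun h1 i
    simp only [Pi.smul_apply, smul_eq_mul] at h2
    have h3 : c * ψ i ≠ 0 := mul_ne_zero hc hi
    have h4 := mul_right_cancel₀ h3 h2
    exact_mod_cast h4.symm
  subst hEE
  obtain ⟨t, χ, hd, hs, hlow⟩ := gs_split hH hGS φ
  have hpos := sqn_pos hφ
  rw [div_le_iff₀ hpos] at hen
  have hχ : sqn χ ≤ η ^ 2 / 4 * sqn φ := by
    have h1 : Δ * sqn χ ≤ Δ * (η ^ 2 / 4 * sqn φ) := by linarith
    exact le_of_mul_le_mul_left h1 hΔ
  have hη2 : η ^ 2 ≤ 1 := pow_le_one₀ hη0 hη1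
  have ht2 : 3 / 4 * sqn φ ≤ ‖t‖ ^ 2 := by nlinarith
  have ht0 : t ≠ 0 := by
    rintro rfl
    rw [norm_zero] at ht2
    linarith
  have htp : 0 < ‖t‖ := norm_pos_iff.2 ht0
  have htc : t * c ≠ 0 := mul_ne_zero ht0 hc
  refine ⟨(t * c)⁻¹, ?_⟩
  have h1 : (fun s => ((t * c)⁻¹ • φ) s - ψ s) = (t * c)⁻¹ • χ := by
    have e1 : (t * c)⁻¹ • φ = ψ + (t * c)⁻¹ • χ := by
      rw [hd, smul_add, smul_smul, smul_smul, mul_assoc, inv_mul_cancel₀ htc, one_smul]
    funext s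
    rw [e1, Pi.add_apply]
    ring
  have h2 : ∑ s, ‖((t * c)⁻¹ • φ) s - ψ s‖ ^ 2 = sqn ((t * c)⁻¹ • χ) := by
    rw [← h1]
    rfl
  have h3 : ∑ s, ‖ψ s‖ ^ 2 = sqn ψ := rfl
  rw [h2, h3]
  have h4 : sqn (c • ψ) = 1 := hGS.1
  rw [sqn_smul] at h4
  have h5 : sqn ((t * c)⁻¹ • χ) ≤ η ^ 2 * sqn ψ := by
    rw [sqn_smul, norm_inv, norm_mul, inv_pow, mul_pow, inv_mul_le_iff₀ (by positivity)]
    calc sqn χ ≤ η ^ 2 / 4 * sqn φ := hχ
      _ ≤ η ^ 2 * ‖t‖ ^ 2 := by nlinarith [sq_nonneg η]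
      _ = ‖t‖ ^ 2 * ‖c‖ ^ 2 * (η ^ 2 * sqn ψ) := by
          have : ‖t‖ ^ 2 * ‖c‖ ^ 2 * (η ^ 2 * sqn ψ) = η ^ 2 * ‖t‖ ^ 2 * (‖c‖ ^ 2 * sqn ψ) := by ring
          rw [this, h4, mul_one]
  calc √(sqn ((t * c)⁻¹ • χ)) ≤ √(η ^ 2 * sqn ψ) := Real.sqrt_le_sqrt h5
    _ = η * √(sqn ψ) := by rw [Real.sqrt_mul (sq_nonneg η), Real.sqrt_sq hη0]

/-- the energy of the ground state is the lowest eigenvalue -/
theorem lowest_of_gapped {H : Matrix n n ℂ} (hH : H.IsHermitian) {Δ : ℝ} (hΔ : 0 < Δ) {ψ : n → ℂ}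
    (hg : IsGappedGround H Δ ψ) {E : ℝ} (hE : H.mulVec ψ = (E : ℂ) • ψ) :
    ∃ j₀, hH.eigenvalues j₀ = E ∧ ∀ j, j ≠ j₀ → E + Δ ≤ hH.eigenvalues j := by
  obtain ⟨hne, E₀, hE₀, hgap⟩ := hg
  have hEE : E₀ = E := by
    rw [hE₀] at hE
    obtain ⟨i, hi⟩ := Function.ne_iff.1 hne
    have h2 := congrFun hE i
    simp only [Pi.smul_apply, smul_eq_mul] at h2
    have h4 := mul_right_cancel₀ hi h2
    exact_mod_cast h4
  subst hEE
  obtain ⟨U, hU1, hU2, hU3, hU4⟩ : ∃ U : Matrix n n ℂ, U * Uᴴ = 1 ∧ Uᴴ * U = 1 ∧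
      H = U * Matrix.diagonal (fun k => (hH.eigenvalues k : ℂ)) * Uᴴ ∧
      (∀ j, H.mulVec (U.mulVec (Pi.single j 1)) =
        (hH.eigenvalues j : ℂ) • U.mulVec (Pi.single j 1)) := by
    have : Nonempty n := by
      obtain ⟨i, _⟩ := Function.ne_iff.1 hne
      exact ⟨i⟩
    exact Sw.spectral hH
  have hu0 : ∀ j, U.mulVec (Pi.single j 1) ≠ 0 := by
    intro j h0
    have h1 : (Uᴴ).mulVec (U.mulVec (Pi.single j 1)) = Pi.single j 1 := by
      rw [Matrix.mulVec_mulVec, hU2, Matrix.one_mulVec]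
    rw [h0, Matrix.mulVec_zero] at h1
    have h2 := congrFun h1 j
    simp at h2
  have hmul : ∀ j, (∃ c : ℂ, U.mulVec (Pi.single j 1) = c • ψ) ∨ E₀ + Δ ≤ hH.eigenvalues j :=
    fun j => hgap _ _ (hu0 j) (hU4 j)
  -- some eigenvector is a multiple of the ground state
  have hex : ∃ j₀, ∃ c : ℂ, U.mulVec (Pi.single j₀ 1) = c • ψ := by
    by_contra hcon
    push Not at hcon
    have h1 : ∀ j, E₀ + Δ ≤ hH.eigenvalues j := fun j => (hmul j).resolve_left (by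
      rintro ⟨c, hc⟩
      exact hcon j c hc)
    obtain ⟨z, hz1, hz2⟩ := exists_form_sum hH ψ
    have h2 : ex H ψ = E₀ * sqn ψ := by
      unfold ex
      rw [hE₀, dotProduct_smul, star_dot_self]
      simp
    have h3 : (E₀ + Δ) * sqn ψ ≤ ex H ψ := by
      rw [hz1, hz2, Finset.mul_sum]
      exact Finset.sum_le_sum (fun i _ => mul_le_mul_of_nonneg_right (h1 i) (by positivity))
    have h4 := sqn_pos hne
    nlinarith
  obtain ⟨j₀, c₀, hc₀⟩ := hex
  refine ⟨j₀, ?_, ?_⟩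
  · have h1 := hU4 j₀
    have hc00 : c₀ ≠ 0 := by
      rintro rfl
      rw [zero_smul] at hc₀
      exact hu0 j₀ hc₀
    rw [hc₀, Matrix.mulVec_smul, hE₀] at h1
    obtain ⟨i, hi⟩ := Function.ne_iff.1 hne
    have h2 := congrFun h1 i
    simp only [Pi.smul_apply, smul_eq_mul] at h2
    have h3 : (E₀ : ℂ) * (c₀ * ψ i) = (hH.eigenvalues j₀ : ℂ) * (c₀ * ψ i) := by
      linear_combination h2
    have h4 := mul_right_cancel₀ (mul_ne_zero hc00 hi) h3
    exact_mod_cast h4.symm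
  · intro j hj
    refine (hmul j).resolve_left ?_
    rintro ⟨c, hc⟩
    have h1 : star (U.mulVec (Pi.single j 1)) ⬝ᵥ U.mulVec (Pi.single j₀ 1) = 0 := by
      rw [Matrix.star_mulVec, ← Matrix.dotProduct_mulVec, Matrix.mulVec_mulVec, hU2,
        Matrix.one_mulVec]
      simp [Pi.single_apply, dotProduct, hj.symm]
    rw [hc, hc₀, star_smul, smul_dotProduct, dotProduct_smul, star_dot_self, smul_eq_mul,
      smul_eq_mul] at h1
    have h2 : c ≠ 0 := by
      rintro rfl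
      rw [zero_smul] at hc
      exact hu0 j hc
    have h3 : c₀ ≠ 0 := by
      rintro rfl
      rw [zero_smul] at hc₀
      exact hu0 j₀ hc₀
    have h4 : ((sqn ψ : ℝ) : ℂ) ≠ 0 := by exact_mod_cast (sqn_pos hne).ne'
    exact (mul_ne_zero (star_ne_zero.2 h2) (mul_ne_zero h3 h4)) h1

/-- the partition function of a gapped Hamiltonian -/
theorem partition_gap {H : Matrix n n ℂ} (hH : H.IsHermitian) {Δ : ℝ} (hΔ : 0 < Δ) {ψ : n → ℂ}
    (hg : IsGappedGround H Δ ψ) {E : ℝ} (hE : H.mulVec ψ = (E : ℂ) • ψ) {x y : ℝ} (hy : 0 ≤ y) :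
    Real.log (∑ j, Real.exp (-(x + y) * (hH.eigenvalues j - E))) ≤
      Real.exp (-(y * Δ)) * ∑ j, Real.exp (-x * (hH.eigenvalues j - E)) := by
  obtain ⟨j₀, hj₀, hj⟩ := lowest_of_gapped hH hΔ hg hE
  have hpos : 0 < ∑ j, Real.exp (-(x + y) * (hH.eigenvalues j - E)) :=
    Finset.sum_pos (fun j _ => Real.exp_pos _) ⟨j₀, Finset.mem_univ _⟩
  have h1 := Real.log_le_sub_one_of_pos hpos
  refine h1.trans ?_
  rw [Finset.mul_sum, ← Finset.add_sum_erase _ _ (Finset.mem_univ j₀),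
    ← Finset.add_sum_erase _ (fun j => Real.exp (-(y * Δ)) *
      Real.exp (-x * (hH.eigenvalues j - E))) (Finset.mem_univ j₀)]
  rw [hj₀, sub_self, mul_zero, Real.exp_zero]
  have h2 : ∑ j ∈ Finset.univ.erase j₀, Real.exp (-(x + y) * (hH.eigenvalues j - E)) ≤
      ∑ j ∈ Finset.univ.erase j₀, Real.exp (-(y * Δ)) *
        Real.exp (-x * (hH.eigenvalues j - E)) := by
    refine Finset.sum_le_sum (fun j hjm => ?_)
    rw [← Real.exp_add]
    refine Real.exp_le_exp.2 ?_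
    have h3 := hj j (Finset.ne_of_mem_erase hjm)
    have h4 := mul_le_mul_of_nonneg_left (by linarith : Δ ≤ hH.eigenvalues j - E) hy
    linarith
  have h3 : 0 ≤ Real.exp (-(y * Δ)) * Real.exp (-x * 0) := by positivity
  linarith

end matrices

section nets

/-- a label network is a PEPS with site-dependent tensors -/
theorem site_of_netT {N d k : ℕ} [NeZero N] (W : Site N → Fin d → Fin k → Fin k → Fin k → ℂ) :
    ∃ B : Site N → Fin d → Fin k → Fin k → Fin k → Fin k → ℂ, sitePepsVec N B = netT W := by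
  classical
  refine ⟨fun v s l r dn u => if r = u then W v s l dn r else 0, ?_⟩
  funext s
  unfold sitePepsVec netT
  refine Finset.sum_congr rfl (fun a _ => ?_)
  rw [Finset.sum_eq_single a]
  · refine Finset.prod_congr rfl (fun v _ => ?_)
    exact if_pos rfl
  · intro b _ hb
    obtain ⟨v, hv⟩ := Function.ne_iff.1 hb
    exact Finset.prod_eq_zero (Finset.mem_univ v) (if_neg (fun h => hv h.symm))
  · intro h
    exact absurd (Finset.mem_univ a) h

/-- multiples of label networks -/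
theorem netT_smul {N d k : ℕ} [NeZero N] (W : Site N → Fin d → Fin k → Fin k → Fin k → ℂ)
    (c : ℂ) : ∃ W' : Site N → Fin d → Fin k → Fin k → Fin k → ℂ, netT W' = c • netT W := by
  classical
  refine ⟨fun v s l dn y => (if v = 0 then c else 1) * W v s l dn y, ?_⟩
  funext s
  rw [Pi.smul_apply, smul_eq_mul]
  unfold netT
  rw [Finset.mul_sum]
  refine Finset.sum_congr rfl (fun y _ => ?_)
  rw [Finset.prod_mul_distrib, Finset.prod_ite_eq' Finset.univ (0 : Site N) (fun _ => c),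
    if_pos (Finset.mem_univ _)]

end nets

end Pool.Agent.Hhelper17.AM
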