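import Pool.Agent.Hhelper17.AM.Content5
import Pool.Agent.Hhelper17.AM.GapStep

/-!
Global approximation: under spectral counting the ground state on the `L × L` torus is within `ε` of a
PEPS of bond dimension `(L / ε) ^ C`.
-/

set_option autoImplicit false
set_option linter.unusedSectionVars false

open scoped BigOperators Topology ComplexOrder
open Matrix Filter

namespace Pool.Agent.Hhelper17.AM

open Pool.Agent.Hhelper68.CS Pool.Agent.Hhelper96.PEPS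

/-- `X ^ (2 G) ≥ G` for `X ≥ 2` -/
theorem le_exp_log {X G : ℝ} (hX : 2 ≤ X) (hG : 0 ≤ G) : G ≤ Real.exp (2 * G * Real.log X) := by
  have h1 : 1 / 2 ≤ Real.log X := by
    have h2 := Real.log_le_log (by norm_num) hX
    have h3 := Real.log_two_gt_d9
    linarith
  have h2 : G ≤ 2 * G * Real.log X := by nlinarith
  have h3 := Real.add_one_le_exp (2 * G * Real.log X)
  linarith

/-- the choice of the parameters -/
theorem global_num (κ : ℕ) (τ c Δ G₁ α : ℝ) (hτ : 0 < τ) (hc : 0 < c) (hΔ : 0 < Δ)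
    (hG₁ : 0 ≤ G₁) (hα : 0 ≤ α) :
    ∃ C : ℝ, ∀ (L ε : ℝ), 2 ≤ L → 0 < ε → ε ≤ 1 → ∃ m q : ℕ, 3 ≤ m ∧ 1 ≤ q ∧
      G₁ * (L / ε) ^ 2 ≤ 2 ^ m ∧ L ^ 2 ≤ 2 ^ m ∧ 1 ≤ q * τ / c ∧
      (α + 1) * Real.log L ≤ q * τ / c ∧
      Real.exp (-((q * τ / c - (α + 1) * Real.log L) * Δ)) * Real.exp ((α + 2) * Real.log L) ≤
        Δ * (ε ^ 2 / 8) ∧
      ((κ ^ (m + q) : ℕ) : ℝ) ≤ (L / ε) ^ C := by
  obtain ⟨G₂, hG₂⟩ : ∃ G₂, G₂ = (α + 4 + 16 / Δ) / Δ := ⟨_, rfl⟩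
  have hG₂0 : 0 ≤ G₂ := by rw [hG₂]; positivity
  obtain ⟨A₁, hA₁⟩ : ∃ A₁, A₁ = (2 + 2 * G₁) / Real.log 2 := ⟨_, rfl⟩
  obtain ⟨A₂, hA₂⟩ : ∃ A₂, A₂ = ((α + 1) + G₂ + 2) * c / τ := ⟨_, rfl⟩
  have hl2 : 0 < Real.log 2 := Real.log_pos (by norm_num)
  have hA₁0 : 0 ≤ A₁ := by rw [hA₁]; positivity
  have hA₂0 : 0 ≤ A₂ := by rw [hA₂]; positivity
  obtain ⟨κ', hκ'⟩ : ∃ κ' : ℝ, κ' = max (κ : ℝ) 1 := ⟨_, rfl⟩
  have hκ1 : 1 ≤ κ' := by rw [hκ']; exact le_max_right _ _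
  have hκκ : (κ : ℝ) ≤ κ' := by rw [hκ']; exact le_max_left _ _
  have hκ0 : 0 < κ' := by linarith
  have hlκ : 0 ≤ Real.log κ' := Real.log_nonneg hκ1
  refine ⟨(A₁ + A₂ + 12) * Real.log κ', ?_⟩
  intro L ε hL hε hε1
  have hL0 : 0 < L := by linarith
  obtain ⟨X, hX⟩ : ∃ X, X = L / ε := ⟨_, rfl⟩
  have hLX : L ≤ X := by
    rw [hX, le_div_iff₀ hε]
    nlinarith
  have hX2 : 2 ≤ X := hL.trans hLX
  have hX0 : 0 < X := by linarith
  obtain ⟨ℓ, hℓ⟩ : ∃ ℓ, ℓ = Real.log X := ⟨_, rfl⟩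
  have hℓ1 : 1 / 2 ≤ ℓ := by
    have h2 := Real.log_le_log (by norm_num) hX2
    have h3 := Real.log_two_gt_d9
    rw [hℓ]
    linarith
  have hlL : Real.log L ≤ ℓ := by
    rw [hℓ]
    exact Real.log_le_log hL0 hLX
  have hlL0 : 0 ≤ Real.log L := Real.log_nonneg (by linarith)
  obtain ⟨m, hm⟩ : ∃ m : ℕ, m = ⌈A₁ * ℓ⌉₊ + 3 := ⟨_, rfl⟩
  obtain ⟨q, hq⟩ : ∃ q : ℕ, q = ⌈A₂ * ℓ⌉₊ + 1 := ⟨_, rfl⟩
  have hAℓ1 : 0 ≤ A₁ * ℓ := by positivity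
  have hAℓ2 : 0 ≤ A₂ * ℓ := by positivity
  have hm1 : A₁ * ℓ ≤ m := by
    rw [hm]
    push_cast
    have := Nat.le_ceil (A₁ * ℓ)
    linarith
  have hm2 : (m : ℝ) ≤ A₁ * ℓ + 4 := by
    rw [hm]
    push_cast
    have := (Nat.ceil_lt_add_one hAℓ1).le
    linarith
  have hq1 : A₂ * ℓ ≤ q := by
    rw [hq]
    push_cast
    have := Nat.le_ceil (A₂ * ℓ)
    linarith
  have hq2 : (q : ℝ) ≤ A₂ * ℓ + 2 := by
    rw [hq]
    push_cast
    have := (Nat.ceil_lt_add_one hAℓ2).le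
    linarith
  have hXexp : Real.exp ℓ = X := by rw [hℓ, Real.exp_log hX0]
  have h2m : Real.exp ((2 + 2 * G₁) * ℓ) ≤ 2 ^ m := by
    have h1 : (2 : ℝ) ^ m = Real.exp (m * Real.log 2) := by
      rw [mul_comm, Real.exp_mul, Real.exp_log (by norm_num), Real.rpow_natCast]
    rw [h1]
    refine Real.exp_le_exp.2 ?_
    have h2 : (2 + 2 * G₁) * ℓ = A₁ * ℓ * Real.log 2 := by
      rw [hA₁]
      field_simp
    rw [h2]
    exact mul_le_mul_of_nonneg_right hm1 hl2.le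
  have hX2e : Real.exp (2 * ℓ) = X ^ 2 := by
    rw [two_mul, Real.exp_add, hXexp, sq]
  have hG : G₁ ≤ Real.exp (2 * G₁ * ℓ) := by
    rw [hℓ]
    exact le_exp_log hX2 hG₁
  have hqτ : (α + 1) * ℓ + G₂ * ℓ + 2 * ℓ ≤ q * τ / c := by
    rw [le_div_iff₀ hc]
    have h1 := mul_le_mul_of_nonneg_right hq1 hτ.le
    have h2 : A₂ * ℓ * τ = ((α + 1) * ℓ + G₂ * ℓ + 2 * ℓ) * c := by
      rw [hA₂]
      field_simp
    linarith
  have hG₂ℓ : 0 ≤ G₂ * ℓ := by positivity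
  have hαℓ : 0 ≤ (α + 1) * ℓ := by positivity
  have hαL : (α + 1) * Real.log L ≤ (α + 1) * ℓ := mul_le_mul_of_nonneg_left hlL (by positivity)
  refine ⟨m, q, by omega, by omega, ?_, ?_, ?_, ?_, ?_, ?_⟩
  · rw [← hX]
    calc G₁ * X ^ 2 ≤ Real.exp (2 * G₁ * ℓ) * Real.exp (2 * ℓ) := by
          rw [hX2e]
          exact mul_le_mul_of_nonneg_right hG (by positivity)
      _ = Real.exp ((2 + 2 * G₁) * ℓ) := by
          rw [← Real.exp_add]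
          congr 1
          ring
      _ ≤ _ := h2m
  · calc L ^ 2 ≤ X ^ 2 := pow_le_pow_left₀ hL0.le hLX 2
      _ = Real.exp (2 * ℓ) := hX2e.symm
      _ ≤ Real.exp ((2 + 2 * G₁) * ℓ) := by
          refine Real.exp_le_exp.2 ?_
          have : 0 ≤ G₁ * ℓ := by positivity
          linarith
      _ ≤ _ := h2m
  · linarith
  · linarith
  · rw [← Real.exp_add]
    have h1 : -((q * τ / c - (α + 1) * Real.log L) * Δ) + (α + 2) * Real.log L ≤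
        -(2 * ℓ) - 2 * (8 / Δ) * ℓ := by
      have h2 : G₂ * ℓ * Δ ≤ (q * τ / c - (α + 1) * Real.log L) * Δ :=
        mul_le_mul_of_nonneg_right (by linarith) hΔ.le
      have h3 : G₂ * ℓ * Δ = (α + 4) * ℓ + 2 * (8 / Δ) * ℓ := by
        rw [hG₂]
        field_simp
        ring
      have h4 : (α + 2) * Real.log L ≤ (α + 2) * ℓ := mul_le_mul_of_nonneg_left hlL (by positivity)
      linarith
    refine (Real.exp_le_exp.2 h1).trans ?_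
    have h5 : 8 / Δ ≤ Real.exp (2 * (8 / Δ) * ℓ) := by
      rw [hℓ]
      exact le_exp_log hX2 (by positivity)
    have h6 : 1 / X ≤ ε := by
      rw [div_le_iff₀ hX0, hX]
      have : ε * (L / ε) = L := by field_simp
      rw [this]
      linarith
    have h7 : Real.exp (-(2 * ℓ)) ≤ ε ^ 2 := by
      rw [Real.exp_neg, hX2e, ← one_div, ← _root_.one_div_pow]
      exact pow_le_pow_left₀ (by positivity) h6 2
    have h8 : Real.exp (-(2 * (8 / Δ) * ℓ)) ≤ Δ / 8 := by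
      rw [Real.exp_neg, inv_le_comm₀ (Real.exp_pos _) (by positivity), inv_div]
      exact h5
    rw [sub_eq_add_neg, Real.exp_add]
    calc Real.exp (-(2 * ℓ)) * Real.exp (-(2 * (8 / Δ) * ℓ)) ≤ ε ^ 2 * (Δ / 8) :=
          mul_le_mul h7 h8 (Real.exp_pos _).le (by positivity)
      _ = _ := by ring
  · rw [← hX]
    push_cast
    calc (κ : ℝ) ^ (m + q) ≤ κ' ^ (m + q) := pow_le_pow_left₀ (Nat.cast_nonneg _) hκκ _
      _ = Real.exp (((m + q : ℕ) : ℝ) * Real.log κ') := by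
          rw [mul_comm, Real.exp_mul, Real.exp_log hκ0, Real.rpow_natCast]
      _ ≤ Real.exp (((A₁ + A₂ + 12) * ℓ) * Real.log κ') := by
          refine Real.exp_le_exp.2 (mul_le_mul_of_nonneg_right ?_ hlκ)
          push_cast
          linarith
      _ = X ^ ((A₁ + A₂ + 12) * Real.log κ') := by
          rw [Real.rpow_def_of_pos hX0, ← hℓ]
          congr 1
          ring

/-- The global theorem, from the interface. -/
theorem global_of_powNet (d : ℕ) (hE : 1 ≤ d → ∀ r, 1 ≤ r → ∃ κ, PowNet d r κ)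
    (F : Finset (ℤ × ℤ)) (h : Matrix (F → Fin d) (F → Fin d) ℂ) (hh : h.IsHermitian)
    (Δ : ℝ) (hΔ : 0 < Δ) (ψ : ∀ n : ℕ, (Site (n + 1) → Fin d) → ℂ)
    (hψ : ∀ᶠ n in atTop, IsGappedGround (hamiltonian (n + 1) F h) Δ (ψ n)) (α : ℝ)
    (hcount : ∀ᶠ n : ℕ in atTop, ∀ E : ℝ,
      (hamiltonian (n + 1) F h).mulVec (ψ n) = (E : ℂ) • ψ n → ∀ M : ℝ, 1 ≤ M →
        (eigCount (hamiltonian (n + 1) F h) (E + M) : ℝ) ≤ ((n + 1 : ℕ) : ℝ) ^ (α * M)) :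
    ∃ C : ℝ, ∀ᶠ n : ℕ in atTop, ∀ ε : ℝ, 0 < ε → ε ≤ 1 →
      ∃ D : ℕ, (D : ℝ) ≤ (((n + 1 : ℕ) : ℝ) / ε) ^ C ∧
        ∃ B : Site (n + 1) → Fin d → Fin D → Fin D → Fin D → Fin D → ℂ,
          √(∑ s, ‖sitePepsVec (n + 1) B s - ψ n s‖ ^ 2) ≤ ε * √(∑ s, ‖ψ n s‖ ^ 2) := by
  classical
  rcases Nat.eq_zero_or_pos d with hd | hd
  · subst hd
    refine ⟨0, ?_⟩
    filter_upwards [hψ] with n hn
    exact absurd (funext fun s => (s 0).elim0) hn.1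
  obtain ⟨r, a, b, hr, hF⟩ := exists_box F
  obtain ⟨κ, hκ⟩ := hE hd r hr
  obtain ⟨τ, C₁, hτ, hC₁, hth⟩ := thermal_content5 (d := d) r κ hr hd hκ
  obtain ⟨c, hc1, hhc, -⟩ := exists_enf_bound h
  have hc0 : 0 < c := by linarith
  obtain ⟨α', hα'⟩ : ∃ α' : ℝ, α' = max α 0 := ⟨_, rfl⟩
  have hα0 : 0 ≤ α' := by rw [hα']; exact le_max_right _ _
  have hαα : α ≤ α' := by rw [hα']; exact le_max_left _ _
  obtain ⟨C, hnum⟩ := global_num κ τ c Δ (8 * C₁ * c / Δ) α' hτ hc0 hΔ (by positivity) hα0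
  refine ⟨C, ?_⟩
  filter_upwards [hψ, hcount, eventually_ge_atTop (r + 2)] with n hg hcnt hn
  intro ε hε hε1
  have hL2 : (2 : ℝ) ≤ ((n + 1 : ℕ) : ℝ) := by exact_mod_cast (by omega : 2 ≤ n + 1)
  have hL0 : (0 : ℝ) < ((n + 1 : ℕ) : ℝ) := by linarith
  obtain ⟨m, q, hm3, hq1, hm, hLm, hq, hqα, hZ, hD⟩ := hnum ((n + 1 : ℕ) : ℝ) ε hL2 hε hε1
  have hHh : (hamiltonian (n + 1) F h).IsHermitian := hamiltonian_isHermitian hh
  have hne : Nonempty (Site (n + 1) → Fin d) := ⟨fun _ => ⟨0, hd⟩⟩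
  obtain ⟨E, hEψ⟩ : ∃ E : ℝ, (hamiltonian (n + 1) F h).mulVec (ψ n) = (E : ℂ) • ψ n := by
    obtain ⟨-, E, h1, -⟩ := hg
    exact ⟨E, h1⟩
  obtain ⟨j₀, hj₀, hj⟩ := lowest_of_gapped hHh hΔ hg hEψ
  have hmin : ∀ j, E ≤ hHh.eigenvalues j := by
    intro j
    by_cases h1 : j = j₀
    · rw [h1, hj₀]
    · have := hj j h1
      linarith
  have hNm : (n + 1) * (n + 1) ≤ 2 ^ m := by
    have h1 : (((n + 1) * (n + 1) : ℕ) : ℝ) ≤ ((2 ^ m : ℕ) : ℝ) := by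
      push_cast at hLm ⊢
      linarith
    exact_mod_cast h1
  obtain ⟨Wt, hWt, hen⟩ := hth (n + 1) m (by omega) hm3 hNm F a b hF h hh c hc1 hhc q hq1 E
    ⟨j₀, hj₀⟩ hmin
  -- the partition function
  have hcs := count_sum hHh hL2 hα0 hmin (fun M hM => by
    refine (hcnt E hEψ M hM).trans ?_
    apply Real.rpow_le_rpow_of_exponent_le (by linarith)
    exact mul_le_mul_of_nonneg_right hαα (by linarith)) (b := (α' + 1) * Real.log ((n + 1 : ℕ) : ℝ))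
    le_rfl
  obtain ⟨x, hx⟩ : ∃ x, x = (α' + 1) * Real.log ((n + 1 : ℕ) : ℝ) := ⟨_, rfl⟩
  obtain ⟨Zx, hZx⟩ : ∃ Zx, Zx = ∑ j, Real.exp (-x * (hHh.eigenvalues j - E)) := ⟨_, rfl⟩
  rw [← hx] at hcs hqα hZ
  rw [← hZx] at hcs
  have hZxpos : 0 < Zx := by
    rw [hZx]
    exact Finset.sum_pos (fun j _ => Real.exp_pos _) Finset.univ_nonempty
  have hZxle : Zx ≤ Real.exp ((α' + 2) * Real.log ((n + 1 : ℕ) : ℝ)) := by
    rw [← Real.exp_log hZxpos]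
    exact Real.exp_le_exp.2 hcs
  have hpg := partition_gap hHh hΔ hg hEψ (x := x) (y := q * τ / c - x) (by linarith)
  rw [add_sub_cancel, ← hZx] at hpg
  have hlogZ : Real.log (∑ j, Real.exp (-(q * τ / c) * (hHh.eigenvalues j - E))) ≤
      Δ * (ε ^ 2 / 8) :=
    (hpg.trans (mul_le_mul_of_nonneg_left hZxle (Real.exp_pos _).le)).trans hZ
  have hlogZ2 : Real.log (∑ j, Real.exp (-(q * τ / c) * (hHh.eigenvalues j - E))) /
      (q * τ / c) ≤ Δ * (ε ^ 2 / 8) := by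
    rw [div_le_iff₀ (by linarith)]
    refine hlogZ.trans ?_
    exact le_mul_of_one_le_right (by positivity) hq
  have hm4 : C₁ * c * (((n + 1 : ℕ) : ℝ)) ^ 2 / 2 ^ m ≤ Δ * (ε ^ 2 / 8) := by
    rw [div_le_iff₀ (by positivity)]
    have h1 := mul_le_mul_of_nonneg_left hm (by positivity : (0 : ℝ) ≤ Δ * (ε ^ 2 / 8))
    refine le_trans (le_of_eq ?_) h1
    field_simp
  have hen2 : ex (hamiltonian (n + 1) F h) (netT Wt) / sqn (netT Wt) ≤ E + Δ * (ε ^ 2 / 4) := by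
    refine hen.trans ?_
    linarith
  obtain ⟨μ, hμ⟩ := close_of_energy hHh hΔ hg hEψ hWt hε.le hε1 hen2
  obtain ⟨W', hW'⟩ := netT_smul Wt μ
  obtain ⟨B, hB⟩ := site_of_netT W'
  refine ⟨κ ^ (m + q), hD, B, ?_⟩
  rw [hB, hW']
  exact hμ

end Pool.Agent.Hhelper17.AM
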