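import Pool.Agent.Hhelper96.UB.Sandwich
import Pool.Agent.Hhelper96.UB.Hsq

/-!
Energy of the columns of an operator which is close to `(T Tᴴ) ^ q` in the Hilbert-Schmidt norm.
-/

set_option autoImplicit false
set_option linter.unusedSectionVars false

open scoped BigOperators
open Matrix Pool.Agent.Hhelper17.PE

namespace Pool.Agent.Hhelper96.PEPS

variable {n : Type} [Fintype n] [DecidableEq n]

namespace Sw

/-- the sum of the squares of the norms of the columns -/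
noncomputable def colS (M : Matrix n n ℂ) : ℝ := ∑ x, sqn (M.mulVec (Pi.single x 1))

theorem colS_eq (M : Matrix n n ℂ) : colS M = hsq M := by
  unfold colS hsq sqn
  rw [Finset.sum_comm]
  refine Finset.sum_congr rfl (fun i _ => Finset.sum_congr rfl (fun x _ => ?_))
  rw [Matrix.mulVec_single_one]
  rfl

theorem colS_nonneg (M : Matrix n n ℂ) : 0 ≤ colS M :=
  Finset.sum_nonneg (fun _ _ => sqn_nonneg _)

variable [Nonempty n]

/-- the energies of all columns of `(T Tᴴ) ^ q` together -/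
theorem agg {H T : Matrix n n ℂ} (hH : H.IsHermitian) {s κ : ℝ} (hsand : Sand H T s κ)
    (q : ℕ) (hq : 1 ≤ q) (j : ℕ) (hj : j < 2 * q) :
    0 < colS ((T * Tᴴ) ^ q) ∧ 0 < ∑ x, sqn (zig T (Pi.single x 1) j) ∧
    (2 * q - j : ℕ) * (s * ∑ x, ex H (((T * Tᴴ) ^ q).mulVec (Pi.single x 1))) ≤
      colS ((T * Tᴴ) ^ q) * ((2 * q - j : ℕ) * κ +
        Real.log ((∑ x, sqn (zig T (Pi.single x 1) j)) / colS ((T * Tᴴ) ^ q))) := by
  obtain ⟨Ti, hTi1, hTi2⟩ := Sw.exists_inv hH hsand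
  have hmpos : ∀ y j, 0 < sqn (zig T (Pi.single y 1) j) :=
    fun y j => sqn_pos (zig_ne_zero hTi1 hTi2 (Sw.single_ne y) j)
  obtain ⟨S, hS⟩ : ∃ S, S = colS ((T * Tᴴ) ^ q) := ⟨_, rfl⟩
  obtain ⟨S1, hS1⟩ : ∃ S1, S1 = ∑ x, sqn (zig T (Pi.single x 1) j) := ⟨_, rfl⟩
  have hSpos : 0 < S := by
    rw [hS]
    unfold colS
    refine Finset.sum_pos (fun y _ => ?_) Finset.univ_nonempty
    rw [← zig_even]
    exact hmpos y _
  have hS1pos : 0 < S1 := by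
    rw [hS1]
    exact Finset.sum_pos (fun y _ => hmpos y _) Finset.univ_nonempty
  rw [← hS, ← hS1]
  refine ⟨hSpos, hS1pos, ?_⟩
  obtain ⟨R, hR⟩ : ∃ R, R = S1 / S := ⟨_, rfl⟩
  have hRpos : 0 < R := by rw [hR]; positivity
  rw [← hR]
  have hx : ∀ x ∈ (Finset.univ : Finset n),
      (2 * q - j : ℕ) * (s * ex H (((T * Tᴴ) ^ q).mulVec (Pi.single x 1))) ≤
        sqn (((T * Tᴴ) ^ q).mulVec (Pi.single x 1)) * ((2 * q - j : ℕ) * κ + Real.log R - 1) +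
          sqn (zig T (Pi.single x 1) j) / R := by
    intro x _
    obtain ⟨hne, h1⟩ := Sw.main hH hsand q hq x
    have h2 := h1 j hj
    rw [zig_even] at h2
    obtain ⟨φ, hφ⟩ : ∃ φ, φ = ((T * Tᴴ) ^ q).mulVec (Pi.single x 1) := ⟨_, rfl⟩
    rw [← hφ] at hne h2 ⊢
    obtain ⟨A, hA⟩ : ∃ A, A = sqn (zig T (Pi.single x 1) j) := ⟨_, rfl⟩
    have hApos : 0 < A := by rw [hA]; exact hmpos x j
    rw [← hA] at h2 ⊢
    have hφpos := sqn_pos hne
    have h3 : Real.log (A / sqn φ) ≤ A / sqn φ / R - 1 + Real.log R := by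
      have h4 := Real.log_le_sub_one_of_pos (x := A / sqn φ / R) (by positivity)
      rw [Real.log_div (by positivity) hRpos.ne'] at h4
      linarith
    have h5 := h2.trans (add_le_add_right h3 _)
    have h6 := mul_le_mul_of_nonneg_left h5 hφpos.le
    have e1 : sqn φ * (((2 * q - j : ℕ) : ℝ) * (s * (ex H φ / sqn φ))) =
        (2 * q - j : ℕ) * (s * ex H φ) := by
      field_simp
    have e2 : sqn φ * (((2 * q - j : ℕ) : ℝ) * κ + (A / sqn φ / R - 1 + Real.log R)) =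
        sqn φ * ((2 * q - j : ℕ) * κ + Real.log R - 1) + A / R := by
      field_simp
      ring
    rw [e1, e2] at h6
    exact h6
  have h1 := Finset.sum_le_sum hx
  rw [Finset.sum_add_distrib, ← Finset.sum_mul, ← Finset.mul_sum, ← Finset.mul_sum,
    ← Finset.sum_div, ← hS1] at h1
  have h2 : ∑ x, sqn (((T * Tᴴ) ^ q).mulVec (Pi.single x 1)) = S := by rw [hS]; rfl
  rw [h2] at h1
  have h3 : S1 / R = S := by
    rw [hR]
    field_simp
  rw [h3] at h1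
  linarith

/-- the parallelogram law with weights -/
theorem ex_par (A : Matrix n n ℂ) (u v : n → ℂ) (c : ℝ) (hc : c ≠ 0) :
    ex A (u + v) + ex A (((c : ℝ) : ℂ) • u - ((c⁻¹ : ℝ) : ℂ) • v) =
      (1 + c ^ 2) * ex A u + (1 + (c⁻¹) ^ 2) * ex A v := by
  have hcC : ((c : ℝ) : ℂ) * ((c⁻¹ : ℝ) : ℂ) = 1 := by
    rw [← Complex.ofReal_mul, mul_inv_cancel₀ hc, Complex.ofReal_one]
  have h1 : star (u + v) ⬝ᵥ A.mulVec (u + v) +
      star (((c : ℝ) : ℂ) • u - ((c⁻¹ : ℝ) : ℂ) • v) ⬝ᵥ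
        A.mulVec (((c : ℝ) : ℂ) • u - ((c⁻¹ : ℝ) : ℂ) • v) =
      (((1 + c ^ 2 : ℝ)) : ℂ) * (star u ⬝ᵥ A.mulVec u) +
        (((1 + (c⁻¹) ^ 2 : ℝ)) : ℂ) * (star v ⬝ᵥ A.mulVec v) := by
    simp only [Matrix.mulVec_add, Matrix.mulVec_sub, Matrix.mulVec_smul, star_add, star_sub,
      star_smul, add_dotProduct, sub_dotProduct, dotProduct_add, dotProduct_sub, smul_dotProduct,
      dotProduct_smul, smul_eq_mul, Complex.star_def, Complex.conj_ofReal]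
    push_cast at hcC ⊢
    linear_combination (-(star u ⬝ᵥ A.mulVec v) - (star v ⬝ᵥ A.mulVec u)) * hcC
  have h2 := congrArg Complex.re h1
  rw [Complex.add_re, Complex.add_re, Complex.re_ofReal_mul, Complex.re_ofReal_mul] at h2
  exact h2

theorem sqn_eq_ex (u : n → ℂ) : sqn u = ex (1 : Matrix n n ℂ) u := by
  unfold ex
  rw [Matrix.one_mulVec, star_dot_self, Complex.ofReal_re]

/-- Perturbation in the Hilbert-Schmidt norm. -/
theorem pert {H M G : Matrix n n ℂ} {B η : ℝ}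
    (hB : ∀ φ : n → ℂ, |ex H φ| ≤ B * sqn φ) (hB0 : 0 ≤ B) (m : ℕ) (hm : 3 ≤ m)
    (hS : 0 < colS M)
    (hη : ∑ x, ex H (M.mulVec (Pi.single x 1)) ≤ η * colS M)
    (hG : colS (G - M) ≤ (1 / 8) ^ m * colS M) :
    ∃ x, G.mulVec (Pi.single x 1) ≠ 0 ∧
      ex H (G.mulVec (Pi.single x 1)) / sqn (G.mulVec (Pi.single x 1)) ≤ η + 8 * B / 2 ^ m := by
  obtain ⟨δ, hδ⟩ : ∃ δ : ℝ, δ = 1 / 2 ^ m := ⟨_, rfl⟩
  have hδ0 : 0 < δ := by rw [hδ]; positivity
  have hδ8 : δ ≤ 1 / 8 := by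
    rw [hδ]
    have : (2 : ℝ) ^ 3 ≤ 2 ^ m := pow_le_pow_right₀ (by norm_num) hm
    exact one_div_le_one_div_of_le (by norm_num) (by linarith)
  have hγ : (1 / 8 : ℝ) ^ m = δ ^ 3 := by
    rw [hδ, ← _root_.one_div_pow, ← pow_mul, mul_comm m 3, pow_mul]
    norm_num
  obtain ⟨c, hc⟩ : ∃ c : ℝ, c = √δ := ⟨_, rfl⟩
  have hcpos : 0 < c := by rw [hc]; exact Real.sqrt_pos.2 hδ0
  have hc2 : c ^ 2 = δ := by rw [hc]; exact Real.sq_sqrt hδ0.le
  have hci : (c⁻¹) ^ 2 = δ⁻¹ := by rw [inv_pow, hc2]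
  -- the positive form
  have hF0 : ∀ φ : n → ℂ, 0 ≤ ex H φ + B * sqn φ := by
    intro φ
    have := (abs_le.1 (hB φ)).1
    linarith
  have hF1 : ∀ φ : n → ℂ, ex H φ + B * sqn φ ≤ 2 * B * sqn φ := by
    intro φ
    have := (abs_le.1 (hB φ)).2
    linarith
  have hpar : ∀ u v : n → ℂ, ex H (u + v) + B * sqn (u + v) ≤
      (1 + δ) * (ex H u + B * sqn u) + (1 + δ⁻¹) * (2 * B * sqn v) := by
    intro u v
    have h1 := ex_par H u v c hcpos.ne'
    have h2 := ex_par (1 : Matrix n n ℂ) u v c hcpos.ne'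
    rw [← sqn_eq_ex, ← sqn_eq_ex, ← sqn_eq_ex, ← sqn_eq_ex] at h2
    rw [hc2, hci] at h1 h2
    have h3 := hF0 (((c : ℝ) : ℂ) • u - ((c⁻¹ : ℝ) : ℂ) • v)
    have h4 := mul_le_mul_of_nonneg_left (hF1 v) (by positivity : (0 : ℝ) ≤ 1 + δ⁻¹)
    nlinarith [mul_comm B (sqn (u + v))]
  have hparS : ∀ u v : n → ℂ, sqn u ≤ (1 + δ) * sqn (u + v) + (1 + δ⁻¹) * sqn v := by
    intro u v
    have h2 := ex_par (1 : Matrix n n ℂ) (u + v) (-v) c hcpos.ne'
    rw [← sqn_eq_ex, ← sqn_eq_ex, ← sqn_eq_ex, ← sqn_eq_ex, hc2, hci, add_neg_cancel_right] at h2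
    have h3 := sqn_nonneg (((c : ℝ) : ℂ) • (u + v) - ((c⁻¹ : ℝ) : ℂ) • (-v))
    have h4 : sqn (-v) = sqn v := by
      unfold sqn
      simp
    rw [h4] at h2
    linarith
  obtain ⟨S, hSd⟩ : ∃ S, S = colS M := ⟨_, rfl⟩
  obtain ⟨SG, hSG⟩ : ∃ SG, SG = colS G := ⟨_, rfl⟩
  obtain ⟨SD, hSD⟩ : ∃ SD, SD = colS (G - M) := ⟨_, rfl⟩
  rw [← hSd] at hS hη hG
  rw [← hSD, hγ] at hG
  have hsplit : ∀ x : n, G.mulVec (Pi.single x 1) =
      M.mulVec (Pi.single x 1) + (G - M).mulVec (Pi.single x 1) := by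
    intro x
    rw [Matrix.sub_mulVec]
    abel
  -- the sum of the forms
  obtain ⟨EM, hEM⟩ : ∃ EM, EM = ∑ x, ex H (M.mulVec (Pi.single x 1)) := ⟨_, rfl⟩
  obtain ⟨EG, hEG⟩ : ∃ EG, EG = ∑ x, ex H (G.mulVec (Pi.single x 1)) := ⟨_, rfl⟩
  rw [← hEM] at hη
  have hsum1 : EG + B * SG ≤ (1 + δ) * (EM + B * S) + (1 + δ⁻¹) * (2 * B * SD) := by
    have h1 : ∑ x, (ex H (G.mulVec (Pi.single x 1)) + B * sqn (G.mulVec (Pi.single x 1))) ≤
        ∑ x, ((1 + δ) * (ex H (M.mulVec (Pi.single x 1)) + B * sqn (M.mulVec (Pi.single x 1))) +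
          (1 + δ⁻¹) * (2 * B * sqn ((G - M).mulVec (Pi.single x 1)))) := by
      refine Finset.sum_le_sum (fun x _ => ?_)
      rw [hsplit x]
      exact hpar _ _
    rw [Finset.sum_add_distrib, Finset.sum_add_distrib, ← Finset.mul_sum, ← Finset.mul_sum,
      ← Finset.mul_sum, ← Finset.mul_sum, Finset.sum_add_distrib, ← Finset.mul_sum] at h1
    rw [hEG, hEM, hSG, hSd, hSD]
    exact h1
  have hsum2 : S ≤ (1 + δ) * SG + (1 + δ⁻¹) * SD := by
    have h1 : ∑ x, sqn (M.mulVec (Pi.single x 1)) ≤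
        ∑ x, ((1 + δ) * sqn (G.mulVec (Pi.single x 1)) +
          (1 + δ⁻¹) * sqn ((G - M).mulVec (Pi.single x 1))) := by
      refine Finset.sum_le_sum (fun x _ => ?_)
      rw [hsplit x]
      exact hparS _ _
    rw [Finset.sum_add_distrib, ← Finset.mul_sum, ← Finset.mul_sum] at h1
    rw [hSG, hSd, hSD]
    exact h1
  have hEM0 : 0 ≤ EM + B * S := by
    have h1 : 0 ≤ ∑ x, (ex H (M.mulVec (Pi.single x 1)) + B * sqn (M.mulVec (Pi.single x 1))) :=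
      Finset.sum_nonneg (fun x _ => hF0 _)
    rw [Finset.sum_add_distrib, ← Finset.mul_sum] at h1
    rw [hEM, hSd]
    exact h1
  have hEM1 : EM + B * S ≤ 2 * B * S := by
    have h1 : ∑ x, (ex H (M.mulVec (Pi.single x 1)) + B * sqn (M.mulVec (Pi.single x 1))) ≤
        ∑ x, 2 * B * sqn (M.mulVec (Pi.single x 1)) := Finset.sum_le_sum (fun x _ => hF1 _)
    rw [Finset.sum_add_distrib, ← Finset.mul_sum, ← Finset.mul_sum] at h1
    rw [hEM, hSd]
    exact h1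
  have hSG0 : 0 ≤ SG := by rw [hSG]; exact colS_nonneg _
  have hSD0 : 0 ≤ SD := by rw [hSD]; exact colS_nonneg _
  have hgam : (1 + δ⁻¹) * SD ≤ δ / 4 * S := by
    have h1 : (1 + δ⁻¹) * SD ≤ (1 + δ⁻¹) * (δ ^ 3 * S) :=
      mul_le_mul_of_nonneg_left hG (by positivity)
    have h2 : (1 + δ⁻¹) * (δ ^ 3 * S) = (δ ^ 3 + δ ^ 2) * S := by
      field_simp
    rw [h2] at h1
    refine h1.trans (mul_le_mul_of_nonneg_right ?_ hS.le)
    nlinarith [mul_pos hδ0 hδ0]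
  -- the ratio
  obtain ⟨a, ha⟩ : ∃ a, a = (EM + B * S) / S := ⟨_, rfl⟩
  have haS : EM + B * S = a * S := by rw [ha]; field_simp
  have ha0 : 0 ≤ a := by rw [ha]; positivity
  have ha1 : a ≤ 2 * B := by
    rw [ha, div_le_iff₀ hS]
    exact hEM1
  have haη : a ≤ η + B := by
    rw [ha, div_le_iff₀ hS]
    linarith
  have hSSG : S ≤ (1 + 2 * δ) * SG := by
    have h1 : (1 - δ / 4) * S ≤ (1 + δ) * SG := by linarith
    have h2 : (1 + δ) * SG ≤ (1 - δ / 4) * ((1 + 2 * δ) * SG) := by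
      have h3 : 1 + δ ≤ (1 - δ / 4) * (1 + 2 * δ) := by nlinarith
      calc (1 + δ) * SG ≤ ((1 - δ / 4) * (1 + 2 * δ)) * SG :=
            mul_le_mul_of_nonneg_right h3 hSG0
        _ = _ := by ring
    have h4 : (0 : ℝ) < 1 - δ / 4 := by linarith
    exact le_of_mul_le_mul_left (h1.trans h2) h4
  have hSGpos : 0 < SG := by
    rcases hSG0.eq_or_lt with h | h
    · rw [← h, mul_zero] at hSSG
      linarith
    · exact h
  have hfin : EG + B * SG ≤ (a + 8 * B * δ) * SG := by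
    have h1 : EG + B * SG ≤ ((1 + δ) * a + B * δ / 2) * S := by
      have h2 : (1 + δ⁻¹) * (2 * B * SD) = 2 * B * ((1 + δ⁻¹) * SD) := by ring
      rw [h2, haS] at hsum1
      have h3 := mul_le_mul_of_nonneg_left hgam (by positivity : (0 : ℝ) ≤ 2 * B)
      calc EG + B * SG ≤ (1 + δ) * (a * S) + 2 * B * ((1 + δ⁻¹) * SD) := hsum1
        _ ≤ (1 + δ) * (a * S) + 2 * B * (δ / 4 * S) := by linarith
        _ = _ := by ring
    have h2 : ((1 + δ) * a + B * δ / 2) * S ≤ ((1 + δ) * a + B * δ / 2) * ((1 + 2 * δ) * SG) :=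
      mul_le_mul_of_nonneg_left hSSG (by positivity)
    have h3 : ((1 + δ) * a + B * δ / 2) * (1 + 2 * δ) ≤ a + 8 * B * δ := by
      have h4 : δ * a ≤ δ * (2 * B) := mul_le_mul_of_nonneg_left ha1 hδ0.le
      have h5 : δ ^ 2 * a ≤ δ ^ 2 * (2 * B) := mul_le_mul_of_nonneg_left ha1 (by positivity)
      have h6 : δ ^ 2 * B ≤ δ * B / 8 := by
        have : δ * (δ * B) ≤ 1 / 8 * (δ * B) :=
          mul_le_mul_of_nonneg_right hδ8 (by positivity)
        nlinarith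
      nlinarith
    calc EG + B * SG ≤ _ := h1
      _ ≤ _ := h2
      _ = (((1 + δ) * a + B * δ / 2) * (1 + 2 * δ)) * SG := by ring
      _ ≤ _ := mul_le_mul_of_nonneg_right h3 hSG0
  -- a good column
  by_contra hcon
  push Not at hcon
  have hne : ∃ x ∈ (Finset.univ : Finset n), G.mulVec (Pi.single x 1) ≠ 0 := by
    by_contra hz
    push Not at hz
    have : SG = 0 := by
      rw [hSG]
      unfold colS
      refine Finset.sum_eq_zero (fun x hx => ?_)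
      rw [hz x hx]
      simp [sqn]
    linarith
  have hstrict : ∀ x : n, G.mulVec (Pi.single x 1) ≠ 0 →
      (a - B + 8 * B * δ) * sqn (G.mulVec (Pi.single x 1)) < ex H (G.mulVec (Pi.single x 1)) := by
    intro x hx
    have h1 := hcon x hx
    have h2 : 8 * B / 2 ^ m = 8 * B * δ := by rw [hδ]; ring
    rw [h2, lt_div_iff₀ (sqn_pos hx)] at h1
    refine lt_of_le_of_lt (mul_le_mul_of_nonneg_right ?_ (sqn_nonneg _)) h1
    linarith
  have hlt : ∑ x, (a - B + 8 * B * δ) * sqn (G.mulVec (Pi.single x 1)) <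
      ∑ x, ex H (G.mulVec (Pi.single x 1)) := by
    obtain ⟨x0, hx0, hx0'⟩ := hne
    refine Finset.sum_lt_sum (fun x _ => ?_) ⟨x0, hx0, hstrict x0 hx0'⟩
    by_cases hx : G.mulVec (Pi.single x 1) = 0
    · rw [hx, ex_zero_vec]
      simp [sqn]
    · exact (hstrict x hx).le
  rw [← Finset.mul_sum] at hlt
  have h9 : ∑ x, sqn (G.mulVec (Pi.single x 1)) = SG := by rw [hSG]; rfl
  rw [h9, ← hEG] at hlt
  linarith

end Sw

variable [Nonempty n]

/-- E1 for an operator close to `(T Tᴴ) ^ q`. -/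
theorem energy_of_sandwich5 {H T G : Matrix n n ℂ} (hH : H.IsHermitian) {s κ B : ℝ} (hs : 0 < s)
    (hsand : ∀ φ : n → ℂ,
      Real.exp (-κ) * ex (NormedSpace.exp ((-s) • H)) φ ≤ ex (T * Tᴴ) φ ∧
      ex (T * Tᴴ) φ ≤ Real.exp κ * ex (NormedSpace.exp ((-s) • H)) φ)
    (hB : ∀ φ : n → ℂ, |ex H φ| ≤ B * sqn φ) (hB0 : 0 ≤ B)
    (q : ℕ) (hq : 1 ≤ q) (m : ℕ) (hm : 3 ≤ m)
    (hG : hsq (G - (T * Tᴴ) ^ q) ≤ (1 / 8) ^ m * hsq ((T * Tᴴ) ^ q))
    (ψ : n → ℂ) (hψ : ψ ≠ 0) :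
    ∃ x : n, G.mulVec (Pi.single x 1) ≠ 0 ∧
      ex H (G.mulVec (Pi.single x 1)) / sqn (G.mulVec (Pi.single x 1)) ≤
        ex H ψ / sqn ψ + 2 * κ / s + Real.log (Fintype.card n) / (2 * q * s) + 8 * B / 2 ^ m := by
  obtain ⟨hS, hS1, h1⟩ := Sw.agg hH hsand q hq 0 (by omega)
  rw [← Sw.colS_eq, ← Sw.colS_eq] at hG
  refine Sw.pert hB hB0 m hm hS ?_ hG
  obtain ⟨S, hSd⟩ : ∃ S, S = Sw.colS ((T * Tᴴ) ^ q) := ⟨_, rfl⟩
  have hlow := Sw.power hH hsand q hψ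
  have hup := Sw.sqn_le_sum ((T * Tᴴ) ^ q) ψ
  have hψpos := sqn_pos hψ
  have h2 : Real.exp (-(2 * q * (κ + s * (ex H ψ / sqn ψ)))) ≤ S := by
    refine le_of_mul_le_mul_right ?_ hψpos
    refine hlow.trans (hup.trans (le_of_eq ?_))
    rw [hSd]
    rfl
  have h3 : ∑ x, sqn (zig T (Pi.single x 1) 0) = (Fintype.card n : ℝ) := by
    have : ∀ x ∈ (Finset.univ : Finset n), sqn (zig T (Pi.single x 1) 0) = 1 :=
      fun x _ => sqn_single x
    rw [Finset.sum_congr rfl this]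
    simp
  rw [← hSd] at hS h1 ⊢
  rw [h3] at hS1 h1
  rw [Real.log_div hS1.ne' hS.ne', Nat.sub_zero] at h1
  have h4 := Real.log_le_log (Real.exp_pos _) h2
  rw [Real.log_exp] at h4
  push_cast at h1
  have hqpos : (0 : ℝ) < q := by exact_mod_cast hq
  obtain ⟨E, hE⟩ : ∃ E, E = ∑ x, ex H (((T * Tᴴ) ^ q).mulVec (Pi.single x 1)) := ⟨_, rfl⟩
  rw [← hE] at h1 ⊢
  have h5 : 2 * q * (s * E) ≤
      S * (2 * q * κ + (Real.log (Fintype.card n) + 2 * q * (κ + s * (ex H ψ / sqn ψ)))) := by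
    refine h1.trans (mul_le_mul_of_nonneg_left ?_ hS.le)
    linarith
  have h6 : E ≤ S * (2 * q * κ + (Real.log (Fintype.card n) + 2 * q * (κ + s * (ex H ψ / sqn ψ)))) /
      (2 * q * s) := by
    rw [le_div_iff₀ (by positivity)]
    linarith
  refine h6.trans (le_of_eq ?_)
  field_simp
  ring

/-- E2 for an operator close to `(T Tᴴ) ^ q`. -/
theorem thermal_of_sandwich5 {H T G : Matrix n n ℂ} (hH : H.IsHermitian) {s κ B : ℝ} (hs : 0 < s)
    (hsand : ∀ φ : n → ℂ,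
      Real.exp (-κ) * ex (NormedSpace.exp ((-s) • H)) φ ≤ ex (T * Tᴴ) φ ∧
      ex (T * Tᴴ) φ ≤ Real.exp κ * ex (NormedSpace.exp ((-s) • H)) φ)
    (hB : ∀ φ : n → ℂ, |ex H φ| ≤ B * sqn φ) (hB0 : 0 ≤ B)
    (q : ℕ) (hq : 1 ≤ q) (m : ℕ) (hm : 3 ≤ m)
    (hG : hsq (G - (T * Tᴴ) ^ q) ≤ (1 / 8) ^ m * hsq ((T * Tᴴ) ^ q))
    (E₀ : ℝ) (hE₀ : ∃ j, hH.eigenvalues j = E₀) :
    ∃ x : n, G.mulVec (Pi.single x 1) ≠ 0 ∧
      ex H (G.mulVec (Pi.single x 1)) / sqn (G.mulVec (Pi.single x 1)) ≤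
        E₀ + 4 * κ / s +
          Real.log (∑ j, Real.exp (-(q * s) * (hH.eigenvalues j - E₀))) / (q * s) +
          8 * B / 2 ^ m := by
  obtain ⟨hS, hS1, h1⟩ := Sw.agg hH hsand q hq q (by omega)
  rw [← Sw.colS_eq, ← Sw.colS_eq] at hG
  refine Sw.pert hB hB0 m hm hS ?_ hG
  obtain ⟨S, hSd⟩ : ∃ S, S = Sw.colS ((T * Tᴴ) ^ q) := ⟨_, rfl⟩
  have e0 : 2 * q - q = q := by omega
  rw [e0, ← hSd] at h1
  rw [← hSd] at hS ⊢
  obtain ⟨S1, hS1d⟩ : ∃ S1, S1 = ∑ x, sqn (zig T (Pi.single x 1) q) := ⟨_, rfl⟩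
  rw [← hS1d] at hS1 h1
  -- the denominator
  have hSlow : Real.exp (-(2 * q * (κ + s * E₀))) ≤ S := by
    obtain ⟨j, hj⟩ := hE₀
    obtain ⟨U, hU1, hU2, -, hU4⟩ := Sw.spectral hH
    obtain ⟨u, hu⟩ : ∃ u, u = U.mulVec (Pi.single j 1) := ⟨_, rfl⟩
    have hu1 : sqn u = 1 := by
      rw [hu, ← ex_conj_mul, hU2, ex_one, sqn_single]
    have hu0 : u ≠ 0 := by
      rintro h0
      rw [h0] at hu1
      simp [sqn] at hu1
    have hu2 : ex H u / sqn u = E₀ := by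
      have h4 := hU4 j
      rw [← hu, hj] at h4
      unfold ex
      rw [h4, dotProduct_smul, star_dot_self, hu1, div_one, smul_eq_mul, Complex.ofReal_one,
        mul_one, Complex.ofReal_re]
    have h4 := Sw.power hH hsand q hu0
    have h5 := Sw.sqn_le_sum ((T * Tᴴ) ^ q) u
    rw [hu2, hu1, mul_one] at h4
    rw [hu1, mul_one] at h5
    refine h4.trans (h5.trans (le_of_eq ?_))
    rw [hSd]
    rfl
  -- the numerator
  obtain ⟨Z, hZ⟩ : ∃ Z, Z = ∑ j, Real.exp (-(q * s) * (hH.eigenvalues j - E₀)) := ⟨_, rfl⟩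
  have hZpos : 0 < Z := by
    rw [hZ]
    exact Finset.sum_pos (fun y _ => Real.exp_pos _) Finset.univ_nonempty
  have hS1up : S1 ≤ Real.exp (q * κ) * (Real.exp (-(q * s * E₀)) * Z) := by
    have h4 := Sw.trace_le hH hsand q
    rw [← hS1d] at h4
    have h5 : Real.exp (-(q * s * E₀)) * Z =
        ∑ k, Real.exp (-(q * s) * hH.eigenvalues k) := by
      rw [hZ, Finset.mul_sum]
      refine Finset.sum_congr rfl (fun y _ => ?_)
      rw [← Real.exp_add]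
      congr 1
      ring
    rw [h5]
    exact h4
  rw [← hZ]
  have h5 : Real.log (S1 / S) ≤ 3 * q * κ + q * s * E₀ + Real.log Z := by
    rw [Real.log_div hS1.ne' hS.ne']
    have h6 := Real.log_le_log hS1 hS1up
    rw [Real.log_mul (Real.exp_pos _).ne' (mul_pos (Real.exp_pos _) hZpos).ne',
      Real.log_mul (Real.exp_pos _).ne' hZpos.ne', Real.log_exp, Real.log_exp] at h6
    have h7 := Real.log_le_log (Real.exp_pos _) hSlow
    rw [Real.log_exp] at h7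
    linarith
  have hqpos : (0 : ℝ) < q := by exact_mod_cast hq
  obtain ⟨E, hE⟩ : ∃ E, E = ∑ x, ex H (((T * Tᴴ) ^ q).mulVec (Pi.single x 1)) := ⟨_, rfl⟩
  rw [← hE] at h1 ⊢
  have h6 : q * (s * E) ≤ S * (4 * q * κ + q * s * E₀ + Real.log Z) := by
    refine h1.trans (mul_le_mul_of_nonneg_left ?_ hS.le)
    linarith
  have h7 : E ≤ S * (4 * q * κ + q * s * E₀ + Real.log Z) / (q * s) := by
    rw [le_div_iff₀ (by positivity)]
    linarith
  refine h7.trans (le_of_eq ?_)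
  field_simp
  ring

end Pool.Agent.Hhelper96.PEPS
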