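import Pool.Agent.Hhelper17.AM.Defs

/-!
The allowed configurations have small total cluster size at every site.
-/

set_option autoImplicit false
set_option linter.unusedSectionVars false

open scoped BigOperators

namespace Pool.Agent.Hhelper17.AM

open Pool.Agent.Hhelper68.CS

section vis

variable {I : Type} [Fintype I] [DecidableEq I] {nb : I → Finset I}
variable {V : Type} [Fintype V] [DecidableEq V] {Cl : Type} [DecidableEq Cl]

/-- the total size of the clusters seen at a site -/
theorem vis_le (sp : I → Finset V) (cl : ℕ → V → Cl) (K m : ℕ) (hK : Nat.log 2 m ≤ K)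
    (th : ℕ → ℕ) {p : ℕ} (D : Fin p → Finset (Finset I))
    (hD : ∀ j, ∀ C ∈ D j, C.card ≤ m) (hA : Allow K cl th (cont sp cl D)) (u : V) :
    ∑ j, ∑ C ∈ D j, (if u ∈ suppC sp C then C.card else 0) ≤ th 0 := by
  have h0 := hA u 0 (Nat.zero_le K)
  refine le_trans ?_ h0
  have h1 : ∀ j, ∀ C ∈ D j, (if u ∈ suppC sp C then C.card else 0) ≤
      ∑ k ∈ Finset.Icc 0 K, (if cl k u ∈ NC sp cl C then C.card else 0) := by
    intro j C hC
    by_cases hu : u ∈ suppC sp C
    · rw [if_pos hu]
      have hk : Nat.log 2 C.card ∈ Finset.Icc 0 K := by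
        rw [Finset.mem_Icc]
        exact ⟨Nat.zero_le _, (Nat.log_mono_right (hD j C hC)).trans hK⟩
      have hmem : cl (Nat.log 2 C.card) u ∈ NC sp cl C := by
        unfold NC
        exact Finset.mem_image_of_mem _ hu
      calc C.card = (if cl (Nat.log 2 C.card) u ∈ NC sp cl C then C.card else 0) := by
            rw [if_pos hmem]
        _ ≤ _ := Finset.single_le_sum
            (f := fun k => if cl k u ∈ NC sp cl C then C.card else 0)
            (fun k _ => Nat.zero_le _) hk
    · rw [if_neg hu]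
      exact Nat.zero_le _
  calc ∑ j, ∑ C ∈ D j, (if u ∈ suppC sp C then C.card else 0)
      ≤ ∑ j, ∑ C ∈ D j, ∑ k ∈ Finset.Icc 0 K, (if cl k u ∈ NC sp cl C then C.card else 0) :=
        Finset.sum_le_sum (fun j _ => Finset.sum_le_sum (fun C hC => h1 j C hC))
    _ = ∑ j, ∑ k ∈ Finset.Icc 0 K, ∑ C ∈ D j, (if cl k u ∈ NC sp cl C then C.card else 0) :=
        Finset.sum_congr rfl (fun j _ => Finset.sum_comm)
    _ = ∑ k ∈ Finset.Icc 0 K, ∑ j, ∑ C ∈ D j, (if cl k u ∈ NC sp cl C then C.card else 0) :=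
        Finset.sum_comm
    _ = ∑ k ∈ Finset.Icc 0 K, cont sp cl D (cl k u) := rfl

end vis

end Pool.Agent.Hhelper17.AM
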