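import Pool.Agent.Hhelper17.AM.Defs

/-!
The weighted cluster sum, times the inverse exponential, is bounded.
-/

set_option autoImplicit false
set_option linter.unusedSectionVars false

open scoped BigOperators

namespace Pool.Agent.Hhelper17.AM

open Pool.Agent.Hhelper68.CS

section weight

variable {I : Type} [Fintype I] [DecidableEq I] {nb : I → Finset I}

/-- a family together with a subfamily -/
theorem sub_fam {E : Type} [AddCommMonoid E] (hself : ∀ i, i ∈ nb i)
    (hsymm : ∀ i j, j ∈ nb i → i ∈ nb j)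
    (m : ℕ) (A : Finset I) (f : Finset (Finset I) → Finset (Finset I) → E) :
    ∑ D ∈ smallF nb m A, ∑ D' ∈ D.powerset, f D' D =
      ∑ D' ∈ smallF nb m A, ∑ D'' ∈ smallF nb m (awy nb A (D'.biUnion id)), f D' (D' ∪ D'') := by
  classical
  rw [Finset.sum_sigma', Finset.sum_sigma']
  refine Finset.sum_bij' (fun x _ => ⟨x.2, x.1 \ x.2⟩) (fun x _ => ⟨x.1 ∪ x.2, x.1⟩) ?_ ?_ ?_ ?_ ?_
  · intro x hx
    rw [Finset.mem_sigma, mem_smallF, Finset.mem_powerset] at hx
    obtain ⟨⟨hs, hA, hm⟩, hsub⟩ := hx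
    rw [Finset.mem_sigma, mem_smallF, mem_smallF]
    refine ⟨⟨⟨fun C hC => hs.1 C (hsub hC), fun C hC C' hC' => hs.2 C (hsub hC) C' (hsub hC')⟩,
      fun C hC => hA C (hsub hC), fun C hC => hm C (hsub hC)⟩,
      ⟨fun C hC => hs.1 C (Finset.mem_sdiff.1 hC).1, fun C hC C' hC' =>
        hs.2 C (Finset.mem_sdiff.1 hC).1 C' (Finset.mem_sdiff.1 hC').1⟩, ?_, fun C hC =>
      hm C (Finset.mem_sdiff.1 hC).1⟩
    intro C hC j hj
    rw [Finset.mem_sdiff] at hC
    unfold awy
    rw [Finset.mem_sdiff]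
    refine ⟨hA C hC.1 hj, ?_⟩
    intro hcon
    simp only [Finset.mem_biUnion, id] at hcon
    obtain ⟨i, ⟨C', hC', hi⟩, hji⟩ := hcon
    exact hs.2 C' (hsub hC') C hC.1 (by rintro rfl; exact hC.2 hC') i hi j hj hji
  · intro x hx
    rw [Finset.mem_sigma, mem_smallF, mem_smallF] at hx
    obtain ⟨⟨hs1, hA1, hm1⟩, hs2, hA2, hm2⟩ := hx
    rw [Finset.mem_sigma, mem_smallF, Finset.mem_powerset]
    have hfar : ∀ C ∈ x.1, ∀ C' ∈ x.2, ∀ a ∈ C, ∀ b ∈ C', b ∉ nb a := by
      intro C hC C' hC' a ha b hb hcon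
      have h1 := hA2 C' hC' hb
      unfold awy at h1
      rw [Finset.mem_sdiff] at h1
      apply h1.2
      simp only [Finset.mem_biUnion, id]
      exact ⟨a, ⟨C, hC, ha⟩, hcon⟩
    refine ⟨⟨⟨?_, ?_⟩, ?_, ?_⟩, Finset.subset_union_left⟩
    · intro C hC
      rcases Finset.mem_union.1 hC with h1 | h1
      · exact hs1.1 C h1
      · exact hs2.1 C h1
    · intro C hC C' hC' hne a ha b hb
      rcases Finset.mem_union.1 hC with h1 | h1
      · rcases Finset.mem_union.1 hC' with h2 | h2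
        · exact hs1.2 C h1 C' h2 hne a ha b hb
        · exact hfar C h1 C' h2 a ha b hb
      · rcases Finset.mem_union.1 hC' with h2 | h2
        · exact fun hcon => hfar C' h2 C h1 b hb a ha (hsymm a b hcon)
        · exact hs2.2 C h1 C' h2 hne a ha b hb
    · intro C hC
      rcases Finset.mem_union.1 hC with h1 | h1
      · exact hA1 C h1
      · exact (hA2 C h1).trans Finset.sdiff_subset
    · intro C hC
      rcases Finset.mem_union.1 hC with h1 | h1
      · exact hm1 C h1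
      · exact hm2 C h1
  · intro x hx
    rw [Finset.mem_sigma, Finset.mem_powerset] at hx
    rw [Finset.union_sdiff_of_subset hx.2]
  · intro x hx
    rw [Finset.mem_sigma, mem_smallF, mem_smallF] at hx
    obtain ⟨⟨hs1, hA1, hm1⟩, hs2, hA2, hm2⟩ := hx
    have hdis : Disjoint x.1 x.2 := by
      rw [Finset.disjoint_left]
      intro C hC hC'
      obtain ⟨a, ha⟩ := (hs1.1 C hC).1
      have h1 := hA2 C hC' ha
      unfold awy at h1
      rw [Finset.mem_sdiff] at h1
      apply h1.2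
      simp only [Finset.mem_biUnion, id]
      exact ⟨a, ⟨C, hC, ha⟩, hself a⟩
    have e1 : (x.1 ∪ x.2) \ x.1 = x.2 := by
      rw [Finset.union_sdiff_left]
      exact Finset.sdiff_eq_self_of_disjoint hdis.symm
    rw [e1]
  · intro x hx
    rw [Finset.mem_sigma, Finset.mem_powerset] at hx
    rw [Finset.union_sdiff_of_subset hx.2]

variable {𝔸 : Type} [NormedRing 𝔸] [NormedAlgebra ℂ 𝔸] [CompleteSpace 𝔸] (h : I → 𝔸)

/-- expansion of the weighted cluster sum around the cluster sum -/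
theorem clW_eq (hself : ∀ i, i ∈ nb i) (hsymm : ∀ i j, j ∈ nb i → i ∈ nb j)
    (hnb : ∀ i j, j ∉ nb i → Commute (h i) (h j)) (t : ℝ) (m : ℕ) (ζ : Finset I → ℂ)
    (A : Finset I) :
    clW nb h t m ζ A = ∑ D ∈ smallF nb m A, (∏ C ∈ D, (ζ C - 1)) •
      (clF h t (D.biUnion id) * clS nb h t m (awy nb A (D.biUnion id))) := by
  classical
  have h1 : clW nb h t m ζ A = ∑ D ∈ smallF nb m A, ∑ D' ∈ D.powerset,
      (∏ C ∈ D', (ζ C - 1)) • clF h t (D.biUnion id) := by
    unfold clW
    refine Finset.sum_congr rfl (fun D _ => ?_)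
    rw [← Finset.sum_smul]
    congr 1
    have h2 := Finset.prod_add_one (s := D) (f := fun C => ζ C - 1)
    simp only [sub_add_cancel] at h2
    exact h2
  rw [h1, sub_fam hself hsymm m A (fun D' D => (∏ C ∈ D', (ζ C - 1)) • clF h t (D.biUnion id))]
  refine Finset.sum_congr rfl (fun D _ => ?_)
  rw [clS_def, Finset.mul_sum, Finset.smul_sum]
  refine Finset.sum_congr rfl (fun D' hD' => ?_)
  congr 1
  rw [mem_smallF] at hD'
  rw [Finset.union_biUnion]
  apply clF_union
  apply (far_awy h hself hnb A (D.biUnion id)).mono h (Finset.Subset.refl _)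
  intro j hj
  simp only [Finset.mem_biUnion, id] at hj
  obtain ⟨C, hC, hj⟩ := hj
  exact hD'.2.1 C hC hj

open Classical in
/-- **The weighted cluster sum, times the inverse exponential, is bounded.** -/
theorem clW_norm [NormOneClass 𝔸] (hself : ∀ i, i ∈ nb i)
    (hsymm : ∀ i j, j ∈ nb i → i ∈ nb j)
    (hnb : ∀ i j, j ∉ nb i → Commute (h i) (h j)) (t : ℝ) (m : ℕ) {δ : ℝ}
    (hδ0 : 0 ≤ δ)
    (hδ : ∀ A B : Finset I, ‖clF h t B * FE h t (awy nb A B) * EE h t A‖ ≤ δ ^ B.card)
    (hS : ∀ A : Finset I, ‖clS nb h t m A * EE h t A‖ ≤ 2) (ζ : Finset I → ℂ) (A : Finset I) :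
    ‖clW nb h t m ζ A * EE h t A‖ ≤
      2 * Real.exp (∑ C ∈ (Finset.univ : Finset (Finset I)).filter
        (fun C => ConnF nb C ∧ C.card ≤ m), ‖ζ C - 1‖ * δ ^ C.card) := by
  rw [clW_eq h hself hsymm hnb t m ζ A, Finset.sum_mul]
  obtain ⟨K, hK⟩ : ∃ K, K = (Finset.univ : Finset (Finset I)).filter
    (fun C => ConnF nb C ∧ C.card ≤ m) := ⟨_, rfl⟩
  rw [← hK]
  have h3 : ∀ D ∈ smallF nb m A, ‖((∏ C ∈ D, (ζ C - 1)) •
      (clF h t (D.biUnion id) * clS nb h t m (awy nb A (D.biUnion id)))) * EE h t A‖ ≤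
        2 * ∏ C ∈ D, (‖ζ C - 1‖ * δ ^ C.card) := by
    intro D hD
    rw [mem_smallF] at hD
    obtain ⟨hs, hA, -⟩ := hD
    obtain ⟨B, hB⟩ : ∃ B, B = D.biUnion id := ⟨_, rfl⟩
    have hcard : ∏ C ∈ D, δ ^ C.card = δ ^ B.card := by
      rw [Finset.prod_pow_eq_pow_sum, hB]
      congr 1
      rw [Finset.card_biUnion]
      · rfl
      · intro C hC C' hC' hne
        change Disjoint C C'
        rw [Finset.disjoint_left]
        intro j hj hj'
        exact hs.2 C hC C' hC' hne j hj j hj' (hself j)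
    rw [← hB]
    have hc1 := clF_comm_clS h hself hnb t m A B
    have hc2 : Commute (clF h t B) (EE h t (awy nb A B)) := by
      rw [EE_eq]
      exact clF_comm_FE h (far_awy h hself hnb A B)
    have h7 : (clF h t B * clS nb h t m (awy nb A B)) * EE h t A =
        (clS nb h t m (awy nb A B) * EE h t (awy nb A B)) *
          (clF h t B * FE h t (awy nb A B) * EE h t A) := by
      have h8 : (clS nb h t m (awy nb A B) * EE h t (awy nb A B)) *
          (clF h t B * FE h t (awy nb A B) * EE h t A) =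
          ((clS nb h t m (awy nb A B) * EE h t (awy nb A B)) * clF h t B) *
            FE h t (awy nb A B) * EE h t A := by
        simp only [mul_assoc]
      rw [h8, ← (hc1.mul_right hc2).eq]
      have h9 : clF h t B * (clS nb h t m (awy nb A B) * EE h t (awy nb A B)) *
          FE h t (awy nb A B) * EE h t A = clF h t B * clS nb h t m (awy nb A B) *
          (EE h t (awy nb A B) * FE h t (awy nb A B)) * EE h t A := by
        simp only [mul_assoc]
      rw [h9, EE_mul_FE, mul_one]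
    rw [smul_mul_assoc, norm_smul, h7, Finset.prod_mul_distrib, hcard, norm_prod]
    have h10 : ‖(clS nb h t m (awy nb A B) * EE h t (awy nb A B)) *
          (clF h t B * FE h t (awy nb A B) * EE h t A)‖ ≤ 2 * δ ^ B.card :=
      (norm_mul_le _ _).trans
        (mul_le_mul (hS _) (hδ A B) (norm_nonneg _) (by norm_num))
    calc (∏ C ∈ D, ‖ζ C - 1‖) * ‖(clS nb h t m (awy nb A B) * EE h t (awy nb A B)) *
          (clF h t B * FE h t (awy nb A B) * EE h t A)‖
        ≤ (∏ C ∈ D, ‖ζ C - 1‖) * (2 * δ ^ B.card) :=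
          mul_le_mul_of_nonneg_left h10 (Finset.prod_nonneg (fun _ _ => norm_nonneg _))
      _ = 2 * ((∏ C ∈ D, ‖ζ C - 1‖) * δ ^ B.card) := by ring
  refine (norm_sum_le _ _).trans ((Finset.sum_le_sum h3).trans ?_)
  rw [← Finset.mul_sum]
  apply mul_le_mul_of_nonneg_left _ (by norm_num)
  have h2 : smallF nb m A ⊆ K.powerset := by
    intro D hD
    rw [mem_smallF] at hD
    rw [Finset.mem_powerset]
    intro C hC
    rw [hK, Finset.mem_filter]
    exact ⟨Finset.mem_univ _, hD.1.1 C hC, hD.2.2 C hC⟩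
  have hnn : ∀ C : Finset I, 0 ≤ ‖ζ C - 1‖ * δ ^ C.card := fun C => by positivity
  calc ∑ D ∈ smallF nb m A, ∏ C ∈ D, (‖ζ C - 1‖ * δ ^ C.card)
      ≤ ∑ D ∈ K.powerset, ∏ C ∈ D, (‖ζ C - 1‖ * δ ^ C.card) := by
        apply Finset.sum_le_sum_of_subset_of_nonneg h2
        intro D _ _
        exact Finset.prod_nonneg (fun C _ => hnn C)
    _ = ∏ C ∈ K, (1 + ‖ζ C - 1‖ * δ ^ C.card) := by
        rw [Finset.prod_one_add]
    _ ≤ ∏ C ∈ K, Real.exp (‖ζ C - 1‖ * δ ^ C.card) := by
        apply Finset.prod_le_prod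
        · intro C _
          have := hnn C
          linarith
        · intro C _
          have := Real.add_one_le_exp (‖ζ C - 1‖ * δ ^ C.card)
          linarith
    _ = Real.exp (∑ C ∈ K, ‖ζ C - 1‖ * δ ^ C.card) := (Real.exp_sum _ _).symm

end weight

end Pool.Agent.Hhelper17.AM
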